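import Mathlib

/-!
Numerical part of the argument.
-/

set_option autoImplicit false

namespace Pool.Agent.H420R3

noncomputable section

/-- combination of the two alternatives -/
lemma combine {D : ℕ → ℕ} {q : ℕ} {A B h : ℝ} (hq : 2 ≤ q) (hDpos : ∀ i, 0 < D i)
    (hDle : ∀ i, D (i + 1) ≤ D i) (hA : 0 < A) (hB : 0 ≤ B) (hh : 0 ≤ h)
    (hdrop : ∀ j, D (j + 1) < D j → (q : ℝ) ^ j * h / D 0 ≤ 1 →
      (q : ℝ) ^ j * D j / D 0 ≤ B * (1 + Real.log (D j) + D j * ((q : ℝ) ^ j * h / D 0)))
    (hrun : ∀ i m : ℕ, 1 ≤ m → (∀ t ≤ 2 * m, D (i + t) = D i) →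
      ((m : ℝ) + 1) * (m - 1) / 2 ≤
        A * (1 + Real.log (m * D i) + (q : ℝ) ^ (2 * m) * D i * ((q : ℝ) ^ i * h / D 0)))
    {m : ℕ} (hm : 1 ≤ m)
    (hbig : A * (2 + Real.log m + Real.log (D 0)) < ((m : ℝ) + 1) * (m - 1) / 2) :
    1 / ((q : ℝ) ^ (2 * m + 1) * (2 * (B + 1) * (1 + Real.log (D 0)))) ≤ h := by
  have hq' : (2 : ℝ) ≤ q := by exact_mod_cast hq
  have hm' : (1 : ℝ) ≤ m := by exact_mod_cast hm
  have hD : ∀ i, (0 : ℝ) < D i := fun i => by exact_mod_cast hDpos i
  have hD1 : ∀ i, (1 : ℝ) ≤ D i := fun i => by exact_mod_cast hDpos i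
  have hlog : ∀ i, 0 ≤ Real.log (D i) := fun i => Real.log_nonneg (hD1 i)
  have hanti : ∀ i, (D i : ℝ) ≤ D 0 := by
    intro i
    have : D i ≤ D 0 := antitone_nat_of_succ_le hDle (Nat.zero_le i)
    exact_mod_cast this
  have hlogle : ∀ i, Real.log (D i) ≤ Real.log (D 0) := fun i =>
    Real.log_le_log (hD i) (hanti i)
  set L : ℝ := 1 + Real.log (D 0) with hL
  have hL1 : 1 ≤ L := by
    have := hlog 0
    linarith
  set B' : ℝ := B + 1 with hB'
  have hB1 : 1 ≤ B' := by linarith
  by_contra hcon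
  push Not at hcon
  set Λ : ℕ → ℝ := fun i => (q : ℝ) ^ i * D i / D 0 with hΛ
  have hΛpos : ∀ i, 0 < Λ i := by
    intro i
    have := hD i
    have := hD 0
    simp only [hΛ]
    positivity
  have hhΛ : ∀ i, (D i : ℝ) * ((q : ℝ) ^ i * h / D 0) = Λ i * h := by
    intro i
    simp only [hΛ]
    ring
  have hq2m : (1 : ℝ) ≤ (q : ℝ) ^ (2 * m) := one_le_pow₀ (by linarith)
  have hq2m1 : (1 : ℝ) ≤ (q : ℝ) ^ (2 * m + 1) := one_le_pow₀ (by linarith)
  have hX : (q : ℝ) ^ (2 * m + 1) * (2 * B' * L) * h < 1 := by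
    rw [lt_div_iff₀ (by positivity)] at hcon
    linarith
  have hsmall : ∀ x : ℝ, x ≤ (q : ℝ) ^ (2 * m + 1) * (2 * B' * L) → x * h ≤ 1 := by
    intro x hx
    have : x * h ≤ (q : ℝ) ^ (2 * m + 1) * (2 * B' * L) * h := mul_le_mul_of_nonneg_right hx hh
    linarith
  have claim : ∀ j, ∃ i, i ≤ j ∧ j < i + 2 * m ∧ (∀ t, i ≤ t → t ≤ j → D t = D i) ∧
      Λ i ≤ q * (2 * B' * L) := by
    intro j
    induction j with
    | zero =>
      refine ⟨0, le_rfl, by omega, fun t _ ht => by rw [Nat.le_zero.mp ht], ?_⟩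
      have h0 : Λ 0 = 1 := by
        simp only [hΛ, pow_zero, one_mul]
        exact div_self (hD 0).ne'
      rw [h0]
      have : 1 ≤ 2 * B' * L := by nlinarith
      nlinarith
    | succ j ih =>
      obtain ⟨i, hij, hji, hst, hΛi⟩ := ih
      have hΛj : Λ j ≤ (q : ℝ) ^ (2 * m) * (q * (2 * B' * L)) := by
        obtain ⟨t, rfl⟩ := Nat.exists_eq_add_of_le hij
        have h1 : Λ (i + t) = (q : ℝ) ^ t * Λ i := by
          simp only [hΛ]
          rw [hst (i + t) (by omega) le_rfl, pow_add]
          ring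
        rw [h1]
        have h2 : (q : ℝ) ^ t ≤ (q : ℝ) ^ (2 * m) := pow_le_pow_right₀ (by linarith) (by omega)
        have := hΛpos i
        gcongr
      have hΛj' : Λ j ≤ (q : ℝ) ^ (2 * m + 1) * (2 * B' * L) := by
        refine hΛj.trans (le_of_eq ?_)
        rw [pow_succ]
        ring
      rcases eq_or_lt_of_le (hDle j) with hD' | hD'
      · -- stable step
        by_cases hlen : j + 1 < i + 2 * m
        · refine ⟨i, by omega, hlen, fun t ht1 ht2 => ?_, hΛi⟩
          rcases Nat.lt_or_ge t (j + 1) with h1 | h1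
          · exact hst t ht1 (by omega)
          · have : t = j + 1 := by omega
            rw [this, hD']
            exact hst j hij le_rfl
        · exfalso
          have hj : j + 1 = i + 2 * m := by omega
          have h1 := hrun i m hm (by
            intro t ht
            rcases Nat.lt_or_ge (i + t) (j + 1) with h1 | h1
            · exact hst _ (by omega) (by omega)
            · have : i + t = j + 1 := by omega
              rw [this, hD']
              exact hst j hij le_rfl)
          have h2 : (q : ℝ) ^ (2 * m) * D i * ((q : ℝ) ^ i * h / D 0) ≤ 1 := by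
            have h3 : (q : ℝ) ^ (2 * m) * D i * ((q : ℝ) ^ i * h / D 0) =
                ((q : ℝ) ^ (2 * m) * Λ i) * h := by
              rw [mul_assoc, hhΛ]
              ring
            rw [h3]
            apply hsmall
            calc (q : ℝ) ^ (2 * m) * Λ i ≤ (q : ℝ) ^ (2 * m) * (q * (2 * B' * L)) := by gcongr
              _ = _ := by
                rw [pow_succ]
                ring
          have h3 : Real.log (m * D i) ≤ Real.log m + Real.log (D 0) := by
            rw [Real.log_mul (by linarith) (hD i).ne']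
            linarith [hlogle i]
          have h4 : A * (1 + Real.log (m * D i) +
              (q : ℝ) ^ (2 * m) * D i * ((q : ℝ) ^ i * h / D 0)) ≤
              A * (2 + Real.log m + Real.log (D 0)) :=
            mul_le_mul_of_nonneg_left (by linarith) hA.le
          linarith
      · -- drop
        have h1 : (q : ℝ) ^ j * h / D 0 ≤ 1 := by
          have h2 := hsmall _ hΛj'
          have h3 : (q : ℝ) ^ j * h / D 0 ≤ Λ j * h := by
            rw [← hhΛ]
            have h4 : 0 ≤ (q : ℝ) ^ j * h / D 0 := by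
              have := hD 0
              positivity
            nlinarith [hD1 j]
          linarith
        have h2 := hdrop j hD' h1
        rw [hhΛ] at h2
        have h3 : Λ j ≤ 2 * B' * L := by
          have h4 : B' * (Λ j * h) ≤ Λ j / 2 := by
            have h5 : 2 * B' * h ≤ 1 := by
              have h6 : 2 * B' ≤ (q : ℝ) ^ (2 * m + 1) * (2 * B' * L) := by
                have h7 : 2 * B' ≤ 2 * B' * L := by nlinarith
                have h8 : 2 * B' * L ≤ (q : ℝ) ^ (2 * m + 1) * (2 * B' * L) := by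
                  nlinarith
                linarith
              exact hsmall _ h6
            have := hΛpos j
            nlinarith
          have h5 : Λ j ≤ B' * (L + Λ j * h) := by
            refine h2.trans ?_
            have h6 : 0 ≤ Λ j * h := mul_nonneg (hΛpos j).le hh
            have h7 := hlogle j
            have h8 := hlog j
            apply mul_le_mul
            · linarith
            · linarith
            · linarith
            · linarith
          nlinarith
        refine ⟨j + 1, le_rfl, by omega, fun t ht1 ht2 => ?_, ?_⟩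
        · have : t = j + 1 := by omega
          rw [this]
        · have h4 : Λ (j + 1) ≤ q * Λ j := by
            simp only [hΛ]
            rw [pow_succ]
            have h5 : (D (j + 1) : ℝ) ≤ D j := by exact_mod_cast hDle j
            have := hD 0
            rw [← mul_div_assoc]
            apply div_le_div_of_nonneg_right _ this.le
            calc (q : ℝ) ^ j * q * D (j + 1) ≤ (q : ℝ) ^ j * q * D j := by gcongr
              _ = _ := by ring
          refine h4.trans ?_
          gcongr
  -- contradiction: `Λ` is bounded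
  obtain ⟨j, hj⟩ := pow_unbounded_of_one_lt
    (D 0 * ((q : ℝ) ^ (2 * m) * (q * (2 * B' * L)))) (by linarith : (1 : ℝ) < q)
  obtain ⟨i, hij, hji, hst, hΛi⟩ := claim j
  have hΛj : Λ j ≤ (q : ℝ) ^ (2 * m) * (q * (2 * B' * L)) := by
    obtain ⟨t, rfl⟩ := Nat.exists_eq_add_of_le hij
    have h1 : Λ (i + t) = (q : ℝ) ^ t * Λ i := by
      simp only [hΛ]
      rw [hst (i + t) (by omega) le_rfl, pow_add]
      ring
    rw [h1]
    have h2 : (q : ℝ) ^ t ≤ (q : ℝ) ^ (2 * m) := pow_le_pow_right₀ (by linarith) (by omega)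
    have := hΛpos i
    gcongr
  have h1 : (q : ℝ) ^ j ≤ D 0 * Λ j := by
    simp only [hΛ]
    rw [mul_div_cancel₀ _ (hD 0).ne']
    have : (0 : ℝ) < (q : ℝ) ^ j := by positivity
    nlinarith [hD1 j]
  have h2 : (D 0 : ℝ) * Λ j ≤ D 0 * ((q : ℝ) ^ (2 * m) * (q * (2 * B' * L))) :=
    mul_le_mul_of_nonneg_left hΛj (hD 0).le
  linarith

/-- choice of the length of the run -/
lemma choose_m {A : ℝ} (hA : 0 < A) {n : ℕ} (hn : 1 ≤ n) :
    ∃ m : ℕ, 1 ≤ m ∧ A * (2 + Real.log m + Real.log n) < ((m : ℝ) + 1) * (m - 1) / 2 ∧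
      (m : ℝ) ≤ (2 * A + 3) * Real.sqrt (1 + Real.log n) + 1 := by
  have hn' : (1 : ℝ) ≤ n := by exact_mod_cast hn
  have hl : 0 ≤ Real.log n := Real.log_nonneg hn'
  set s := Real.sqrt (1 + Real.log n) with hs
  have hs1 : 1 ≤ s := by
    rw [hs, Real.one_le_sqrt]
    linarith
  have hs2 : s ^ 2 = 1 + Real.log n := Real.sq_sqrt (by linarith)
  set m := ⌈(2 * A + 3) * s⌉₊ with hm
  have h1 : (2 * A + 3) * s ≤ m := Nat.le_ceil _
  have h2 : (m : ℝ) < (2 * A + 3) * s + 1 := Nat.ceil_lt_add_one (by positivity)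
  have hm3 : (3 : ℝ) ≤ m := by nlinarith
  refine ⟨m, by exact_mod_cast (by linarith : (1 : ℝ) ≤ m), ?_, h2.le⟩
  have h3 : Real.log m ≤ m - 1 := Real.log_le_sub_one_of_pos (by linarith)
  have h4 : A * (2 + Real.log m + Real.log n) ≤ A * (m + s ^ 2) := by
    rw [hs2]
    apply mul_le_mul_of_nonneg_left _ hA.le
    linarith
  have h5 : 3 * s ≤ (m : ℝ) - 2 * A := by nlinarith
  have h6 : (2 * A + 3) * s * (3 * s) ≤ m * ((m : ℝ) - 2 * A) := by
    apply mul_le_mul h1 h5 (by positivity) (by linarith)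
  nlinarith

end

end Pool.Agent.H420R3
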