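import Mathlib

/-!
The growth function of the depth.
-/

set_option autoImplicit false

namespace Pool.Agent.H420R3

noncomputable section

/-- growth of the depth in one step -/
def gq (q : ℕ) (t : ℝ) : ℝ := min (q * t) (t + 1)

lemma gq_mono (q : ℕ) : Monotone (gq q) := by
  intro a b h
  unfold gq
  exact min_le_min (mul_le_mul_of_nonneg_left h (by positivity)) (by linarith)

lemma gq_iter_mono (q j : ℕ) : Monotone (gq q)^[j] := (gq_mono q).iterate j

lemma gq_nonneg (q : ℕ) {t : ℝ} (ht : 0 ≤ t) : 0 ≤ gq q t :=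
  le_min (by positivity) (by positivity)

lemma gq_iter_nonneg (q : ℕ) {t : ℝ} (ht : 0 ≤ t) (j : ℕ) : 0 ≤ (gq q)^[j] t := by
  induction j with
  | zero => exact ht
  | succ j ih =>
    rw [Function.iterate_succ_apply']
    exact gq_nonneg q ih

lemma le_gq {q : ℕ} (hq : 2 ≤ q) {t : ℝ} (ht : 0 ≤ t) : t ≤ gq q t := by
  have : (2 : ℝ) ≤ q := by exact_mod_cast hq
  exact le_min (by nlinarith) (by linarith)

lemma le_gq_iter {q : ℕ} (hq : 2 ≤ q) {t : ℝ} (ht : 0 ≤ t) (a b : ℕ) (hab : a ≤ b) :
    (gq q)^[a] t ≤ (gq q)^[b] t := by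
  obtain ⟨c, rfl⟩ := Nat.exists_eq_add_of_le hab
  induction c with
  | zero => exact le_rfl
  | succ c ih =>
    refine (ih (by omega)).trans ?_
    rw [← add_assoc, Function.iterate_succ_apply']
    exact le_gq hq (gq_iter_nonneg q ht _)

lemma gq_iter_min {q : ℕ} (hq : 2 ≤ q) {t : ℝ} (ht : 0 ≤ t) (j : ℕ) :
    min ((q : ℝ) ^ j * t) 1 ≤ (gq q)^[j] t := by
  have hq' : (2 : ℝ) ≤ q := by exact_mod_cast hq
  induction j with
  | zero => simp
  | succ j ih =>
    rw [Function.iterate_succ_apply']
    have h0 := gq_iter_nonneg q ht j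
    set y := (gq q)^[j] t
    have hx : 0 ≤ (q : ℝ) ^ j * t := by positivity
    refine le_min ?_ ((min_le_right _ _).trans (by linarith))
    rcases le_total ((q : ℝ) ^ j * t) 1 with h | h
    · rw [min_eq_left h] at ih
      refine (min_le_left _ _).trans ?_
      rw [pow_succ']
      nlinarith
    · rw [min_eq_right h] at ih
      refine (min_le_right _ _).trans ?_
      nlinarith

lemma gq_iter_log {q : ℕ} (hq : 2 ≤ q) {t : ℝ} (ht : 0 < t) (j : ℕ) :
    Real.log ((q : ℝ) ^ j * t) / q ≤ (gq q)^[j] t := by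
  have hq' : (2 : ℝ) ≤ q := by exact_mod_cast hq
  have hlog : ∀ x : ℝ, 0 < x → Real.log x / q ≤ x := by
    intro x hx
    rw [div_le_iff₀ (by linarith)]
    have := Real.log_le_sub_one_of_pos hx
    nlinarith
  induction j with
  | zero =>
    simp only [pow_zero, one_mul, Function.iterate_zero, id_eq]
    exact hlog t ht
  | succ j ih =>
    rw [Function.iterate_succ_apply']
    have h1 := gq_iter_min hq ht.le j
    set y := (gq q)^[j] t
    have hx : 0 < (q : ℝ) ^ j * t := by positivity
    have h2 : Real.log ((q : ℝ) ^ (j + 1) * t) = Real.log q + Real.log ((q : ℝ) ^ j * t) := by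
      rw [pow_succ', mul_assoc, Real.log_mul (by positivity) hx.ne']
    have h3 : Real.log q / q ≤ 1 := by
      rw [div_le_one (by linarith)]
      have := Real.log_le_sub_one_of_pos (x := (q : ℝ)) (by linarith)
      linarith
    refine le_min ?_ ?_
    · rcases le_total 1 y with hy | hy
      · rw [h2, add_div]
        nlinarith
      · rcases eq_or_lt_of_le hy with hy1 | hy1
        · rw [h2, add_div]
          nlinarith
        · have h4 : (q : ℝ) ^ j * t ≤ y := by
            rcases min_le_iff.mp h1 with h | h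
            · exact h
            · linarith
          refine (hlog _ (by positivity)).trans ?_
          rw [pow_succ', mul_assoc]
          nlinarith
    · rw [h2, add_div]
      linarith

lemma gq_iter_mul {q : ℕ} (hq : 2 ≤ q) {β : ℝ} (hβ : 1 ≤ β) (j : ℕ) :
    (j : ℝ) + 1 ≤ β * (gq q)^[j] (1 / β) := by
  have hq' : (2 : ℝ) ≤ q := by exact_mod_cast hq
  induction j with
  | zero =>
    simp only [Nat.cast_zero, zero_add, Function.iterate_zero, id_eq]
    rw [mul_one_div_cancel (by linarith)]
  | succ j ih =>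
    rw [Function.iterate_succ_apply']
    set y := (gq q)^[j] (1 / β)
    unfold gq
    rw [mul_min_of_nonneg _ _ (by linarith)]
    have hj : (0 : ℝ) ≤ j := by positivity
    push_cast
    refine le_min ?_ ?_
    · nlinarith
    · nlinarith

end

end Pool.Agent.H420R3
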