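import Mathlib

/-!
Inertia and Frobenius in a Galois extension of number fields.
-/

set_option autoImplicit false

namespace Pool.Agent.H420R3

open NumberField Module
open scoped Pointwise

noncomputable section

lemma map_le_pow_ramificationIdx {R S : Type*} [CommRing R] [IsDedekindDomain R] [CommRing S]
    [IsDedekindDomain S] [Algebra R S] [Algebra.IsIntegral R S] [Module.IsTorsionFree R S]
    {p : Ideal R} [p.IsMaximal] (hp : p ≠ ⊥) (Q : Ideal S) [Q.IsPrime] [Q.LiesOver p] :
    p.map (algebraMap R S) ≤ Q ^ Q.ramificationIdx R := by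
  classical
  have h := Ideal.map_algebraMap_eq_finsetProd_pow (R := S) (S := R) (p := p) hp
  rw [h]
  apply Ideal.le_of_dvd
  refine Finset.dvd_prod_of_mem (fun P : Ideal S => P ^ P.ramificationIdx R) ?_
  rw [Set.mem_toFinset]
  exact ⟨inferInstance, inferInstance⟩

variable {K M : Type*} [Field K] [NumberField K] [Field M] [NumberField M] [Algebra K M]
  [IsGalois K M]

/-- an integer fixed by a subgroup `H` of the inertia group of `Q` that lies in `Q` lies in
`Q ^ |H|` -/
lemma mem_pow_card (Q : Ideal (𝓞 M)) [hQm : Q.IsMaximal] (hQ : Q ≠ ⊥) (H : Subgroup Gal(M/K))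
    (hH : H ≤ Q.inertia Gal(M/K)) {a : 𝓞 M} (ha : ∀ h ∈ H, h • a = a) (haQ : a ∈ Q) :
    a ∈ Q ^ Nat.card H := by
  let E : IntermediateField K M := FixedPoints.intermediateField H
  have hnE : NumberField E := inferInstance
  have hg : IsGaloisGroup H E M := inferInstance
  have hgi : IsGaloisGroup H (𝓞 E) (𝓞 M) := IsGaloisGroup.of_isFractionRing H (𝓞 E) (𝓞 M) E M
  let q : Ideal (𝓞 E) := Q.under (𝓞 E)
  have hlo : Q.LiesOver q := ⟨rfl⟩
  have hqm : q.IsMaximal := inferInstance
  have h1 : Nat.card (Q.inertia H) = q.ramificationIdxIn (𝓞 M) :=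
    Ideal.card_inertia_eq_ramificationIdxIn (G := H) q Q
  have h2 : q.ramificationIdxIn (𝓞 M) = Q.ramificationIdx (𝓞 E) :=
    Ideal.ramificationIdxIn_eq_ramificationIdx q Q H
  have h3 : Nat.card (Q.inertia H) = Nat.card H := by
    have : Q.inertia H = ⊤ := by
      rw [eq_top_iff]
      intro h _
      rw [AddSubgroup.mem_inertia]
      intro x
      exact (AddSubgroup.mem_inertia.mp (hH h.2)) x
    rw [this]
    exact Subgroup.card_top
  obtain ⟨b, hb⟩ : ∃ b : 𝓞 E, algebraMap (𝓞 E) (𝓞 M) b = a := by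
    apply (Algebra.IsInvariant.isInvariant (A := 𝓞 E) (B := 𝓞 M) (G := H)) a
    intro h
    exact ha h h.2
  have hbq : b ∈ q := by
    rw [Ideal.mem_comap, hb]
    exact haQ
  have hq0 : q ≠ ⊥ := by
    intro h
    exact hQ (Ideal.eq_bot_of_comap_eq_bot (R := 𝓞 E) h)
  rw [← h3, h1, h2, ← hb]
  exact map_le_pow_ramificationIdx hq0 Q (Ideal.mem_map_of_mem _ hbq)

end

end Pool.Agent.H420R3
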