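import Mathlib
import Pool.Agent.H420R3.Gal

/-!
Finite places of a Galois extension of number fields.
-/

set_option autoImplicit false
set_option linter.unusedSectionVars false

namespace Pool.Agent.H420R3

open NumberField Module IsDedekindDomain
open scoped Pointwise

noncomputable section

variable {M : Type*} [Field M] [NumberField M]

/-- the maximal ideal of a finite place -/
abbrev mi (v : FinitePlace M) : Ideal (𝓞 M) := v.maximalIdeal.asIdeal

instance (v : FinitePlace M) : (mi v).IsMaximal := v.maximalIdeal.isMaximal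

lemma mi_ne_bot (v : FinitePlace M) : mi v ≠ ⊥ := v.maximalIdeal.ne_bot

/-- the norm of the maximal ideal of a finite place -/
def nv (v : FinitePlace M) : ℝ := (mi v).absNorm

lemma one_lt_nv (v : FinitePlace M) : 1 < nv v := by
  have := HeightOneSpectrum.one_lt_absNorm v.maximalIdeal
  unfold nv
  exact_mod_cast this

lemma nv_pos (v : FinitePlace M) : 0 < nv v := by linarith [one_lt_nv v]

lemma log_nv_pos (v : FinitePlace M) : 0 < Real.log (nv v) := Real.log_pos (one_lt_nv v)

lemma v_eq (v : FinitePlace M) {a : 𝓞 M} (ha : a ≠ 0) :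
    v (a : M) = (nv v ^ (multiplicity (mi v) (Ideal.span {a})))⁻¹ := by
  have h := FinitePlace.apply_mul_absNorm_pow_eq_one v ha
  have h0 : (0 : ℝ) < nv v ^ (multiplicity (mi v) (Ideal.span {a})) := by
    have := nv_pos v
    positivity
  exact eq_inv_of_mul_eq_one_left h

lemma finMult (v : FinitePlace M) {a : 𝓞 M} (ha : a ≠ 0) :
    FiniteMultiplicity (mi v) (Ideal.span {a}) := by
  apply FiniteMultiplicity.of_not_isUnit
  · intro h
    have h1 := Ideal.isUnit_iff.mp h
    exact (mi v).ne_top_iff_one.mp (Ideal.IsMaximal.ne_top inferInstance)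
      (by rw [h1]; exact Submodule.mem_top)
  · intro h
    exact ha (Ideal.span_singleton_eq_bot.mp h)

lemma v_le_iff (v : FinitePlace M) (a : 𝓞 M) (k : ℕ) :
    v (a : M) ≤ (nv v ^ k)⁻¹ ↔ a ∈ mi v ^ k := by
  rcases eq_or_ne a 0 with rfl | ha
  · have := nv_pos v
    simp only [map_zero, Submodule.zero_mem, iff_true]
    positivity
  · rw [v_eq v ha]
    have h1 := one_lt_nv v
    have h2 := nv_pos v
    rw [inv_le_inv₀ (by positivity) (by positivity), pow_le_pow_iff_right₀ h1,
      ← (finMult v ha).pow_dvd_iff_le_multiplicity, Ideal.dvd_span_singleton]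

lemma v_le_one (v : FinitePlace M) (a : 𝓞 M) : v (a : M) ≤ 1 := by
  have := v_le_iff v a 0
  simpa using this

lemma v_lt_one_iff (v : FinitePlace M) (a : 𝓞 M) : v (a : M) < 1 ↔ a ∈ mi v := by
  constructor
  · intro h
    by_contra hn
    rcases eq_or_ne a 0 with rfl | ha
    · exact hn (Submodule.zero_mem _)
    · have h1 : multiplicity (mi v) (Ideal.span {a}) = 0 := by
        by_contra h0
        apply hn
        have h2 : mi v ^ 1 ∣ Ideal.span {a} :=
          (finMult v ha).pow_dvd_iff_le_multiplicity.mpr (by omega)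
        rw [pow_one, Ideal.dvd_span_singleton] at h2
        exact h2
      rw [v_eq v ha, h1] at h
      norm_num at h
  · intro h
    have h1 := (v_le_iff v a 1).mpr (by rwa [pow_one])
    refine lt_of_le_of_lt h1 ?_
    rw [pow_one]
    exact inv_lt_one_of_one_lt₀ (one_lt_nv v)

/-- a `v`-integral element is a fraction with denominator outside the maximal ideal -/
lemma exists_frac (v : FinitePlace M) {y : M} (hy : v y ≤ 1) :
    ∃ a c : 𝓞 M, c ∉ mi v ∧ y = (a : M) / (c : M) := by
  obtain ⟨a, b, hb, hab⟩ := IsFractionRing.div_surjective (A := 𝓞 M) y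
  have hb0 : b ≠ 0 := nonZeroDivisors.ne_zero hb
  have hb0' : (b : M) ≠ 0 := RingOfIntegers.coe_ne_zero_iff.mpr hb0
  obtain ⟨I, hI, hI'⟩ := (finMult v hb0).exists_eq_pow_mul_and_not_dvd
  obtain ⟨d, hd, hd'⟩ : ∃ d ∈ I, d ∉ mi v := by
    by_contra hcon
    push Not at hcon
    exact hI' (Ideal.dvd_iff_le.mpr hcon)
  set n := multiplicity (mi v) (Ideal.span {b}) with hn
  have ha : a ∈ mi v ^ n := by
    rw [← v_le_iff]
    have h1 : v (a : M) = v y * v (b : M) := by
      rw [← map_mul, ← hab]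
      congr 1
      exact (div_mul_cancel₀ _ hb0').symm
    rw [h1, ← v_eq v hb0]
    calc v y * v (b : M) ≤ 1 * v (b : M) := by gcongr
      _ = v (b : M) := one_mul _
  have h1 : a * d ∈ Ideal.span {b} := by
    rw [hI]
    exact Ideal.mul_mem_mul ha hd
  obtain ⟨a', ha'⟩ := Ideal.mem_span_singleton.mp h1
  refine ⟨a', d, hd', ?_⟩
  have hd0 : (d : M) ≠ 0 := by
    rw [RingOfIntegers.coe_ne_zero_iff]
    rintro rfl
    exact hd' (Submodule.zero_mem _)
  rw [← hab, div_eq_div_iff hb0' hd0]
  have h2 : ((a * d : 𝓞 M) : M) = ((b * a' : 𝓞 M) : M) := by rw [ha']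
  rw [show (algebraMap (𝓞 M) M) a = (a : M) from rfl]
  push_cast at h2
  rw [h2, mul_comm]

variable {K : Type*} [Field K] [NumberField K] [Algebra K M]

lemma coe_smul (σ : Gal(M/K)) (a : 𝓞 M) : ((σ • a : 𝓞 M) : M) = σ (a : M) := rfl

/-- invariance of the place under its decomposition group -/
lemma v_smul_int (v : FinitePlace M) {σ : Gal(M/K)} (hσ : σ • mi v = mi v) (a : 𝓞 M) :
    v (σ (a : M)) = v (a : M) := by
  have key : ∀ (τ : Gal(M/K)), τ • mi v = mi v → ∀ b : 𝓞 M, v (τ (b : M)) ≤ v (b : M) := by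
    intro τ hτ b
    rcases eq_or_ne b 0 with rfl | hb
    · simp
    · rw [v_eq v hb, ← coe_smul, v_le_iff]
      have h1 : b ∈ mi v ^ (multiplicity (mi v) (Ideal.span {b})) := by
        rw [← v_le_iff, ← v_eq v hb]
      have h2 : τ • b ∈ τ • (mi v ^ (multiplicity (mi v) (Ideal.span {b}))) :=
        Ideal.smul_mem_pointwise_smul_iff.mpr h1
      have h3 : τ • (mi v ^ (multiplicity (mi v) (Ideal.span {b}))) =
          (τ • mi v) ^ (multiplicity (mi v) (Ideal.span {b})) := by
        exact smul_pow' _ _ _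
      rwa [h3, hτ] at h2
  apply le_antisymm (key σ hσ a)
  have h1 : σ⁻¹ • mi v = mi v := by
    rw [inv_smul_eq_iff, hσ]
  have h2 := key σ⁻¹ h1 (σ • a)
  rw [coe_smul] at h2
  have h3 : (σ⁻¹ : Gal(M/K)) (σ (a : M)) = (a : M) := by
    rw [← AlgEquiv.mul_apply, inv_mul_cancel]
    rfl
  rwa [h3] at h2

lemma v_smul (v : FinitePlace M) {σ : Gal(M/K)} (hσ : σ • mi v = mi v) (y : M) :
    v (σ y) = v y := by
  obtain ⟨a, b, hb, hab⟩ := IsFractionRing.div_surjective (A := 𝓞 M) y
  rw [← hab, map_div₀, map_div₀, map_div₀]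
  rw [show (algebraMap (𝓞 M) M) a = (a : M) from rfl,
    show (algebraMap (𝓞 M) M) b = (b : M) from rfl, v_smul_int v hσ, v_smul_int v hσ]

lemma inertia_smul (v : FinitePlace M) {σ : Gal(M/K)} (hσ : σ ∈ (mi v).inertia Gal(M/K)) :
    σ • mi v = mi v := Ideal.inertia_le_stabilizer (M := Gal(M/K)) (mi v) hσ

variable [IsGalois K M]

/-- elements of the fixed field of a subgroup of the inertia group -/
lemma v_fixed_le (v : FinitePlace M) (H : Subgroup Gal(M/K)) (hH : H ≤ (mi v).inertia Gal(M/K))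
    {y : M} (hy : ∀ h ∈ H, h y = y) (hy1 : v y < 1) : v y ≤ (nv v ^ (Nat.card H))⁻¹ := by
  classical
  obtain ⟨a, c, hc, hac⟩ := exists_frac v hy1.le
  have hc0 : c ≠ 0 := by
    rintro rfl
    exact hc (Submodule.zero_mem _)
  have hfin : Finite H := inferInstance
  let := Fintype.ofFinite H
  -- the norm of `c`
  set c' : 𝓞 M := ∏ h : H, (h : Gal(M/K)) • c with hc'
  have hc'm : c' ∉ mi v := by
    rw [hc', Ideal.IsPrime.prod_mem_iff]
    push Not
    intro h _ hmem
    have h1 := AddSubgroup.mem_inertia.mp (hH h.2) c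
    apply hc
    have h2 := (mi v).sub_mem hmem h1
    rwa [sub_sub_cancel] at h2
  have hc'f : ∀ h ∈ H, h • c' = c' := by
    intro h hh
    rw [hc', Finset.smul_prod']
    have h1 : ∀ g : H, h • (g : Gal(M/K)) • c = ((⟨h, hh⟩ * g : H) : Gal(M/K)) • c := by
      intro g
      rw [smul_smul]
      rfl
    rw [Finset.prod_congr rfl fun g _ => h1 g]
    exact Fintype.prod_equiv (Equiv.mulLeft (⟨h, hh⟩ : H)) _ _ (fun g => rfl)
  have hc'0 : (c' : M) ≠ 0 := by
    rw [RingOfIntegers.coe_ne_zero_iff]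
    intro h
    rw [h] at hc'm
    exact hc'm (Submodule.zero_mem _)
  -- the numerator
  obtain ⟨d, hd⟩ : c ∣ c' := by
    rw [hc']
    have := Finset.dvd_prod_of_mem (fun h : H => (h : Gal(M/K)) • c) (Finset.mem_univ (1 : H))
    simpa using this
  set a' : 𝓞 M := a * d with ha'
  have hya' : (a' : M) = y * (c' : M) := by
    have hc0' : (c : M) ≠ 0 := RingOfIntegers.coe_ne_zero_iff.mpr hc0
    rw [ha', hd, hac]
    push_cast
    field_simp
  have ha'f : ∀ h ∈ H, h • a' = a' := by
    intro h hh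
    apply RingOfIntegers.coe_injective
    change ((h • a' : 𝓞 M) : M) = (a' : M)
    rw [coe_smul, hya', map_mul, hy h hh]
    have := hc'f h hh
    rw [← coe_smul, this]
  have hvc' : v (c' : M) = 1 := by
    apply le_antisymm (v_le_one v c')
    by_contra h
    push Not at h
    exact hc'm ((v_lt_one_iff v c').mp h)
  have hva' : v (a' : M) = v y := by
    rw [hya', map_mul, hvc', mul_one]
  have ha'm : a' ∈ mi v := by
    rw [← v_lt_one_iff, hva']
    exact hy1
  have h1 := mem_pow_card (mi v) (mi_ne_bot v) H hH ha'f ha'm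
  rw [← hva', v_le_iff]
  exact h1

end

end Pool.Agent.H420R3
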