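import Mathlib
import Pool.Agent.H420R3.Place

/-!
Chordal distance at a finite place and its behaviour under a map with inseparable reduction.
-/

set_option autoImplicit false
set_option linter.unusedSectionVars false

namespace Pool.Agent.H420R3

open NumberField Module MvPolynomial

noncomputable section

/-- wedge of two vectors -/
def wdg {R : Type*} [CommRing R] (z w : Fin 2 → R) : R := z 0 * w 1 - z 1 * w 0

section Wedge

variable {R : Type*} [CommRing R]

lemma wdg_comm (z w : Fin 2 → R) : wdg w z = - wdg z w := by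
  unfold wdg
  ring

lemma wdg_self (z : Fin 2 → R) : wdg z z = 0 := by
  unfold wdg
  ring

lemma wdg_smul_left (c : R) (z w : Fin 2 → R) : wdg (c • z) w = c * wdg z w := by
  simp only [wdg, Pi.smul_apply, smul_eq_mul]
  ring

lemma wdg_smul_right (c : R) (z w : Fin 2 → R) : wdg z (c • w) = c * wdg z w := by
  simp only [wdg, Pi.smul_apply, smul_eq_mul]
  ring

lemma wdg_plucker (x y z : Fin 2 → R) (i : Fin 2) :
    wdg x z * y i = wdg x y * z i + wdg y z * x i := by
  unfold wdg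
  fin_cases i
  · simp
    ring
  · simp
    ring

end Wedge

variable {K M : Type*} [Field K] [NumberField K] [Field M] [NumberField M] [Algebra K M]

/-- the action of a pair of forms -/
def act {R S : Type*} [CommSemiring R] [CommSemiring S] [Algebra R S]
    (F : Fin 2 → MvPolynomial (Fin 2) R) (z : Fin 2 → S) : Fin 2 → S := fun i => aeval z (F i)

lemma aeval_smul_hom {R S : Type*} [CommSemiring R] [CommSemiring S] [Algebra R S]
    {p : MvPolynomial (Fin 2) R} {n : ℕ} (hp : p.IsHomogeneous n) (c : S) (z : Fin 2 → S) :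
    aeval (c • z) p = c ^ n * aeval z p := by
  rw [p.as_sum, map_sum, map_sum, Finset.mul_sum]
  refine Finset.sum_congr rfl fun m hm => ?_
  have h1 : m 0 + m 1 = n := by
    have := hp (mem_support_iff.mp hm)
    rw [Finsupp.weight_apply, Finsupp.sum_fintype _ _ (by simp), Fin.sum_univ_two] at this
    simpa using this
  rw [aeval_monomial, aeval_monomial, Finsupp.prod_fintype _ _ (by simp),
    Finsupp.prod_fintype _ _ (by simp), Fin.prod_univ_two, Fin.prod_univ_two]
  simp only [Pi.smul_apply, smul_eq_mul, mul_pow]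
  rw [← h1, pow_add]
  ring

lemma act_smul {R S : Type*} [CommSemiring R] [CommSemiring S] [Algebra R S]
    {F : Fin 2 → MvPolynomial (Fin 2) R} {n : ℕ} (hF : ∀ i, (F i).IsHomogeneous n) (c : S)
    (z : Fin 2 → S) : act F (c • z) = c ^ n • act F z := by
  funext i
  simp only [act, Pi.smul_apply, smul_eq_mul]
  exact aeval_smul_hom (hF i) c z

section Local

variable (v : FinitePlace M)

lemma v_neg (x : M) : v (-x) = v x := by
  rw [← FinitePlace.norm_embedding_eq, ← FinitePlace.norm_embedding_eq, map_neg, norm_neg]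

lemma v_sub_le (x y : M) : v (x - y) ≤ max (v x) (v y) := by
  rw [sub_eq_add_neg, ← v_neg v y]
  exact FinitePlace.add_le v _ _

lemma v_sum_le {ι : Type*} (s : Finset ι) (g : ι → M) {B : ℝ} (hB : 0 ≤ B)
    (h : ∀ i ∈ s, v (g i) ≤ B) : v (∑ i ∈ s, g i) ≤ B := by
  classical
  induction s using Finset.induction_on with
  | empty => simpa using hB
  | insert a s ha ih =>
    rw [Finset.sum_insert ha]
    refine (FinitePlace.add_le v _ _).trans (max_le (h a (Finset.mem_insert_self _ _)) ?_)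
    exact ih fun i hi => h i (Finset.mem_insert_of_mem hi)

lemma v_nonneg (x : M) : 0 ≤ v x := by positivity

/-- if `v (x - y) < v x` then `v y = v x` -/
lemma v_eq_of_sub_lt {x y : M} (h : v (x - y) < v x) : v y = v x := by
  apply le_antisymm
  · have h1 : y = x - (x - y) := by ring
    rw [h1]
    exact (v_sub_le v _ _).trans (max_le le_rfl h.le)
  · have h1 : x = (x - y) + y := by ring
    have h2 : v x ≤ max (v (x - y)) (v y) := by
      conv_lhs => rw [h1]
      exact FinitePlace.add_le v _ _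
    rcases le_max_iff.mp h2 with h3 | h3
    · linarith
    · exact h3

lemma coeff_le_one (a : 𝓞 K) : v (algebraMap (𝓞 K) M a) ≤ 1 :=
  v_le_one v (algebraMap (𝓞 K) (𝓞 M) a)

/-- sup norm of a vector -/
def nm (z : Fin 2 → M) : ℝ := max (v (z 0)) (v (z 1))

lemma le_nm (z : Fin 2 → M) (i : Fin 2) : v (z i) ≤ nm v z := by
  unfold nm
  fin_cases i
  · exact le_max_left _ _
  · exact le_max_right _ _

lemma nm_le {z : Fin 2 → M} {B : ℝ} (h : ∀ i, v (z i) ≤ B) : nm v z ≤ B := max_le (h 0) (h 1)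

lemma nm_nonneg (z : Fin 2 → M) : 0 ≤ nm v z := (v_nonneg v _).trans (le_nm v z 0)

lemma exists_nm (z : Fin 2 → M) : ∃ i, v (z i) = nm v z := by
  unfold nm
  rcases le_total (v (z 0)) (v (z 1)) with h | h
  · exact ⟨1, (max_eq_right h).symm⟩
  · exact ⟨0, (max_eq_left h).symm⟩

lemma nm_pos {z : Fin 2 → M} (hz : z ≠ 0) : 0 < nm v z := by
  obtain ⟨i, hi⟩ : ∃ i, z i ≠ 0 := Function.ne_iff.mp hz
  have h1 : 0 < v (z i) := lt_of_le_of_ne (v_nonneg v _) (Ne.symm (by simpa using hi))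
  exact lt_of_lt_of_le h1 (le_nm v z i)

lemma nm_smul (c : M) (z : Fin 2 → M) : nm v (c • z) = v c * nm v z := by
  unfold nm
  simp only [Pi.smul_apply, smul_eq_mul, map_mul]
  rw [mul_max_of_nonneg _ _ (v_nonneg v c)]

lemma v_wdg_le (z w : Fin 2 → M) : v (wdg z w) ≤ nm v z * nm v w := by
  unfold wdg
  refine (v_sub_le v _ _).trans (max_le ?_ ?_)
  · rw [map_mul]
    exact mul_le_mul (le_nm v z 0) (le_nm v w 1) (v_nonneg v _) (nm_nonneg v _)
  · rw [map_mul]
    exact mul_le_mul (le_nm v z 1) (le_nm v w 0) (v_nonneg v _) (nm_nonneg v _)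

/-- chordal distance -/
def dd (z w : Fin 2 → M) : ℝ := v (wdg z w) / (nm v z * nm v w)

lemma dd_nonneg (z w : Fin 2 → M) : 0 ≤ dd v z w :=
  div_nonneg (v_nonneg v _) (mul_nonneg (nm_nonneg v _) (nm_nonneg v _))

lemma dd_le_one (z w : Fin 2 → M) : dd v z w ≤ 1 := by
  unfold dd
  exact div_le_one_of_le₀ (v_wdg_le v z w) (mul_nonneg (nm_nonneg v _) (nm_nonneg v _))

lemma dd_comm (z w : Fin 2 → M) : dd v z w = dd v w z := by
  unfold dd
  rw [wdg_comm w z, v_neg, mul_comm]

lemma dd_self (z : Fin 2 → M) : dd v z z = 0 := by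
  unfold dd
  rw [wdg_self]
  simp

lemma dd_smul_left {c : M} (hc : c ≠ 0) (z w : Fin 2 → M) : dd v (c • z) w = dd v z w := by
  unfold dd
  rw [wdg_smul_left, nm_smul, map_mul]
  have : v c ≠ 0 := by simpa using hc
  rw [mul_assoc, mul_div_mul_left _ _ this]

lemma dd_smul_right {c : M} (hc : c ≠ 0) (z w : Fin 2 → M) : dd v z (c • w) = dd v z w := by
  rw [dd_comm, dd_smul_left v hc, dd_comm]

lemma dd_eq_zero_iff {z w : Fin 2 → M} (hz : z ≠ 0) (hw : w ≠ 0) :
    dd v z w = 0 ↔ wdg z w = 0 := by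
  unfold dd
  rw [div_eq_zero_iff]
  constructor
  · rintro (h | h)
    · simpa using h
    · exact absurd h (mul_pos (nm_pos v hz) (nm_pos v hw)).ne'
  · intro h
    left
    rw [h, map_zero]

/-- ultrametric inequality -/
lemma dd_ultra {x y z : Fin 2 → M} (hy : y ≠ 0) :
    dd v x z ≤ max (dd v x y) (dd v y z) := by
  by_cases hx : x = 0
  · subst hx
    refine le_trans (le_of_eq ?_) (le_max_left _ _)
    simp [dd, nm]
  by_cases hz : z = 0
  · subst hz
    refine le_trans (le_of_eq ?_) (le_max_right _ _)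
    simp [dd, nm]
  have h1 := nm_pos v hx
  have h2 := nm_pos v hy
  have h3 := nm_pos v hz
  obtain ⟨i, hi⟩ := exists_nm v y
  have h4 : v (wdg x z) * nm v y ≤ max (v (wdg x y) * nm v z) (v (wdg y z) * nm v x) := by
    rw [← hi, ← map_mul, wdg_plucker]
    refine (FinitePlace.add_le v _ _).trans (max_le_max ?_ ?_)
    · rw [map_mul]
      exact mul_le_mul_of_nonneg_left (le_nm v z i) (v_nonneg v _)
    · rw [map_mul]
      exact mul_le_mul_of_nonneg_left (le_nm v x i) (v_nonneg v _)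
  unfold dd
  rw [div_le_iff₀ (by positivity)]
  have h5 : max (v (wdg x y) / (nm v x * nm v y)) (v (wdg y z) / (nm v y * nm v z)) *
      (nm v x * nm v z) * nm v y = max (v (wdg x y) * nm v z) (v (wdg y z) * nm v x) := by
    rw [max_mul_of_nonneg _ _ (by positivity), max_mul_of_nonneg _ _ (by positivity)]
    congr 1
    · field_simp
    · field_simp
  refine le_of_mul_le_mul_right ?_ h2
  rw [h5]
  exact h4

end Local

section Contract

variable (v : FinitePlace M) {ρ : ℝ}

lemma v_pow_sub_pow_le {x y : M} (hx : v x ≤ 1) (hy : v y ≤ 1) (a : ℕ) :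
    v (x ^ a - y ^ a) ≤ v (x - y) := by
  induction a with
  | zero => simp
  | succ a ih =>
    have h1 : x ^ (a + 1) - y ^ (a + 1) = x ^ a * (x - y) + (x ^ a - y ^ a) * y := by ring
    rw [h1]
    refine (FinitePlace.add_le v _ _).trans (max_le ?_ ?_)
    · rw [map_mul, map_pow]
      calc v x ^ a * v (x - y) ≤ 1 * v (x - y) := by
            gcongr
            exact pow_le_one₀ (v_nonneg v x) hx
        _ = _ := one_mul _
    · rw [map_mul]
      calc v (x ^ a - y ^ a) * v y ≤ v (x - y) * 1 := by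
            gcongr
        _ = _ := mul_one _

/-- polynomials with small coefficients are small -/
lemma aeval_small {R : MvPolynomial (Fin 2) (𝓞 K)} (hρ0 : 0 ≤ ρ)
    (hR : ∀ m, v (algebraMap (𝓞 K) M (R.coeff m)) ≤ ρ) {z : Fin 2 → M} (hz : nm v z ≤ 1) :
    v (aeval z R) ≤ ρ := by
  rw [R.as_sum, map_sum]
  refine v_sum_le v _ _ hρ0 fun m _ => ?_
  rw [aeval_monomial, Finsupp.prod_fintype _ _ (by simp), Fin.prod_univ_two, map_mul, map_mul,
    map_pow, map_pow]
  have h0 := pow_le_one₀ (n := m 0) (v_nonneg v (z 0)) ((le_nm v z 0).trans hz)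
  have h1 := pow_le_one₀ (n := m 1) (v_nonneg v (z 1)) ((le_nm v z 1).trans hz)
  have h2 := hR m
  calc v (algebraMap (𝓞 K) M (R.coeff m)) * (v (z 0) ^ m 0 * v (z 1) ^ m 1) ≤ ρ * (1 * 1) := by
        gcongr
    _ = ρ := by ring

/-- Lipschitz estimate -/
lemma aeval_sub_small {R : MvPolynomial (Fin 2) (𝓞 K)} (hρ0 : 0 ≤ ρ)
    (hR : ∀ m, v (algebraMap (𝓞 K) M (R.coeff m)) ≤ ρ) {z w : Fin 2 → M} (hz : nm v z ≤ 1)
    (hw : nm v w ≤ 1) {t : ℝ} (ht : ∀ i, v (z i - w i) ≤ t) :
    v (aeval z R - aeval w R) ≤ ρ * t := by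
  have ht0 : 0 ≤ t := (v_nonneg v _).trans (ht 0)
  rw [R.as_sum, map_sum, map_sum, ← Finset.sum_sub_distrib]
  refine v_sum_le v _ _ (by positivity) fun m _ => ?_
  rw [aeval_monomial, aeval_monomial, Finsupp.prod_fintype _ _ (by simp),
    Finsupp.prod_fintype _ _ (by simp), Fin.prod_univ_two, Fin.prod_univ_two, ← mul_sub, map_mul]
  refine mul_le_mul (hR m) ?_ (v_nonneg v _) hρ0
  have h1 : z 0 ^ m 0 * z 1 ^ m 1 - w 0 ^ m 0 * w 1 ^ m 1 =
      (z 0 ^ m 0 - w 0 ^ m 0) * z 1 ^ m 1 + w 0 ^ m 0 * (z 1 ^ m 1 - w 1 ^ m 1) := by ring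
  rw [h1]
  have hz0 := (le_nm v z 0).trans hz
  have hz1 := (le_nm v z 1).trans hz
  have hw0 := (le_nm v w 0).trans hw
  have hw1 := (le_nm v w 1).trans hw
  refine (FinitePlace.add_le v _ _).trans (max_le ?_ ?_)
  · rw [map_mul, map_pow]
    calc v (z 0 ^ m 0 - w 0 ^ m 0) * v (z 1) ^ m 1 ≤ t * 1 := by
          gcongr
          · exact (v_pow_sub_pow_le v hz0 hw0 _).trans (ht 0)
          · exact pow_le_one₀ (v_nonneg v _) hz1
      _ = t := mul_one t
  · rw [map_mul, map_pow]
    calc v (w 0) ^ m 0 * v (z 1 ^ m 1 - w 1 ^ m 1) ≤ 1 * t := by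
          gcongr
          · exact pow_le_one₀ (v_nonneg v _) hw0
          · exact (v_pow_sub_pow_le v hz1 hw1 _).trans (ht 1)
      _ = t := one_mul t

/-- `x ^ q - y ^ q` is close to `(x - y) ^ q` -/
lemma v_pow_char {p r : ℕ} (hp : p.Prime) (hpρ : v (p : M) ≤ ρ) (hρ0 : 0 ≤ ρ) {x y : M}
    (hx : v x ≤ 1) (hy : v y ≤ 1) :
    v (x ^ (p ^ r) - y ^ (p ^ r) - (x - y) ^ (p ^ r)) ≤ ρ * v (x - y) := by
  set δ := x - y with hδ
  have hδ1 : v δ ≤ 1 := (v_sub_le v _ _).trans (max_le hx hy)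
  have hxy : x = δ + y := by rw [hδ]; ring
  have h0 : 0 < p ^ r := pow_pos hp.pos r
  have h1 : x ^ (p ^ r) - y ^ (p ^ r) - δ ^ (p ^ r) =
      ∑ k ∈ Finset.Ioo 0 (p ^ r), δ ^ k * y ^ (p ^ r - k) * ((p ^ r).choose k : M) := by
    rw [hxy, add_pow]
    have h2 : Finset.range (p ^ r + 1) = insert 0 (insert (p ^ r) (Finset.Ioo 0 (p ^ r))) := by
      ext k
      simp only [Finset.mem_range, Finset.mem_insert, Finset.mem_Ioo]
      omega
    rw [h2, Finset.sum_insert, Finset.sum_insert]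
    · simp
    · simp
    · simp only [Finset.mem_insert, Finset.mem_Ioo, not_or]
      omega
  rw [h1]
  refine v_sum_le v _ _ (mul_nonneg hρ0 (v_nonneg v _)) fun k hk => ?_
  rw [Finset.mem_Ioo] at hk
  obtain ⟨c, hc⟩ := hp.dvd_choose_pow (by omega : k ≠ 0) (by omega : k ≠ p ^ r)
  rw [hc]
  push_cast
  rw [map_mul, map_mul, map_mul, map_pow, map_pow]
  have h3 : v δ ^ k ≤ v δ := pow_le_of_le_one (v_nonneg v _) hδ1 (by omega)
  have h4 : v y ^ (p ^ r - k) ≤ 1 := pow_le_one₀ (v_nonneg v _) hy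
  have h5 : v (c : M) ≤ 1 := by
    have := v_le_one v (c : 𝓞 M)
    push_cast at this
    exact this
  calc v δ ^ k * v y ^ (p ^ r - k) * (v (p : M) * v (c : M)) ≤ v δ * 1 * (ρ * 1) := by
        gcongr
    _ = ρ * v δ := by ring

/-- hypothesis on the reduction of the map at a place -/
structure Red (v : FinitePlace M) (F : Fin 2 → MvPolynomial (Fin 2) (𝓞 K)) (q : ℕ) (ρ : ℝ) :
    Prop where
  hom : ∀ i, (F i).IsHomogeneous q
  pr : ∃ p r : ℕ, p.Prime ∧ q = p ^ r ∧ 1 ≤ r ∧ v (p : M) ≤ ρ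
  pos : 0 < ρ
  lt : ρ < 1
  small : ∀ i m, v (algebraMap (𝓞 K) M ((F i - X i ^ q).coeff m)) ≤ ρ

variable {F : Fin 2 → MvPolynomial (Fin 2) (𝓞 K)} {q : ℕ}

lemma act_eq (i : Fin 2) (z : Fin 2 → M) :
    act F z i = z i ^ q + aeval z (F i - X i ^ q) := by
  simp [act]

variable {v}

lemma Red.two_le (h : Red v F q ρ) : 2 ≤ q := by
  obtain ⟨p, r, hp, hq, hr, -⟩ := h.pr
  rw [hq]
  calc 2 ≤ p := hp.two_le
    _ ≤ p ^ r := Nat.le_self_pow (by omega) _

lemma Red.act_sub (h : Red v F q ρ) {z : Fin 2 → M} (hz : nm v z ≤ 1) (i : Fin 2) :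
    v (act F z i - z i ^ q) ≤ ρ := by
  rw [act_eq (q := q), add_sub_cancel_left]
  exact aeval_small v h.pos.le (h.small i) hz

lemma Red.act_le (h : Red v F q ρ) {z : Fin 2 → M} (hz : nm v z ≤ 1) (i : Fin 2) :
    v (act F z i) ≤ 1 := by
  have h1 : act F z i = (act F z i - z i ^ q) + z i ^ q := by ring
  rw [h1]
  refine (FinitePlace.add_le v _ _).trans (max_le ((h.act_sub hz i).trans h.lt.le) ?_)
  rw [map_pow]
  exact pow_le_one₀ (v_nonneg v _) ((le_nm v z i).trans hz)

lemma Red.nm_act_one (h : Red v F q ρ) {z : Fin 2 → M} (hz : nm v z = 1) :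
    nm v (act F z) = 1 := by
  apply le_antisymm (nm_le v (h.act_le hz.le))
  obtain ⟨i, hi⟩ := exists_nm v z
  refine le_trans (le_of_eq ?_) (le_nm v _ i)
  symm
  have h1 : v (z i ^ q) = 1 := by
    rw [map_pow, hi, hz, one_pow]
  rw [← h1]
  apply v_eq_of_sub_lt
  rw [h1]
  have h2 : z i ^ q - act F z i = -(act F z i - z i ^ q) := by ring
  rw [h2, v_neg]
  exact lt_of_le_of_lt (h.act_sub hz.le i) h.lt

/-- a normalised representative -/
lemma exists_rep (v : FinitePlace M) {z : Fin 2 → M} (hz : z ≠ 0) :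
    ∃ c : M, c ≠ 0 ∧ nm v (c • z) = 1 := by
  obtain ⟨i, hi⟩ := exists_nm v z
  have h1 := nm_pos v hz
  have h2 : z i ≠ 0 := by
    intro h
    rw [h, map_zero] at hi
    linarith
  refine ⟨(z i)⁻¹, inv_ne_zero h2, ?_⟩
  rw [nm_smul, map_inv₀, hi, inv_mul_cancel₀ h1.ne']

lemma Red.nm_act (h : Red v F q ρ) {z : Fin 2 → M} (hz : z ≠ 0) :
    nm v (act F z) = nm v z ^ q := by
  obtain ⟨c, hc, hc1⟩ := exists_rep v hz
  have h1 := h.nm_act_one hc1
  rw [act_smul h.hom, nm_smul, map_pow] at h1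
  rw [nm_smul] at hc1
  have h2 : v c ≠ 0 := by simpa using hc
  have h3 : (v c * nm v z) ^ q = 1 := by rw [hc1, one_pow]
  rw [mul_pow, ← h1] at h3
  exact (mul_left_cancel₀ (pow_ne_zero _ h2) h3).symm

lemma Red.act_ne_zero (h : Red v F q ρ) {z : Fin 2 → M} (hz : z ≠ 0) : act F z ≠ 0 := by
  intro h0
  have h1 := h.nm_act hz
  rw [h0] at h1
  have h2 : nm v (0 : Fin 2 → M) = 0 := by simp [nm]
  rw [h2] at h1
  exact (pow_pos (nm_pos v hz) q).ne h1

/-- Frobenius is injective on the reduction -/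
lemma Red.dd_one (h : Red v F q ρ) {z w : Fin 2 → M} (hz : z ≠ 0) (hw : w ≠ 0)
    (h1 : dd v z w = 1) : dd v (act F z) (act F w) = 1 := by
  obtain ⟨c, hc, hc1⟩ := exists_rep v hz
  obtain ⟨d, hd, hd1⟩ := exists_rep v hw
  have e1 : dd v (act F z) (act F w) = dd v (act F (c • z)) (act F (d • w)) := by
    rw [act_smul h.hom, act_smul h.hom, dd_smul_left v (pow_ne_zero _ hc),
      dd_smul_right v (pow_ne_zero _ hd)]
  rw [e1]
  have e2 : dd v (c • z) (d • w) = 1 := by
    rw [dd_smul_left v hc, dd_smul_right v hd, h1]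
  set x := c • z with hx
  set y := d • w with hy
  unfold dd
  unfold dd at e2
  rw [hc1, hd1, mul_one, div_one] at e2
  rw [h.nm_act_one hc1, h.nm_act_one hd1, mul_one, div_one]
  obtain ⟨p, r, hp, hq, hr, hpρ⟩ := h.pr
  have hx1 : ∀ i, v (x i) ≤ 1 := fun i => (le_nm v x i).trans hc1.le
  have hy1 : ∀ i, v (y i) ≤ 1 := fun i => (le_nm v y i).trans hd1.le
  have hA : v (x 0 * y 1) ≤ 1 := by
    rw [map_mul]; exact mul_le_one₀ (hx1 0) (v_nonneg v _) (hy1 1)
  have hB : v (x 1 * y 0) ≤ 1 := by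
    rw [map_mul]; exact mul_le_one₀ (hx1 1) (v_nonneg v _) (hy1 0)
  have h2 := v_pow_char v (r := r) hp hpρ h.pos.le hA hB
  rw [← hq] at h2
  have h3 : v ((x 0 * y 1) ^ q - (x 1 * y 0) ^ q - (wdg x y) ^ q) ≤ ρ := by
    refine h2.trans ?_
    calc ρ * v (x 0 * y 1 - x 1 * y 0) ≤ ρ * 1 := by
          gcongr
          · exact h.pos.le
          · exact (v_sub_le v _ _).trans (max_le hA hB)
      _ = ρ := mul_one ρ
  have h4 : v ((wdg x y) ^ q) = 1 := by rw [map_pow, e2, one_pow]
  have hm : ∀ i j, v (act F x i * act F y j - x i ^ q * y j ^ q) ≤ ρ := by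
    intro i j
    have h5 : act F x i * act F y j - x i ^ q * y j ^ q =
        (act F x i - x i ^ q) * act F y j + x i ^ q * (act F y j - y j ^ q) := by ring
    rw [h5]
    refine (FinitePlace.add_le v _ _).trans (max_le ?_ ?_)
    · rw [map_mul]
      calc v (act F x i - x i ^ q) * v (act F y j) ≤ ρ * 1 := by
            gcongr
            · exact h.pos.le
            · exact h.act_sub hc1.le i
            · exact h.act_le hd1.le j
        _ = ρ := mul_one ρ
    · rw [map_mul, map_pow]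
      calc v (x i) ^ q * v (act F y j - y j ^ q) ≤ 1 * ρ := by
            gcongr
            · exact pow_le_one₀ (v_nonneg v _) (hx1 i)
            · exact h.act_sub hd1.le j
        _ = ρ := one_mul ρ
  rw [← h4]
  apply v_eq_of_sub_lt
  rw [h4]
  have h6 : wdg x y ^ q - wdg (act F x) (act F y) =
      -(((act F x 0 * act F y 1 - x 0 ^ q * y 1 ^ q) -
        (act F x 1 * act F y 0 - x 1 ^ q * y 0 ^ q)) +
        ((x 0 * y 1) ^ q - (x 1 * y 0) ^ q - (wdg x y) ^ q)) := by
    unfold wdg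
    ring
  rw [h6, v_neg]
  refine lt_of_le_of_lt ?_ h.lt
  refine (FinitePlace.add_le v _ _).trans (max_le ?_ h3)
  exact (v_sub_le v _ _).trans (max_le (hm 0 1) (hm 1 0))

lemma Red.wdg_aux {A B A' B' : M} {t : ℝ} (ht : 0 ≤ t) (hA : v (A - A') ≤ t)
    (hB : v (B - B') ≤ t) (hA' : v A' ≤ 1) (hB' : v B' ≤ 1) : v (A * B' - B * A') ≤ t := by
  have h1 : A * B' - B * A' = (A - A') * B' - (B - B') * A' := by ring
  rw [h1]
  refine (v_sub_le v _ _).trans (max_le ?_ ?_)
  · rw [map_mul]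
    calc v (A - A') * v B' ≤ t * 1 := by gcongr
      _ = t := mul_one t
  · rw [map_mul]
    calc v (B - B') * v A' ≤ t * 1 := by gcongr
      _ = t := mul_one t

/-- the contraction property -/
lemma Red.contract (h : Red v F q ρ) {z w : Fin 2 → M} (hz : z ≠ 0) (hw : w ≠ 0) :
    dd v (act F z) (act F w) ≤ max (ρ * dd v z w) (dd v z w ^ q) := by
  rcases eq_or_lt_of_le (dd_le_one v z w) with h1 | h1
  · rw [h1, one_pow]
    exact (dd_le_one v _ _).trans (le_max_right _ _)
  obtain ⟨p, r, hp, hq, hr, hpρ⟩ := h.pr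
  have hzp := nm_pos v hz
  have hwp := nm_pos v hw
  -- common index
  obtain ⟨j, hj, hj'⟩ : ∃ j, v (z j) = nm v z ∧ v (w j) = nm v w := by
    obtain ⟨j, hj⟩ := exists_nm v z
    refine ⟨j, hj, ?_⟩
    by_contra hne
    have hlt : v (w j) < nm v w := lt_of_le_of_ne (le_nm v w j) hne
    have h2 : v (wdg z w) = nm v z * nm v w := by
      obtain ⟨i, hi⟩ := exists_nm v w
      have hij : i ≠ j := by
        rintro rfl
        exact hne hi
      have h3 : v (z j * w i) = nm v z * nm v w := by rw [map_mul, hj, hi]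
      have h4 : v (z i * w j) < nm v z * nm v w := by
        rw [map_mul]
        calc v (z i) * v (w j) ≤ nm v z * v (w j) := by
              gcongr
              exact le_nm v z i
          _ < nm v z * nm v w := by gcongr
      have h6 : v (wdg z w) = v (z j * w i) := by
        have hcases : (j = 0 ∧ i = 1) ∨ (j = 1 ∧ i = 0) := by
          fin_cases i <;> fin_cases j <;> simp_all
        rcases hcases with ⟨rfl, rfl⟩ | ⟨rfl, rfl⟩
        · apply v_eq_of_sub_lt
          rw [h3]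
          have : z 0 * w 1 - wdg z w = z 1 * w 0 := by unfold wdg; ring
          rw [this]
          exact h4
        · rw [← v_neg v (wdg z w)]
          apply v_eq_of_sub_lt
          rw [h3]
          have : z 1 * w 0 - -wdg z w = z 0 * w 1 := by unfold wdg; ring
          rw [this]
          exact h4
      rw [h6, h3]
    have h5 : dd v z w = 1 := by
      unfold dd
      rw [h2, div_self (mul_pos hzp hwp).ne']
    linarith
  have hzj : z j ≠ 0 := by
    intro h0
    rw [h0, map_zero] at hj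
    linarith
  have hwj : w j ≠ 0 := by
    intro h0
    rw [h0, map_zero] at hj'
    linarith
  set c := (z j)⁻¹ with hc
  set d := (w j)⁻¹ with hd
  have hc0 : c ≠ 0 := inv_ne_zero hzj
  have hd0 : d ≠ 0 := inv_ne_zero hwj
  set x := c • z with hx
  set y := d • w with hy
  have hxj : x j = 1 := by simp [hx, hc, hzj]
  have hyj : y j = 1 := by simp [hy, hd, hwj]
  have hx1 : nm v x = 1 := by
    rw [hx, nm_smul, hc, map_inv₀, hj, inv_mul_cancel₀ hzp.ne']
  have hy1 : nm v y = 1 := by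
    rw [hy, nm_smul, hd, map_inv₀, hj', inv_mul_cancel₀ hwp.ne']
  have e1 : dd v (act F z) (act F w) = v (wdg (act F x) (act F y)) := by
    have : dd v (act F z) (act F w) = dd v (act F x) (act F y) := by
      rw [hx, hy, act_smul h.hom, act_smul h.hom, dd_smul_left v (pow_ne_zero _ hc0),
        dd_smul_right v (pow_ne_zero _ hd0)]
    rw [this, dd, h.nm_act_one hx1, h.nm_act_one hy1, mul_one, div_one]
  have e2 : dd v z w = v (wdg x y) := by
    have : dd v z w = dd v x y := by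
      rw [hx, hy, dd_smul_left v hc0, dd_smul_right v hd0]
    rw [this, dd, hx1, hy1, mul_one, div_one]
  rw [e1, e2]
  set δ := v (wdg x y) with hδ
  have hδ0 : 0 ≤ δ := v_nonneg v _
  have hδ1 : δ ≤ 1 := by rw [← e2]; exact h1.le
  have hdiff : ∀ i, v (x i - y i) ≤ δ := by
    intro i
    by_cases hij : i = j
    · rw [hij, hxj, hyj, sub_self, map_zero]
      exact hδ0
    · have hcases : (j = 0 ∧ i = 1) ∨ (j = 1 ∧ i = 0) := by
        fin_cases i <;> fin_cases j <;> simp_all
      rcases hcases with ⟨rfl, rfl⟩ | ⟨rfl, rfl⟩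
      · have : wdg x y = -(x 1 - y 1) := by
          unfold wdg
          rw [hxj, hyj]
          ring
        rw [hδ, this, v_neg]
      · have : wdg x y = x 0 - y 0 := by
          unfold wdg
          rw [hxj, hyj]
          ring
        rw [hδ, this]
  have hxi : ∀ i, v (x i) ≤ 1 := fun i => (le_nm v x i).trans hx1.le
  have hyi : ∀ i, v (y i) ≤ 1 := fun i => (le_nm v y i).trans hy1.le
  have hact : ∀ i, v (act F x i - act F y i) ≤ max (ρ * δ) (δ ^ q) := by
    intro i
    rw [act_eq (q := q), act_eq (q := q)]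
    have h2 : x i ^ q + aeval x (F i - X i ^ q) - (y i ^ q + aeval y (F i - X i ^ q)) =
        ((x i ^ q - y i ^ q - (x i - y i) ^ q) + (x i - y i) ^ q) +
          (aeval x (F i - X i ^ q) - aeval y (F i - X i ^ q)) := by ring
    rw [h2]
    have h3 := aeval_sub_small v h.pos.le (h.small i) hx1.le hy1.le hdiff
    have h4 := v_pow_char v (r := r) hp hpρ h.pos.le (hxi i) (hyi i)
    rw [← hq] at h4
    have h5 : ρ * v (x i - y i) ≤ ρ * δ := mul_le_mul_of_nonneg_left (hdiff i) h.pos.le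
    have h6 : v ((x i - y i) ^ q) ≤ δ ^ q := by
      rw [map_pow]
      exact pow_le_pow_left₀ (v_nonneg v _) (hdiff i) q
    refine (FinitePlace.add_le v _ _).trans (max_le ?_ (h3.trans (le_max_left _ _)))
    exact (FinitePlace.add_le v _ _).trans
      (max_le ((h4.trans h5).trans (le_max_left _ _)) (h6.trans (le_max_right _ _)))
  exact Red.wdg_aux (le_max_of_le_left (mul_nonneg h.pos.le hδ0)) (hact 0) (hact 1)
    (h.act_le hy1.le 0) (h.act_le hy1.le 1)

end Contract

end

end Pool.Agent.H420R3
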