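import Mathlib
import Pool.Agent.H420R3.Chordal

/-!
Points of the projective line over a Galois extension, the action of the Galois group and the
dynamics at a finite place.
-/

set_option autoImplicit false
set_option linter.unusedSectionVars false

namespace Pool.Agent.H420R3

open NumberField Module MvPolynomial
open scoped Pointwise

noncomputable section

section Basic

variable {M : Type*} [Field M]

/-- representative vector of a point of the projective line -/
def rep : Option M → Fin 2 → M
  | some t => ![t, 1]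
  | none => ![1, 0]

open Classical in
/-- the point represented by a vector -/
def pt (z : Fin 2 → M) : Option M := if z 1 = 0 then none else some (z 0 / z 1)

lemma rep_ne_zero (p : Option M) : rep p ≠ 0 := by
  cases p with
  | none =>
    intro h
    have := congrFun h 0
    simp [rep] at this
  | some t =>
    intro h
    have := congrFun h 1
    simp [rep] at this

lemma pt_rep (p : Option M) : pt (rep p) = p := by
  cases p with
  | none => simp [pt, rep]
  | some t => simp [pt, rep]

lemma rep_pt {z : Fin 2 → M} (hz : z ≠ 0) : ∃ c : M, c ≠ 0 ∧ z = c • rep (pt z) := by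
  by_cases h : z 1 = 0
  · have h0 : z 0 ≠ 0 := by
      intro h0
      apply hz
      funext i
      fin_cases i
      · exact h0
      · exact h
    refine ⟨z 0, h0, ?_⟩
    funext i
    fin_cases i
    · simp [pt, rep, h]
    · simp [pt, rep, h]
  · refine ⟨z 1, h, ?_⟩
    funext i
    fin_cases i
    · simp [pt, rep, h]
      field_simp
    · simp [pt, rep, h]

lemma wdg_rep_eq_zero {p p' : Option M} : wdg (rep p) (rep p') = 0 ↔ p = p' := by
  cases p with
  | none =>
    cases p' with
    | none => simp [wdg, rep]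
    | some t => simp [wdg, rep]
  | some s =>
    cases p' with
    | none => simp [wdg, rep]
    | some t => simp [wdg, rep, sub_eq_zero]

lemma pt_smul {c : M} (hc : c ≠ 0) (z : Fin 2 → M) : pt (c • z) = pt z := by
  unfold pt
  by_cases h : z 1 = 0
  · simp [h]
  · simp [h, hc, mul_div_mul_left]

lemma pt_eq_iff {z w : Fin 2 → M} (hz : z ≠ 0) (hw : w ≠ 0) : pt z = pt w ↔ wdg z w = 0 := by
  obtain ⟨c, hc, hc'⟩ := rep_pt hz
  obtain ⟨d, hd, hd'⟩ := rep_pt hw
  rw [hc', hd', wdg_smul_left, wdg_smul_right, pt_smul hc, pt_smul hd, pt_rep, pt_rep,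
    mul_eq_zero, mul_eq_zero]
  constructor
  · intro h
    right; right
    exact wdg_rep_eq_zero.mpr h
  · rintro (h | h | h)
    · exact absurd h hc
    · exact absurd h hd
    · exact wdg_rep_eq_zero.mp h

end Basic

variable {K M : Type*} [Field K] [NumberField K] [Field M] [NumberField M] [Algebra K M]

/-- the map on points -/
def phi (F : Fin 2 → MvPolynomial (Fin 2) (𝓞 K)) (p : Option M) : Option M := pt (act F (rep p))

lemma rep_smul (g : Gal(M/K)) (p : Option M) : rep (g • p) = fun i => g (rep p i) := by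
  cases p with
  | none =>
    funext i
    fin_cases i <;> simp [rep]
  | some t =>
    funext i
    fin_cases i <;> simp [rep]

lemma pt_map (g : Gal(M/K)) (z : Fin 2 → M) : pt (fun i => g (z i)) = g • pt z := by
  unfold pt
  by_cases h : z 1 = 0
  · simp [h]
  · simp [h]

lemma act_map (F : Fin 2 → MvPolynomial (Fin 2) (𝓞 K)) (g : Gal(M/K)) (z : Fin 2 → M) :
    act F (fun i => g (z i)) = fun i => g (act F z i) := by
  funext i
  unfold act
  have h1 : g (aeval z (F i)) = (g.toAlgHom.restrictScalars (𝓞 K)) (aeval z (F i)) := rfl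
  rw [h1, ← AlgHom.comp_apply, comp_aeval]
  rfl

lemma phi_smul (F : Fin 2 → MvPolynomial (Fin 2) (𝓞 K)) (g : Gal(M/K)) (p : Option M) :
    phi F (g • p) = g • phi F p := by
  unfold phi
  rw [rep_smul, act_map, pt_map]

lemma phi_iter_smul (F : Fin 2 → MvPolynomial (Fin 2) (𝓞 K)) (g : Gal(M/K)) (p : Option M)
    (n : ℕ) : (phi F)^[n] (g • p) = g • (phi F)^[n] p := by
  induction n with
  | zero => rfl
  | succ n ih => rw [Function.iterate_succ_apply', Function.iterate_succ_apply', ih, phi_smul]

section Local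

variable (v : FinitePlace M)

/-- chordal distance of points -/
def dv (p p' : Option M) : ℝ := dd v (rep p) (rep p')

lemma dd_pt {z w : Fin 2 → M} (hz : z ≠ 0) (hw : w ≠ 0) : dv v (pt z) (pt w) = dd v z w := by
  obtain ⟨c, hc, hc'⟩ := rep_pt hz
  obtain ⟨d, hd, hd'⟩ := rep_pt hw
  unfold dv
  conv_rhs => rw [hc', hd']
  rw [dd_smul_left v hc, dd_smul_right v hd]

lemma dv_nonneg (p p' : Option M) : 0 ≤ dv v p p' := dd_nonneg v _ _

lemma dv_le_one (p p' : Option M) : dv v p p' ≤ 1 := dd_le_one v _ _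

lemma dv_comm (p p' : Option M) : dv v p p' = dv v p' p := dd_comm v _ _

lemma dv_self (p : Option M) : dv v p p = 0 := dd_self v _

lemma dv_eq_zero {p p' : Option M} : dv v p p' = 0 ↔ p = p' := by
  unfold dv
  rw [dd_eq_zero_iff v (rep_ne_zero _) (rep_ne_zero _), wdg_rep_eq_zero]

lemma dv_pos {p p' : Option M} (h : p ≠ p') : 0 < dv v p p' :=
  lt_of_le_of_ne (dv_nonneg v _ _) fun h' => h ((dv_eq_zero v).mp h'.symm)

lemma dv_ultra (x y z : Option M) : dv v x z ≤ max (dv v x y) (dv v y z) :=
  dd_ultra v (rep_ne_zero y)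

lemma dv_lt_one_trans {x y z : Option M} (h1 : dv v x y < 1) (h2 : dv v y z < 1) :
    dv v x z < 1 := lt_of_le_of_lt (dv_ultra v x y z) (max_lt h1 h2)

lemma dv_smul {σ : Gal(M/K)} (hσ : σ • mi v = mi v) (p p' : Option M) :
    dv v (σ • p) (σ • p') = dv v p p' := by
  unfold dv dd nm wdg
  rw [rep_smul, rep_smul]
  simp only [← map_mul, ← map_sub]
  rw [v_smul v hσ, v_smul v hσ, v_smul v hσ, v_smul v hσ, v_smul v hσ]

variable {v} {ρ : ℝ} {F : Fin 2 → MvPolynomial (Fin 2) (𝓞 K)} {q : ℕ}

lemma Red.dv_phi (h : Red v F q ρ) (p p' : Option M) :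
    dv v (phi F p) (phi F p') ≤ max (ρ * dv v p p') (dv v p p' ^ q) := by
  unfold phi
  rw [dd_pt v (h.act_ne_zero (rep_ne_zero _)) (h.act_ne_zero (rep_ne_zero _))]
  exact h.contract (rep_ne_zero _) (rep_ne_zero _)

lemma Red.dv_phi_one (h : Red v F q ρ) {p p' : Option M} (h1 : dv v p p' = 1) :
    dv v (phi F p) (phi F p') = 1 := by
  unfold phi
  rw [dd_pt v (h.act_ne_zero (rep_ne_zero _)) (h.act_ne_zero (rep_ne_zero _))]
  exact h.dd_one (rep_ne_zero _) (rep_ne_zero _) h1

lemma Red.dv_phi_lt (h : Red v F q ρ) {p p' : Option M} (h1 : dv v p p' < 1) (h0 : p ≠ p') :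
    dv v (phi F p) (phi F p') < dv v p p' := by
  refine lt_of_le_of_lt (h.dv_phi p p') (max_lt ?_ ?_)
  · have h2 := dv_pos v h0
    have h3 := h.lt
    nlinarith
  · have h2 := dv_pos v h0
    have h3 := h.two_le
    calc dv v p p' ^ q ≤ dv v p p' ^ 2 := pow_le_pow_of_le_one h2.le h1.le h3
      _ < dv v p p' := by nlinarith

lemma Red.dv_phi_le (h : Red v F q ρ) (p p' : Option M) :
    dv v (phi F p) (phi F p') ≤ dv v p p' := by
  by_cases h0 : p = p'
  · rw [h0, dv_self, dv_self]
  · rcases eq_or_lt_of_le (dv_le_one v p p') with h1 | h1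
    · rw [h1]
      exact dv_le_one v _ _
    · exact (h.dv_phi_lt h1 h0).le

lemma Red.dv_phi_lt_one_iff (h : Red v F q ρ) (p p' : Option M) :
    dv v (phi F p) (phi F p') < 1 ↔ dv v p p' < 1 := by
  constructor
  · intro h1
    by_contra h2
    push Not at h2
    have h3 := h.dv_phi_one (le_antisymm (dv_le_one v p p') h2)
    linarith
  · intro h1
    exact lt_of_le_of_lt (h.dv_phi_le p p') h1

lemma Red.dv_iter_le (h : Red v F q ρ) (p p' : Option M) (n : ℕ) :
    dv v ((phi F)^[n] p) ((phi F)^[n] p') ≤ dv v p p' := by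
  induction n with
  | zero => exact le_rfl
  | succ n ih =>
    rw [Function.iterate_succ_apply', Function.iterate_succ_apply']
    exact (h.dv_phi_le _ _).trans ih

lemma Red.dv_iter_lt_one_iff (h : Red v F q ρ) (p p' : Option M) (n : ℕ) :
    dv v ((phi F)^[n] p) ((phi F)^[n] p') < 1 ↔ dv v p p' < 1 := by
  induction n with
  | zero => exact Iff.rfl
  | succ n ih =>
    rw [Function.iterate_succ_apply', Function.iterate_succ_apply', h.dv_phi_lt_one_iff, ih]

/-- depth: distance to the `m`-th iterate -/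
def tt (v : FinitePlace M) (F : Fin 2 → MvPolynomial (Fin 2) (𝓞 K)) (m : ℕ) (p : Option M) : ℝ :=
  dv v p ((phi F)^[m] p)

lemma Red.tt_phi (h : Red v F q ρ) (m : ℕ) (p : Option M) :
    tt v F m (phi F p) ≤ max (ρ * tt v F m p) (tt v F m p ^ q) := by
  unfold tt
  rw [← Function.iterate_succ_apply, Function.iterate_succ_apply']
  exact h.dv_phi _ _

/-- close points are as close as their depths -/
lemma Red.dv_le_tt (h : Red v F q ρ) {m : ℕ} (hm : 1 ≤ m) {p p' : Option M}
    (h1 : dv v p p' < 1) : dv v p p' ≤ max (tt v F m p) (tt v F m p') := by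
  by_cases h0 : p = p'
  · rw [h0, dv_self]
    exact le_max_of_le_left (dv_nonneg v _ _)
  by_contra hcon
  push Not at hcon
  have h2 : dv v ((phi F)^[m] p) ((phi F)^[m] p') < dv v p p' := by
    obtain ⟨n, rfl⟩ : ∃ n, m = n + 1 := ⟨m - 1, by omega⟩
    rw [Function.iterate_succ_apply, Function.iterate_succ_apply]
    exact lt_of_le_of_lt (h.dv_iter_le _ _ n) (h.dv_phi_lt h1 h0)
  have h3 := dv_ultra v p ((phi F)^[m] p) p'
  have h4 := dv_ultra v ((phi F)^[m] p) ((phi F)^[m] p') p'
  have h5 : dv v p p' ≤ max (tt v F m p)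
      (max (dv v ((phi F)^[m] p) ((phi F)^[m] p')) (tt v F m p')) := by
    refine h3.trans (max_le_max le_rfl ?_)
    refine h4.trans (max_le_max le_rfl ?_)
    unfold tt
    rw [dv_comm]
  rcases le_max_iff.mp h5 with h6 | h6
  · exact absurd (h6.trans (le_max_left _ _)) (not_le.mpr hcon)
  · rcases le_max_iff.mp h6 with h7 | h7
    · linarith
    · exact absurd (h7.trans (le_max_right _ _)) (not_le.mpr hcon)

lemma tt_smul (F : Fin 2 → MvPolynomial (Fin 2) (𝓞 K)) (m : ℕ) {σ : Gal(M/K)}
    (hσ : σ • mi v = mi v) (p : Option M) : tt v F m (σ • p) = tt v F m p := by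
  unfold tt
  rw [phi_iter_smul, dv_smul v hσ]

end Local

end

end Pool.Agent.H420R3
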