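import Mathlib
import Pool.Agent.H420R3.Points

/-!
Arithmetic of the places above a prime: depth, inertia, Frobenius.
-/

set_option autoImplicit false
set_option linter.unusedSectionVars false

namespace Pool.Agent.H420R3

open NumberField Module MvPolynomial
open scoped Pointwise

noncomputable section

variable {K M : Type*} [Field K] [NumberField K] [Field M] [NumberField M] [Algebra K M]

/-- the coercion of an integral vector -/
def cv (z : Fin 2 → 𝓞 M) : Fin 2 → M := fun i => (z i : M)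

lemma cv_act (F : Fin 2 → MvPolynomial (Fin 2) (𝓞 K)) (z : Fin 2 → 𝓞 M) :
    cv (act F z) = act F (cv z) := by
  funext i
  unfold cv act
  exact (MvPolynomial.aeval_algebraMap_apply M z (F i)).symm

lemma cv_act_iter (F : Fin 2 → MvPolynomial (Fin 2) (𝓞 K)) (z : Fin 2 → 𝓞 M) (n : ℕ) :
    cv ((act F)^[n] z) = (act F)^[n] (cv z) := by
  induction n with
  | zero => rfl
  | succ n ih => rw [Function.iterate_succ_apply', Function.iterate_succ_apply', cv_act, ih]

lemma wdg_cv (z w : Fin 2 → 𝓞 M) : wdg (cv z) (cv w) = ((wdg z w : 𝓞 M) : M) := by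
  simp [wdg, cv]

lemma phi_pt {F : Fin 2 → MvPolynomial (Fin 2) (𝓞 K)} {q : ℕ} (hF : ∀ i, (F i).IsHomogeneous q)
    {z : Fin 2 → M} (hz : z ≠ 0) : phi F (pt z) = pt (act F z) := by
  obtain ⟨c, hc, hc'⟩ := rep_pt hz
  unfold phi
  conv_rhs => rw [hc', act_smul hF, pt_smul (pow_ne_zero _ hc)]

section Local

variable {v : FinitePlace M} {ρ : ℝ} {F : Fin 2 → MvPolynomial (Fin 2) (𝓞 K)} {q : ℕ}

lemma Red.iter_ne_zero (h : Red v F q ρ) {z : Fin 2 → M} (hz : z ≠ 0) (n : ℕ) :
    (act F)^[n] z ≠ 0 := by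
  induction n with
  | zero => exact hz
  | succ n ih =>
    rw [Function.iterate_succ_apply']
    exact h.act_ne_zero ih

lemma Red.phi_iter_pt (h : Red v F q ρ) {z : Fin 2 → M} (hz : z ≠ 0) (n : ℕ) :
    (phi F)^[n] (pt z) = pt ((act F)^[n] z) := by
  induction n with
  | zero => rfl
  | succ n ih =>
    rw [Function.iterate_succ_apply', Function.iterate_succ_apply', ih,
      phi_pt h.hom (h.iter_ne_zero hz n)]

lemma Red.nm_iter_one (h : Red v F q ρ) {z : Fin 2 → M} (hz : nm v z = 1) (n : ℕ) :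
    nm v ((act F)^[n] z) = 1 := by
  induction n with
  | zero => exact hz
  | succ n ih =>
    rw [Function.iterate_succ_apply']
    exact h.nm_act_one ih

lemma ne_zero_of_nm_one {z : Fin 2 → M} (hz : nm v z = 1) : z ≠ 0 := by
  rintro rfl
  simp [nm] at hz

variable (v) in
/-- integral representative -/
lemma exists_int_rep (p : Option M) : ∃ z : Fin 2 → 𝓞 M, nm v (cv z) = 1 ∧ pt (cv z) = p := by
  obtain ⟨i, hi⟩ := exists_nm v (rep p)
  have h1 := nm_pos v (rep_ne_zero p)
  have h2 : rep p i ≠ 0 := by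
    intro h
    rw [h, map_zero] at hi
    linarith
  have h3 : ∀ j, v (rep p j / rep p i) ≤ 1 := by
    intro j
    rw [map_div₀, hi]
    exact div_le_one_of_le₀ (le_nm v _ j) h1.le
  choose a c hc hac using fun j => exists_frac v (h3 j)
  have hc0 : ∀ j, (c j : M) ≠ 0 := by
    intro j
    rw [RingOfIntegers.coe_ne_zero_iff]
    intro h
    exact hc j (by rw [h]; exact Submodule.zero_mem _)
  -- common denominator
  set d : 𝓞 M := c 0 * c 1 with hd
  have hd0 : (d : M) ≠ 0 := by
    rw [hd]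
    push_cast
    exact mul_ne_zero (hc0 0) (hc0 1)
  have hdm : d ∉ mi v := by
    rw [hd]
    intro h
    rcases (Ideal.IsPrime.mem_or_mem inferInstance h) with h | h
    · exact hc 0 h
    · exact hc 1 h
  have hvd : v (d : M) = 1 := by
    apply le_antisymm (v_le_one v d)
    by_contra h
    push Not at h
    exact hdm ((v_lt_one_iff v d).mp h)
  have hz : cv ![a 0 * c 1, a 1 * c 0] = ((d : M) / rep p i) • rep p := by
    funext j
    simp only [cv, Pi.smul_apply, smul_eq_mul]
    have e : (d : M) / rep p i * rep p j = (d : M) * (rep p j / rep p i) := by ring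
    rw [e, hac j, hd]
    fin_cases j
    · simp only [Fin.zero_eta, Matrix.cons_val_zero]
      push_cast
      have := hc0 0
      field_simp
    · simp only [Fin.mk_one, Matrix.cons_val_one]
      push_cast
      have := hc0 1
      field_simp
  refine ⟨![a 0 * c 1, a 1 * c 0], ?_, ?_⟩
  · rw [hz, nm_smul, map_div₀, hvd, hi]
    field_simp
  · rw [hz, pt_smul (div_ne_zero hd0 h2), pt_rep]

lemma dv_lt_one_iff {z w : Fin 2 → 𝓞 M} (hz : nm v (cv z) = 1) (hw : nm v (cv w) = 1) :
    dv v (pt (cv z)) (pt (cv w)) < 1 ↔ wdg z w ∈ mi v := by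
  rw [dd_pt v (ne_zero_of_nm_one hz) (ne_zero_of_nm_one hw), dd, hz, hw, mul_one, div_one, wdg_cv,
    v_lt_one_iff]

/-- the map is congruent to a power of Frobenius -/
lemma Red.act_mem (h : Red v F q ρ) {z : Fin 2 → 𝓞 M} (i : Fin 2) :
    act F z i - z i ^ q ∈ mi v := by
  rw [← v_lt_one_iff]
  have h1 : ((act F z i - z i ^ q : 𝓞 M) : M) = act F (cv z) i - cv z i ^ q := by
    rw [← cv_act]
    simp [cv]
  rw [h1]
  exact lt_of_le_of_lt (h.act_sub (nm_le v fun j => v_le_one v (z j)) i) h.lt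

lemma Red.act_iter_mem (h : Red v F q ρ) {z : Fin 2 → 𝓞 M} (n : ℕ) (i : Fin 2) :
    (act F)^[n] z i - z i ^ (q ^ n) ∈ mi v := by
  induction n with
  | zero => simp
  | succ n ih =>
    rw [Function.iterate_succ_apply']
    have h1 := h.act_mem (z := (act F)^[n] z) i
    have h2 : (act F)^[n] z i ^ q - (z i ^ q ^ n) ^ q ∈ mi v := by
      obtain ⟨c, hc⟩ := sub_dvd_pow_sub_pow ((act F)^[n] z i) (z i ^ q ^ n) q
      rw [hc]
      exact (mi v).mul_mem_right _ ih
    have h3 := (mi v).add_mem h1 h2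
    rw [sub_add_sub_cancel, ← pow_mul, ← pow_succ] at h3
    exact h3

/-- the depth is smaller than one -/
lemma Red.tt_lt_one (h : Red v F q ρ) {m : ℕ} (hm : ∃ j, q ^ m = (mi v).absNorm ^ j)
    (p : Option M) : tt v F m p < 1 := by
  obtain ⟨z, hz, rfl⟩ := exists_int_rep v p
  unfold tt
  rw [h.phi_iter_pt (ne_zero_of_nm_one hz), ← cv_act_iter]
  have h1 : nm v (cv ((act F)^[m] z)) = 1 := by
    rw [cv_act_iter]
    exact h.nm_iter_one hz m
  rw [dv_lt_one_iff hz h1]
  have h2 : ∀ x : 𝓞 M, x ^ (q ^ m) - x ∈ mi v := by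
    intro x
    obtain ⟨j, hj⟩ := hm
    let : Field (𝓞 M ⧸ mi v) := Ideal.Quotient.field (mi v)
    have hfin : Finite (𝓞 M ⧸ mi v) := Ideal.finiteQuotientOfFreeOfNeBot (mi v) (mi_ne_bot v)
    let : Fintype (𝓞 M ⧸ mi v) := Fintype.ofFinite _
    have hcard : (mi v).absNorm = Fintype.card (𝓞 M ⧸ mi v) := by
      rw [Ideal.absNorm_apply, Submodule.cardQuot_apply, Nat.card_eq_fintype_card]
    rw [← Ideal.Quotient.eq_zero_iff_mem, map_sub, map_pow, hj, hcard, FiniteField.pow_card_pow,
      sub_self]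
  have h3 : ∀ i, (act F)^[m] z i - z i ∈ mi v := by
    intro i
    have := (mi v).add_mem (h.act_iter_mem (z := z) m i) (h2 (z i))
    rwa [sub_add_sub_cancel] at this
  have h4 : wdg z ((act F)^[m] z) = z 0 * ((act F)^[m] z 1 - z 1) -
      z 1 * ((act F)^[m] z 0 - z 0) := by
    unfold wdg
    ring
  rw [h4]
  exact (mi v).sub_mem ((mi v).mul_mem_left _ (h3 1)) ((mi v).mul_mem_left _ (h3 0))

lemma smul_mem_iff {σ : Gal(M/K)} (hσ : σ • mi v = mi v) (a : 𝓞 M) : σ • a ∈ mi v ↔ a ∈ mi v := by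
  conv_lhs => rw [← hσ]
  exact Ideal.smul_mem_pointwise_smul_iff

lemma cv_smul (σ : Gal(M/K)) (z : Fin 2 → 𝓞 M) :
    cv (fun i => σ • z i) = fun i => σ (cv z i) := by
  rfl

lemma nm_map {σ : Gal(M/K)} (hσ : σ • mi v = mi v) (z : Fin 2 → M) :
    nm v (fun i => σ (z i)) = nm v z := by
  unfold nm
  rw [v_smul v hσ, v_smul v hσ]

/-- inertia moves points only inside a residue disc -/
lemma dv_inertia {σ : Gal(M/K)} (hσ : σ ∈ (mi v).inertia Gal(M/K)) (p : Option M) :
    dv v p (σ • p) < 1 := by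
  obtain ⟨z, hz, rfl⟩ := exists_int_rep v p
  have hs := inertia_smul v hσ
  rw [← pt_map, ← cv_smul]
  have h1 : nm v (cv fun i => σ • z i) = 1 := by rw [cv_smul, nm_map hs, hz]
  rw [dv_lt_one_iff hz h1]
  have h2 := AddSubgroup.mem_inertia.mp hσ
  have h4 : wdg z (fun i => σ • z i) = z 0 * (σ • z 1 - z 1) - z 1 * (σ • z 0 - z 0) := by
    unfold wdg
    ring
  rw [h4]
  exact (mi v).sub_mem ((mi v).mul_mem_left _ (h2 _)) ((mi v).mul_mem_left _ (h2 _))

variable (K) in
open Classical in
/-- the Galois orbit of a point -/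
def orbK (p : Option M) : Finset (Option M) := Finset.univ.image fun g : Gal(M/K) => g • p

lemma mem_orbK {p p' : Option M} : p' ∈ orbK K p ↔ ∃ g : Gal(M/K), g • p = p' := by
  classical
  simp [orbK]

open Classical in
variable (K v) in
/-- number of conjugates in the residue disc -/
def bb (p : Option M) : ℕ := ((orbK K p).filter fun p' => dv v p p' < 1).card

variable [IsGalois K M]

/-- the basic integrality property: `b (p) · depth (p) ≥ e` -/
lemma Red.bb_mul_depth (h : Red v F q ρ) {m : ℕ} (hm : ∃ j, q ^ m = (mi v).absNorm ^ j)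
    (p : Option M) (ht : 0 < tt v F m p) :
    (Nat.card ((mi v).inertia Gal(M/K)) : ℝ) * Real.log (nv v) ≤
      bb K v p * (-Real.log (tt v F m p)) := by
  classical
  set I := (mi v).inertia Gal(M/K) with hI
  -- orbit and stabilizer
  let H' : Subgroup I := MulAction.stabilizer I p
  let H : Subgroup Gal(M/K) := H'.map I.subtype
  have hHI : H ≤ I := Subgroup.map_subtype_le H'
  have hcardH : Nat.card H = Nat.card H' := Subgroup.card_map_of_injective I.subtype_injective
  have hfix : ∀ g ∈ H, g • p = p := by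
    rintro g ⟨g', hg', rfl⟩
    exact MulAction.mem_stabilizer_iff.mp hg'
  -- the representative
  obtain ⟨i, hi⟩ := exists_nm v (rep p)
  have h1 := nm_pos v (rep_ne_zero p)
  have h2 : rep p i ≠ 0 := by
    intro h
    rw [h, map_zero] at hi
    linarith
  set z : Fin 2 → M := (rep p i)⁻¹ • rep p with hz
  have hz1 : nm v z = 1 := by
    rw [hz, nm_smul, map_inv₀, hi, inv_mul_cancel₀ h1.ne']
  have hpz : pt z = p := by rw [hz, pt_smul (inv_ne_zero h2), pt_rep]
  have hzf : ∀ g ∈ H, (fun j => g (z j)) = z := by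
    intro g hg
    have h3 : rep (g • p) = rep p := by rw [hfix g hg]
    rw [rep_smul] at h3
    funext j
    rw [hz]
    simp only [Pi.smul_apply, smul_eq_mul, map_mul, map_inv₀]
    rw [congrFun h3 i, congrFun h3 j]
  have hzf' : ∀ g ∈ H, ∀ n, (fun j => g ((act F)^[n] z j)) = (act F)^[n] z := by
    intro g hg n
    induction n with
    | zero => exact hzf g hg
    | succ n ih =>
      rw [Function.iterate_succ_apply', ← act_map, ih]
  set y : M := wdg z ((act F)^[m] z) with hy
  have hyf : ∀ g ∈ H, g y = y := by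
    intro g hg
    have e1 := hzf g hg
    have e2 := hzf' g hg m
    rw [hy]
    unfold wdg
    rw [map_sub, map_mul, map_mul, congrFun e1 0, congrFun e1 1, congrFun e2 0, congrFun e2 1]
  have hvy : v y = tt v F m p := by
    unfold tt
    conv_rhs => rw [← hpz]
    rw [h.phi_iter_pt (ne_zero_of_nm_one hz1), dd_pt v (ne_zero_of_nm_one hz1)
      (h.iter_ne_zero (ne_zero_of_nm_one hz1) m), dd, hz1, h.nm_iter_one hz1, mul_one, div_one]
  have hy1 : v y < 1 := by
    rw [hvy]
    exact h.tt_lt_one hm p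
  have h3 := v_fixed_le v H hHI hyf hy1
  rw [hvy] at h3
  have h4 : (Nat.card H : ℝ) * Real.log (nv v) ≤ -Real.log (tt v F m p) := by
    have h5 := Real.log_le_log ht h3
    rw [Real.log_inv, Real.log_pow] at h5
    linarith
  -- counting
  have h5 : Nat.card I = Nat.card (MulAction.orbit I p) * Nat.card H' := by
    exact (Nat.card_congr (MulAction.orbitProdStabilizerEquivGroup I p)).symm.trans
      (Nat.card_prod _ _)
  have h6 : Nat.card (MulAction.orbit I p) ≤ bb K v p := by
    unfold bb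
    have h7 : (MulAction.orbit I p) ⊆
        (((orbK K p).filter fun p' => dv v p p' < 1 : Finset (Option M)) : Set (Option M)) := by
      rintro _ ⟨g, rfl⟩
      simp only [Finset.coe_filter, Set.mem_ofPred_eq]
      exact ⟨mem_orbK.mpr ⟨g, rfl⟩, dv_inertia g.2 p⟩
    have h8 := Set.ncard_le_ncard h7 (Finset.finite_toSet _)
    rwa [Set.ncard_coe_finset] at h8
  have hlog := log_nv_pos v
  calc (Nat.card I : ℝ) * Real.log (nv v) =
      (Nat.card (MulAction.orbit I p) : ℝ) * ((Nat.card H : ℝ) * Real.log (nv v)) := by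
        rw [h5, hcardH]
        push_cast
        ring
    _ ≤ bb K v p * ((Nat.card H : ℝ) * Real.log (nv v)) := by
        gcongr
    _ ≤ bb K v p * (-Real.log (tt v F m p)) := by gcongr

end Local

end

end Pool.Agent.H420R3
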