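import Mathlib
import Pool.Agent.H420R3.LocalArith
import Pool.Agent.Helper259.HtExt

/-!
The finite places above a prime of the base field.
-/

set_option autoImplicit false
set_option linter.unusedSectionVars false

namespace Pool.Agent.H420R3

open NumberField Module MvPolynomial IsDedekindDomain
open scoped Pointwise

noncomputable section

variable {K : Type*} [Field K] [NumberField K]

/-- a pair of forms of degree `q = |k|^k'` congruent to `X_i ^ q` modulo `P` -/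
structure Good (P : Ideal (𝓞 K)) (F : Fin 2 → MvPolynomial (Fin 2) (𝓞 K)) (q : ℕ) : Prop where
  hom : ∀ i, (F i).IsHomogeneous q
  pow : ∃ k, 1 ≤ k ∧ q = P.absNorm ^ k
  red : ∀ i m, (F i - X i ^ q).coeff m ∈ P

variable {M : Type*} [Field M] [NumberField M] [Algebra K M]

variable (M) in
lemma over_finite (P : Ideal (𝓞 K)) [P.IsMaximal] (hP0 : P ≠ ⊥) :
    {v : FinitePlace M | mi v ∈ P.primesOver (𝓞 M)}.Finite := by
  have h1 : (P.primesOver (𝓞 M)).Finite := IsDedekindDomain.primesOver_finite (A := 𝓞 K) P (𝓞 M)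
  refine Set.Finite.preimage ?_ h1
  intro v _ w _ h
  apply FinitePlace.maximalIdeal_injective
  exact HeightOneSpectrum.ext h

open Classical in
variable (M) in
/-- the places over a prime ideal -/
def TP (P : Ideal (𝓞 K)) : Finset (FinitePlace M) :=
  if h : {v : FinitePlace M | mi v ∈ P.primesOver (𝓞 M)}.Finite then h.toFinset else ∅

variable {P : Ideal (𝓞 K)} [hP : P.IsMaximal]

lemma mem_TP (hP0 : P ≠ ⊥) {v : FinitePlace M} : v ∈ TP M P ↔ mi v ∈ P.primesOver (𝓞 M) := by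
  unfold TP
  rw [dif_pos (over_finite M P hP0), Set.Finite.mem_toFinset]
  rfl

lemma liesOver_of_mem (hP0 : P ≠ ⊥) {v : FinitePlace M} (hv : v ∈ TP M P) :
    (mi v).LiesOver P := ((mem_TP hP0).mp hv).2

variable (K) in
/-- the weight of a place: ramification index times logarithm of the norm -/
def ew (v : FinitePlace M) : ℝ :=
  ((mi v).ramificationIdx (𝓞 K) : ℝ) * Real.log (nv v)

lemma ramIdx_pos (v : FinitePlace M) : 0 < (mi v).ramificationIdx (𝓞 K) :=
  (mi v).ramificationIdx_pos (𝓞 K)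

lemma ew_pos (v : FinitePlace M) : 0 < ew K v := by
  unfold ew
  have h1 : (0 : ℝ) < (mi v).ramificationIdx (𝓞 K) := by exact_mod_cast ramIdx_pos v
  have h2 := log_nv_pos v
  positivity

lemma sum_ew (hP0 : P ≠ ⊥) :
    ∑ v ∈ TP M P, ew K v = (finrank K M : ℝ) * Real.log P.absNorm := by
  classical
  have h1 := Ideal.map_algebraMap_eq_finsetProd_pow (R := 𝓞 M) (S := 𝓞 K) (p := P) hP0
  have h2 := Ideal.absNorm_algebraMap (𝓞 K) (𝓞 M) P
  rw [h1, map_prod] at h2
  have h3 : ∏ v ∈ TP M P, (mi v).absNorm ^ (mi v).ramificationIdx (𝓞 K) =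
      P.absNorm ^ finrank (𝓞 K) (𝓞 M) := by
    rw [← h2]
    refine Finset.prod_bij (fun v _ => mi v) ?_ ?_ ?_ ?_
    · intro v hv
      rw [Set.mem_toFinset]
      exact (mem_TP hP0).mp hv
    · intro v _ w _ h
      apply FinitePlace.maximalIdeal_injective
      exact HeightOneSpectrum.ext h
    · intro Q hQ
      rw [Set.mem_toFinset] at hQ
      have hQ1 : Q.IsPrime := hQ.1
      have hQ2 : Q.LiesOver P := hQ.2
      have hQ0 : Q ≠ ⊥ := Ideal.ne_bot_of_liesOver_of_ne_bot hP0 Q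
      let w : HeightOneSpectrum (𝓞 M) := ⟨Q, hQ1, hQ0⟩
      have hw : mi (FinitePlace.mk w) = Q := by
        unfold mi
        rw [FinitePlace.maximalIdeal_mk]
      refine ⟨FinitePlace.mk w, ?_, hw⟩
      rw [mem_TP hP0, hw]
      exact hQ
    · intro v _
      rw [map_pow]
  have h4 := congrArg (fun n : ℕ => Real.log (n : ℝ)) h3
  simp only [Nat.cast_prod, Nat.cast_pow] at h4
  rw [Real.log_prod (fun v _ => by
    have := nv_pos v
    unfold nv at this
    positivity), Real.log_pow, Helper259.HtExt.finrank_int (K := K) (L := M)] at h4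
  rw [← h4]
  refine Finset.sum_congr rfl fun v _ => ?_
  rw [Real.log_pow]
  rfl

lemma v_le_of_mem_P (hP0 : P ≠ ⊥) {v : FinitePlace M} (hv : v ∈ TP M P) {a : 𝓞 K} (ha : a ∈ P) :
    v (algebraMap (𝓞 K) M a) ≤ Real.exp (-ew K v) := by
  have hlo := liesOver_of_mem hP0 hv
  have h1 : algebraMap (𝓞 K) (𝓞 M) a ∈ mi v ^ (mi v).ramificationIdx (𝓞 K) :=
    map_le_pow_ramificationIdx hP0 (mi v) (Ideal.mem_map_of_mem _ ha)
  have h2 := (v_le_iff v _ _).mpr h1
  have h3 : Real.exp (-ew K v) = (nv v ^ (mi v).ramificationIdx (𝓞 K))⁻¹ := by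
    unfold ew
    rw [Real.exp_neg, Real.exp_nat_mul, Real.exp_log (nv_pos v)]
  rw [h3]
  exact h2

lemma Good.red_at {F : Fin 2 → MvPolynomial (Fin 2) (𝓞 K)} {q : ℕ} (h : Good P F q) (hP0 : P ≠ ⊥)
    {v : FinitePlace M} (hv : v ∈ TP M P) : Red v F q (Real.exp (-ew K v)) where
  hom := h.hom
  pr := by
    obtain ⟨k, hk, hq⟩ := h.pow
    let : Field (𝓞 K ⧸ P) := Ideal.Quotient.field P
    have hfin : Finite (𝓞 K ⧸ P) := Ideal.finiteQuotientOfFreeOfNeBot P hP0
    let : Fintype (𝓞 K ⧸ P) := Fintype.ofFinite _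
    have hcard : Ideal.absNorm P = Fintype.card (𝓞 K ⧸ P) := by
      rw [Ideal.absNorm_apply, Submodule.cardQuot_apply, Nat.card_eq_fintype_card]
    obtain ⟨p, hp⟩ := CharP.exists (𝓞 K ⧸ P)
    obtain ⟨n, hpp, hn⟩ := FiniteField.card (𝓞 K ⧸ P) p
    refine ⟨p, n * k, hpp, ?_, Nat.mul_pos n.pos hk, ?_⟩
    · rw [hq, hcard, hn, ← pow_mul]
    · have h1 : (p : 𝓞 K) ∈ P := by
        rw [← Ideal.Quotient.eq_zero_iff_mem, map_natCast]
        exact CharP.cast_eq_zero _ p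
      have h2 := v_le_of_mem_P hP0 hv h1
      rwa [map_natCast] at h2
  pos := Real.exp_pos _
  lt := by
    rw [Real.exp_lt_one_iff]
    linarith [ew_pos (K := K) v]
  small := fun i m => v_le_of_mem_P hP0 hv (h.red i m)

lemma Good.exists_depth {F : Fin 2 → MvPolynomial (Fin 2) (𝓞 K)} {q : ℕ} (h : Good P F q)
    (hP0 : P ≠ ⊥) {v : FinitePlace M} (hv : v ∈ TP M P) :
    ∃ m, 1 ≤ m ∧ ∃ j, q ^ m = (mi v).absNorm ^ j := by
  have hlo := liesOver_of_mem hP0 hv
  obtain ⟨k, hk, hq⟩ := h.pow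
  have h1 := Ideal.absNorm_eq_pow_inertiaDeg'_of_liesOver (mi v) P inferInstance hP0
  refine ⟨P.inertiaDeg' (mi v), Ideal.inertiaDeg'_pos P (mi v), k, ?_⟩
  rw [h1, hq, ← pow_mul, ← pow_mul, mul_comm]

variable [IsGalois K M]

lemma card_inertia (hP0 : P ≠ ⊥) {v : FinitePlace M} (hv : v ∈ TP M P) :
    (Nat.card ((mi v).inertia Gal(M/K)) : ℝ) * Real.log (nv v) = ew K v := by
  have hlo := liesOver_of_mem hP0 hv
  have h1 : Nat.card ((mi v).inertia Gal(M/K)) = P.ramificationIdxIn (𝓞 M) :=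
    Ideal.card_inertia_eq_ramificationIdxIn (G := Gal(M/K)) P (mi v)
  have h2 : P.ramificationIdxIn (𝓞 M) = (mi v).ramificationIdx (𝓞 K) :=
    Ideal.ramificationIdxIn_eq_ramificationIdx P (mi v) Gal(M/K)
  rw [h1, h2]
  rfl

lemma exists_frob (hP0 : P ≠ ⊥) {v : FinitePlace M} (hv : v ∈ TP M P) (k : ℕ) :
    ∃ τ : Gal(M/K), τ • mi v = mi v ∧ ∀ x : 𝓞 M, τ • x - x ^ (P.absNorm ^ k) ∈ mi v := by
  have hlo := liesOver_of_mem hP0 hv
  have hfin : Finite (𝓞 M ⧸ mi v) := Ideal.finiteQuotientOfFreeOfNeBot (mi v) (mi_ne_bot v)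
  obtain ⟨σ, hσ⟩ := IsArithFrobAt.exists_of_isInvariant (𝓞 K) Gal(M/K) (mi v)
  have hst : σ • mi v = mi v := hσ.mem_stabilizer
  have hcard : Nat.card (𝓞 K ⧸ Ideal.under (𝓞 K) (mi v)) = P.absNorm := by
    rw [← hlo.over, Ideal.absNorm_apply, Submodule.cardQuot_apply]
  have hσ' : ∀ x : 𝓞 M, σ • x - x ^ P.absNorm ∈ mi v := by
    intro x
    have := hσ x
    rw [hcard] at this
    exact this
  refine ⟨σ ^ k, ?_, ?_⟩
  · induction k with
    | zero => simp
    | succ k ih => rw [pow_succ, mul_smul, hst, ih]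
  · induction k with
    | zero => simp
    | succ k ih =>
      intro x
      have h1 := hσ' (σ ^ k • x)
      have h2 : (σ ^ k • x) ^ P.absNorm - (x ^ P.absNorm ^ k) ^ P.absNorm ∈ mi v := by
        obtain ⟨c, hc⟩ := sub_dvd_pow_sub_pow (σ ^ k • x) (x ^ P.absNorm ^ k) P.absNorm
        rw [hc]
        exact (mi v).mul_mem_right _ (ih x)
      have h3 := (mi v).add_mem h1 h2
      rw [sub_add_sub_cancel, ← pow_mul, ← pow_succ, smul_smul, ← pow_succ'] at h3
      exact h3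

/-- the map is Frobenius on the reduction -/
lemma Good.frob {F : Fin 2 → MvPolynomial (Fin 2) (𝓞 K)} {q : ℕ} (h : Good P F q)
    (hP0 : P ≠ ⊥) {v : FinitePlace M} (hv : v ∈ TP M P) :
    ∃ τ : Gal(M/K), τ • mi v = mi v ∧ ∀ p : Option M, dv v (phi F p) (τ • p) < 1 := by
  obtain ⟨k, hk, hq⟩ := h.pow
  obtain ⟨τ, hτ, hτ'⟩ := exists_frob (K := K) hP0 hv k
  rw [← hq] at hτ'
  refine ⟨τ, hτ, fun p => ?_⟩
  have hR := h.red_at hP0 hv
  obtain ⟨z, hz, rfl⟩ := exists_int_rep v p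
  rw [phi_pt hR.hom (ne_zero_of_nm_one hz), ← cv_act, ← pt_map, ← cv_smul]
  have h1 : nm v (cv (act F z)) = 1 := by
    rw [cv_act]
    exact hR.nm_act_one hz
  have h2 : nm v (cv fun i => τ • z i) = 1 := by rw [cv_smul, nm_map hτ, hz]
  rw [dv_lt_one_iff h1 h2]
  have h3 : ∀ i, act F z i - τ • z i ∈ mi v := by
    intro i
    have := (mi v).sub_mem (hR.act_mem (z := z) i) (hτ' (z i))
    rwa [sub_sub_sub_cancel_right] at this
  have h4 : wdg (act F z) (fun i => τ • z i) =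
      (act F z 0 - τ • z 0) * act F z 1 - (act F z 1 - τ • z 1) * act F z 0 := by
    unfold wdg
    ring
  rw [h4]
  exact (mi v).sub_mem ((mi v).mul_mem_right _ (h3 0)) ((mi v).mul_mem_right _ (h3 1))

end

end Pool.Agent.H420R3
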