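import Mathlib
import Pool.Agent.H420R3.Over
import Pool.Agent.H420R3.Gq

/-!
Galois orbits, their images and the residue discs.
-/

set_option autoImplicit false
set_option linter.unusedSectionVars false

namespace Pool.Agent.H420R3

open NumberField Module MvPolynomial IsDedekindDomain
open scoped Pointwise

noncomputable section

variable {K : Type*} [Field K] [NumberField K]
variable {M : Type*} [Field M] [NumberField M] [Algebra K M]
variable (F : Fin 2 → MvPolynomial (Fin 2) (𝓞 K))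

variable (K) in
/-- degree of a point over the base field -/
def dg (p : Option M) : ℕ := (orbK K p).card

lemma self_mem_orbK (p : Option M) : p ∈ orbK K p := mem_orbK.mpr ⟨1, one_smul _ p⟩

lemma dg_pos (p : Option M) : 0 < dg K p := Finset.card_pos.mpr ⟨p, self_mem_orbK p⟩

lemma orbK_smul (g : Gal(M/K)) (p : Option M) : orbK K (g • p) = orbK K p := by
  ext w
  rw [mem_orbK, mem_orbK]
  constructor
  · rintro ⟨h, rfl⟩
    exact ⟨h * g, mul_smul h g p⟩
  · rintro ⟨h, rfl⟩
    refine ⟨h * g⁻¹, ?_⟩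
    rw [mul_smul, inv_smul_smul]

lemma orbK_eq_of_mem {p w : Option M} (h : w ∈ orbK K p) : orbK K w = orbK K p := by
  obtain ⟨g, rfl⟩ := mem_orbK.mp h
  exact orbK_smul g p

lemma dg_eq_of_mem {p w : Option M} (h : w ∈ orbK K p) : dg K w = dg K p := by
  unfold dg
  rw [orbK_eq_of_mem h]

lemma smul_mem_orbK {p w : Option M} (g : Gal(M/K)) (h : w ∈ orbK K p) : g • w ∈ orbK K p := by
  rw [← orbK_eq_of_mem h]
  exact mem_orbK.mpr ⟨g, rfl⟩

lemma phi_iter_mem {p w : Option M} (h : w ∈ orbK K p) (j : ℕ) :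
    (phi F)^[j] w ∈ orbK K ((phi F)^[j] p) := by
  obtain ⟨g, rfl⟩ := mem_orbK.mp h
  rw [phi_iter_smul]
  exact mem_orbK.mpr ⟨g, rfl⟩

lemma exists_lift {p w : Option M} {j : ℕ} (h : w ∈ orbK K ((phi F)^[j] p)) :
    ∃ u ∈ orbK K p, (phi F)^[j] u = w := by
  obtain ⟨g, rfl⟩ := mem_orbK.mp h
  exact ⟨g • p, mem_orbK.mpr ⟨g, rfl⟩, phi_iter_smul F g p j⟩

open Classical in
/-- the fibres of the iterates have constant cardinality -/
lemma card_fib (p : Option M) (j : ℕ) {w : Option M} (hw : w ∈ orbK K ((phi F)^[j] p)) :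
    ((orbK K p).filter fun u => (phi F)^[j] u = w).card * dg K ((phi F)^[j] p) = dg K p := by
  have key : ∀ w' ∈ orbK K ((phi F)^[j] p),
      ((orbK K p).filter fun u => (phi F)^[j] u = w').card =
      ((orbK K p).filter fun u => (phi F)^[j] u = w).card := by
    intro w' hw'
    rw [← orbK_eq_of_mem hw] at hw'
    obtain ⟨g, rfl⟩ := mem_orbK.mp hw'
    refine Finset.card_bij (fun u _ => g⁻¹ • u) ?_ ?_ ?_
    · intro u hu
      rw [Finset.mem_filter] at hu ⊢
      refine ⟨smul_mem_orbK _ hu.1, ?_⟩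
      rw [phi_iter_smul, hu.2, inv_smul_smul]
    · intro u _ u' _ h
      exact smul_left_cancel g⁻¹ h
    · intro u hu
      rw [Finset.mem_filter] at hu
      refine ⟨g • u, ?_, inv_smul_smul _ _⟩
      rw [Finset.mem_filter]
      refine ⟨smul_mem_orbK _ hu.1, ?_⟩
      rw [phi_iter_smul, hu.2]
  have h1 : (orbK K p).card = ∑ w' ∈ orbK K ((phi F)^[j] p),
      ((orbK K p).filter fun u => (phi F)^[j] u = w').card :=
    Finset.card_eq_sum_card_fiberwise fun u hu => phi_iter_mem F hu j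
  rw [Finset.sum_congr rfl key, Finset.sum_const, smul_eq_mul] at h1
  unfold dg
  rw [h1, mul_comm]

lemma dg_phi_dvd (p : Option M) (j : ℕ) : dg K ((phi F)^[j] p) ∣ dg K p :=
  ⟨_, by rw [mul_comm]; exact (card_fib F p j (self_mem_orbK _)).symm⟩

lemma dg_phi_le (p : Option M) (j : ℕ) : dg K ((phi F)^[j] p) ≤ dg K p :=
  Nat.le_of_dvd (dg_pos p) (dg_phi_dvd F p j)

section Disc

variable {F} {v : FinitePlace M} {ρ : ℝ} {q : ℕ}

lemma bb_pos (p : Option M) : 0 < bb K v p := by
  classical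
  unfold bb
  refine Finset.card_pos.mpr ⟨p, ?_⟩
  rw [Finset.mem_filter, dv_self]
  exact ⟨self_mem_orbK p, by norm_num⟩

lemma bb_congr {p p' : Option M} (h : p' ∈ orbK K p) (h1 : dv v p p' < 1) :
    bb K v p' = bb K v p := by
  classical
  unfold bb
  rw [orbK_eq_of_mem h]
  congr 1
  refine Finset.filter_congr fun w _ => ⟨fun hw => ?_, fun hw => ?_⟩
  · exact dv_lt_one_trans v h1 hw
  · rw [dv_comm] at h1
    exact dv_lt_one_trans v h1 hw

lemma bb_smul {σ : Gal(M/K)} (hσ : σ • mi v = mi v) (p : Option M) :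
    bb K v (σ • p) = bb K v p := by
  classical
  unfold bb
  rw [orbK_smul]
  symm
  refine Finset.card_bij (fun u _ => σ • u) ?_ ?_ ?_
  · intro u hu
    rw [Finset.mem_filter] at hu ⊢
    refine ⟨smul_mem_orbK _ hu.1, ?_⟩
    rw [dv_smul v hσ]
    exact hu.2
  · intro u _ u' _ h
    exact smul_left_cancel σ h
  · intro u hu
    rw [Finset.mem_filter] at hu
    refine ⟨σ⁻¹ • u, ?_, smul_inv_smul _ _⟩
    rw [Finset.mem_filter]
    refine ⟨smul_mem_orbK _ hu.1, ?_⟩
    rw [← dv_smul v hσ, smul_inv_smul]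
    exact hu.2

open Classical in
/-- number of conjugates in a residue disc along the orbit -/
lemma Red.bb_phi (h : Red v F q ρ) (p : Option M) (j : ℕ) :
    bb K v p * dg K ((phi F)^[j] p) = dg K p * bb K v ((phi F)^[j] p) := by
  have h1 : bb K v p = ∑ w ∈ (orbK K ((phi F)^[j] p)).filter
      (fun w => dv v ((phi F)^[j] p) w < 1),
      ((orbK K p).filter fun u => (phi F)^[j] u = w).card := by
    unfold bb
    have h2 := Finset.card_eq_sum_card_fiberwise
      (s := (orbK K p).filter fun p' => dv v p p' < 1)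
      (t := (orbK K ((phi F)^[j] p)).filter fun w => dv v ((phi F)^[j] p) w < 1)
      (f := fun u => (phi F)^[j] u) (by
        intro u hu
        simp only [Finset.coe_filter, Set.mem_ofPred_eq] at hu ⊢
        exact ⟨phi_iter_mem F hu.1 j, (h.dv_iter_lt_one_iff _ _ j).mpr hu.2⟩)
    rw [h2]
    refine Finset.sum_congr rfl fun w hw => ?_
    congr 1
    rw [Finset.mem_filter] at hw
    ext u
    simp only [Finset.mem_filter]
    constructor
    · rintro ⟨⟨a, -⟩, c⟩
      exact ⟨a, c⟩
    · rintro ⟨a, c⟩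
      refine ⟨⟨a, ?_⟩, c⟩
      rw [← h.dv_iter_lt_one_iff _ _ j, c]
      exact hw.2
  rw [h1, Finset.sum_mul, Finset.sum_congr rfl (g := fun _ => dg K p) (by
    intro w hw
    rw [Finset.mem_filter] at hw
    exact card_fib F p j hw.1)]
  rw [Finset.sum_const, smul_eq_mul, mul_comm]
  rfl

end Disc

end

end Pool.Agent.H420R3
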