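import Mathlib
import Pool.Agent.H420R3.Orb

/-!
Depth of points and lower bounds for the local energies.
-/

set_option autoImplicit false
set_option linter.unusedSectionVars false

namespace Pool.Agent.H420R3

open NumberField Module MvPolynomial IsDedekindDomain
open scoped Pointwise

noncomputable section

variable {K : Type*} [Field K] [NumberField K]
variable {M : Type*} [Field M] [NumberField M] [Algebra K M]
variable {F : Fin 2 → MvPolynomial (Fin 2) (𝓞 K)}

/-- points with infinite orbit -/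
def Wand (F : Fin 2 → MvPolynomial (Fin 2) (𝓞 K)) (p : Option M) : Prop :=
  Function.Injective fun n => (phi F)^[n] p

lemma Wand.iter {p : Option M} (h : Wand F p) (j : ℕ) : Wand F ((phi F)^[j] p) := by
  intro a b hab
  simp only [← Function.iterate_add_apply] at hab
  have := h hab
  omega

lemma Wand.smul {p : Option M} (h : Wand F p) (g : Gal(M/K)) : Wand F (g • p) := by
  intro a b hab
  simp only [phi_iter_smul] at hab
  exact h (smul_left_cancel g hab)

lemma Wand.of_mem {p w : Option M} (h : Wand F p) (hw : w ∈ orbK K p) : Wand F w := by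
  obtain ⟨g, rfl⟩ := mem_orbK.mp hw
  exact h.smul g

lemma Wand.disj {p : Option M} (h : Wand F p) {a b : ℕ} (hab : a ≠ b) {w w' : Option M}
    (hw : w ∈ orbK K ((phi F)^[a] p)) (hw' : w' ∈ orbK K ((phi F)^[b] p)) : w ≠ w' := by
  wlog hlt : a < b generalizing a b w w'
  · exact (this hab.symm hw' hw (by omega)).symm
  rintro rfl
  obtain ⟨t, rfl⟩ := Nat.exists_eq_add_of_lt hlt
  obtain ⟨g, hg⟩ := mem_orbK.mp hw
  obtain ⟨g', hg'⟩ := mem_orbK.mp hw'
  set x := (phi F)^[a] p with hx
  have h1 : (phi F)^[t + 1] x = (g'⁻¹ * g) • x := by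
    have h2 : (phi F)^[a + t + 1] p = (phi F)^[t + 1] x := by
      rw [hx, ← Function.iterate_add_apply]
      congr 1
      omega
    rw [← h2, mul_smul, hg, ← hg', inv_smul_smul]
  set k := g'⁻¹ * g with hk
  have h3 : ∀ n, (phi F)^[(t + 1) * n] x = k ^ n • x := by
    intro n
    induction n with
    | zero => simp
    | succ n ih =>
      rw [Nat.mul_succ, Nat.add_comm, Function.iterate_add_apply, ih, phi_iter_smul, h1, smul_smul,
        pow_succ]
  obtain ⟨n, hn, hn'⟩ := (isOfFinOrder_of_finite k).exists_pow_eq_one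
  have h4 := h3 n
  rw [hn', one_smul] at h4
  have h5 : (phi F)^[(t + 1) * n + a] p = (phi F)^[a] p := by
    rw [Function.iterate_add_apply]
    exact h4
  have h6 := h h5
  have : 0 < (t + 1) * n := Nat.mul_pos (by omega) hn
  omega

lemma Wand.tt_pos {p : Option M} (h : Wand F p) {v : FinitePlace M} {m : ℕ} (hm : 1 ≤ m) :
    0 < tt v F m p := by
  unfold tt
  apply dv_pos
  intro h1
  have h2 : (phi F)^[0] p = (phi F)^[m] p := h1
  have := h h2
  omega

/-- local energy of two points -/
def dl (v : FinitePlace M) (p p' : Option M) : ℝ := -Real.log (dv v p p')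

lemma dl_nonneg (v : FinitePlace M) (p p' : Option M) : 0 ≤ dl v p p' := by
  unfold dl
  have := Real.log_nonpos (dv_nonneg v p p') (dv_le_one v p p')
  linarith

lemma dl_comm (v : FinitePlace M) (p p' : Option M) : dl v p p' = dl v p' p := by
  unfold dl
  rw [dv_comm]

lemma dl_self (v : FinitePlace M) (p : Option M) : dl v p p = 0 := by
  unfold dl
  rw [dv_self, Real.log_zero, neg_zero]

/-- normalised depth -/
def st (v : FinitePlace M) (F : Fin 2 → MvPolynomial (Fin 2) (𝓞 K)) (m : ℕ) (p : Option M) : ℝ :=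
  -Real.log (tt v F m p) / ew K v

variable {P : Ideal (𝓞 K)} [hP : P.IsMaximal] {q : ℕ}

lemma Good.depth_phi (h : Good P F q) (hP0 : P ≠ ⊥) {v : FinitePlace M} (hv : v ∈ TP M P)
    {m : ℕ} (hm : 1 ≤ m) {p : Option M} (hp : Wand F p) :
    gq q (st v F m p) ≤ st v F m (phi F p) := by
  have hR := h.red_at hP0 hv
  have hw := ew_pos (K := K) v
  have h1 := hR.tt_phi m p
  have hp1 : Wand F (phi F p) := hp.iter 1
  have h2 := hp.tt_pos (v := v) hm
  have h3 := hp1.tt_pos (v := v) hm
  unfold gq st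
  rcases le_max_iff.mp h1 with h4 | h4
  · refine (min_le_right _ _).trans ?_
    have h5 := Real.log_le_log h3 h4
    rw [Real.log_mul (Real.exp_pos _).ne' h2.ne', Real.log_exp] at h5
    rw [div_add_one hw.ne']
    apply div_le_div_of_nonneg_right _ hw.le
    linarith
  · refine (min_le_left _ _).trans ?_
    have h5 := Real.log_le_log h3 h4
    rw [Real.log_pow] at h5
    rw [← mul_div_assoc]
    apply div_le_div_of_nonneg_right _ hw.le
    linarith

variable [IsGalois K M]

lemma Good.depth_zero (h : Good P F q) (hP0 : P ≠ ⊥) {v : FinitePlace M} (hv : v ∈ TP M P)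
    {m : ℕ} (hm : 1 ≤ m) (hm' : ∃ j, q ^ m = (mi v).absNorm ^ j) {p : Option M} (hp : Wand F p) :
    1 / (bb K v p : ℝ) ≤ st v F m p := by
  have hR := h.red_at hP0 hv
  have hw := ew_pos (K := K) v
  have h1 := hR.bb_mul_depth hm' p (hp.tt_pos hm)
  rw [card_inertia hP0 hv] at h1
  have h2 : (0 : ℝ) < bb K v p := by exact_mod_cast bb_pos p
  unfold st
  rw [div_le_div_iff₀ h2 hw]
  linarith

lemma Good.depth_iter (h : Good P F q) (hP0 : P ≠ ⊥) {v : FinitePlace M} (hv : v ∈ TP M P)
    {m : ℕ} (hm : 1 ≤ m) (hm' : ∃ j, q ^ m = (mi v).absNorm ^ j) {p : Option M} (hp : Wand F p)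
    (j : ℕ) : (gq q)^[j] (1 / (bb K v p : ℝ)) ≤ st v F m ((phi F)^[j] p) := by
  induction j with
  | zero => exact h.depth_zero hP0 hv hm hm' hp
  | succ j ih =>
    rw [Function.iterate_succ_apply', Function.iterate_succ_apply']
    exact (gq_mono q ih).trans (h.depth_phi hP0 hv hm (hp.iter j))

/-- energy of two points of a disc -/
lemma Good.dl_lower (h : Good P F q) (hP0 : P ≠ ⊥) {v : FinitePlace M} (hv : v ∈ TP M P)
    {m : ℕ} (hm : 1 ≤ m) {w w' : Option M} (h1 : dv v w w' < 1) (hne : w ≠ w') {s : ℝ}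
    (hs : s ≤ st v F m w) (hs' : s ≤ st v F m w') (hw : Wand F w) (hw' : Wand F w') :
    ew K v * s ≤ dl v w w' := by
  have hR := h.red_at hP0 hv
  have he := ew_pos (K := K) v
  have h2 := hR.dv_le_tt hm h1
  have h3 := dv_pos v hne
  have key : ∀ x : Option M, Wand F x → s ≤ st v F m x → dv v w w' ≤ tt v F m x →
      ew K v * s ≤ dl v w w' := by
    intro x hx hsx hle
    have h4 := Real.log_le_log h3 hle
    unfold st at hsx
    rw [le_div_iff₀ he] at hsx
    unfold dl
    linarith
  rcases le_max_iff.mp h2 with h4 | h4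
  · exact key w hw hs h4
  · exact key w' hw' hs' h4

/-- self energy: two conjugates in the same disc at level `j` -/
lemma Good.self_lower (h : Good P F q) (hP0 : P ≠ ⊥) {v : FinitePlace M} (hv : v ∈ TP M P)
    {p : Option M} (hp : Wand F p) (j : ℕ) {w w' : Option M}
    (hw : w ∈ orbK K ((phi F)^[j] p)) (hw' : w' ∈ orbK K ((phi F)^[j] p)) (hne : w ≠ w')
    (h1 : dv v w w' < 1) :
    ew K v * (gq q)^[j] ((dg K ((phi F)^[j] p) : ℝ) / (dg K p * bb K v w)) ≤ dl v w w' := by
  have hR := h.red_at hP0 hv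
  obtain ⟨m, hm, hm'⟩ := h.exists_depth hP0 hv
  have hb : bb K v w' = bb K v w := bb_congr (by rw [orbK_eq_of_mem hw]; exact hw') h1
  have key : ∀ x, x ∈ orbK K ((phi F)^[j] p) →
      (gq q)^[j] ((dg K ((phi F)^[j] p) : ℝ) / (dg K p * bb K v x)) ≤ st v F m x := by
    intro x hx
    obtain ⟨u, hu, rfl⟩ := exists_lift F hx
    have h2 := h.depth_iter hP0 hv hm hm' (hp.of_mem hu) j
    have h3 := hR.bb_phi u j
    rw [dg_eq_of_mem hu, dg_eq_of_mem hx] at h3
    have h4 : (dg K ((phi F)^[j] p) : ℝ) / (dg K p * bb K v ((phi F)^[j] u)) =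
        1 / (bb K v u : ℝ) := by
      have h5 : (bb K v u : ℝ) * dg K ((phi F)^[j] p) = dg K p * bb K v ((phi F)^[j] u) := by
        exact_mod_cast h3
      have h6 : (0 : ℝ) < bb K v u := by exact_mod_cast bb_pos u
      have h7 : (0 : ℝ) < bb K v ((phi F)^[j] u) := by exact_mod_cast bb_pos _
      have h8 : (0 : ℝ) < dg K p := by exact_mod_cast dg_pos p
      rw [div_eq_div_iff (by positivity) h6.ne']
      linarith
    rw [h4]
    exact h2
  refine h.dl_lower hP0 hv hm h1 hne (key w hw) ?_ ((hp.iter j).of_mem hw) ((hp.iter j).of_mem hw')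
  rw [← hb]
  exact key w' hw'

end

end Pool.Agent.H420R3
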