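import Mathlib
import Pool.Agent.H420R3.Chordal

/-!
Families of binary forms congruent to the monomials modulo a prime.
-/

set_option autoImplicit false
set_option linter.unusedSectionVars false

namespace Pool.Agent.H420R3

open NumberField Module MvPolynomial

noncomputable section

/-- the exponent of a monomial of degree `n` -/
def mo {n : ℕ} (j : Fin (n + 1)) : Fin 2 →₀ ℕ := Finsupp.single 0 j.1 + Finsupp.single 1 j.rev.1

lemma mo_zero {n : ℕ} (j : Fin (n + 1)) : mo j 0 = j.1 := by simp [mo]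

lemma mo_one {n : ℕ} (j : Fin (n + 1)) : mo j 1 = j.rev.1 := by simp [mo]

lemma mo_inj {n : ℕ} : Function.Injective (mo (n := n)) := by
  intro a b h
  have := congrArg (fun m => m 0) h
  simp only [mo_zero] at this
  exact Fin.ext this

variable {R : Type*} [CommRing R]

lemma exists_mo {n : ℕ} {G : MvPolynomial (Fin 2) R} (hG : G.IsHomogeneous n)
    {m : Fin 2 →₀ ℕ} (hm : G.coeff m ≠ 0) : ∃ j : Fin (n + 1), mo j = m := by
  have h1 : m 0 + m 1 = n := by
    have := hG hm
    rw [Finsupp.weight_apply, Finsupp.sum_fintype _ _ (by simp), Fin.sum_univ_two] at this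
    simpa using this
  refine ⟨⟨m 0, by omega⟩, ?_⟩
  ext i
  fin_cases i
  · exact mo_zero _
  · change mo (⟨m 0, _⟩ : Fin (n + 1)) 1 = m 1
    rw [mo_one, Fin.val_rev]
    simp only
    omega

lemma form_eq {n : ℕ} {G : MvPolynomial (Fin 2) R} (hG : G.IsHomogeneous n) :
    G = ∑ j : Fin (n + 1), monomial (mo j) (G.coeff (mo j)) := by
  classical
  ext m
  rw [coeff_sum]
  simp only [coeff_monomial]
  by_cases hm : G.coeff m = 0
  · rw [hm]
    symm
    refine Finset.sum_eq_zero fun j _ => ?_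
    split_ifs with h
    · rw [h, hm]
    · rfl
  · obtain ⟨j, rfl⟩ := exists_mo hG hm
    rw [Finset.sum_eq_single j, if_pos rfl]
    · intro i _ hi
      rw [if_neg fun h => hi (mo_inj h)]
    · intro h
      exact absurd (Finset.mem_univ j) h

lemma aeval_form {S : Type*} [CommRing S] [Algebra R S] {n : ℕ} {G : MvPolynomial (Fin 2) R}
    (hG : G.IsHomogeneous n) (z : Fin 2 → S) :
    aeval z G = ∑ j : Fin (n + 1), algebraMap R S (G.coeff (mo j)) *
      (z 0 ^ j.1 * z 1 ^ j.rev.1) := by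
  conv_lhs => rw [form_eq hG]
  rw [map_sum]
  refine Finset.sum_congr rfl fun j _ => ?_
  rw [aeval_monomial, Finsupp.prod_fintype _ _ (by simp), Fin.prod_univ_two, mo_zero, mo_one]

/-- coefficient matrix of a family of forms -/
def BM {n : ℕ} (G : Fin (n + 1) → MvPolynomial (Fin 2) R) :
    Matrix (Fin (n + 1)) (Fin (n + 1)) R := Matrix.of fun a j => (G a).coeff (mo j)

lemma eval_matrix {S : Type*} [CommRing S] [Algebra R S] {n : ℕ}
    {G : Fin (n + 1) → MvPolynomial (Fin 2) R} (hG : ∀ a, (G a).IsHomogeneous n)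
    {ι : Type*} (z : ι → Fin 2 → S) :
    Matrix.of (fun i a => aeval (z i) (G a)) =
      Matrix.rectVandermonde (fun i => z i 0) (fun i => z i 1) (n + 1) *
        ((BM G).map (algebraMap R S)).transpose := by
  ext i a
  rw [Matrix.of_apply, Matrix.mul_apply, aeval_form (hG a)]
  refine Finset.sum_congr rfl fun j _ => ?_
  rw [Matrix.rectVandermonde_apply, Matrix.transpose_apply, Matrix.map_apply, BM, Matrix.of_apply,
    mul_comm]

lemma det_eval {S : Type*} [CommRing S] [Algebra R S] {n : ℕ}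
    {G : Fin (n + 1) → MvPolynomial (Fin 2) R} (hG : ∀ a, (G a).IsHomogeneous n)
    (z : Fin (n + 1) → Fin 2 → S) :
    (Matrix.of fun i a => aeval (z i) (G a)).det =
      (∏ i : Fin (n + 1), ∏ j ∈ Finset.Ioi i, (z j 0 * z i 1 - z i 0 * z j 1)) *
        algebraMap R S (BM G).det := by
  rw [eval_matrix hG, Matrix.det_mul, Matrix.det_transpose]
  congr 1
  · exact Matrix.det_projVandermonde (fun i => z i 0) (fun i => z i 1)
  · rw [RingHom.map_det]
    rfl

/-- reduction of polynomials -/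
abbrev rd (P : Ideal R) : MvPolynomial (Fin 2) R →+* MvPolynomial (Fin 2) (R ⧸ P) :=
  MvPolynomial.map (Ideal.Quotient.mk P)

lemma rd_eq_iff {P : Ideal R} {G H : MvPolynomial (Fin 2) R} :
    rd P G = rd P H ↔ ∀ m, (G - H).coeff m ∈ P := by
  rw [MvPolynomial.ext_iff]
  refine forall_congr' fun m => ?_
  rw [coeff_map, coeff_map, Ideal.Quotient.eq, coeff_sub]

/-- the determinant of the coefficient matrix is a unit modulo `P` -/
lemma det_BM {P : Ideal R} {n : ℕ} {G : Fin (n + 1) → MvPolynomial (Fin 2) R}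
    (hred : ∀ a : Fin (n + 1), rd P (G a) = X 0 ^ a.1 * X 1 ^ a.rev.1) :
    Ideal.Quotient.mk P (BM G).det = 1 := by
  classical
  rw [RingHom.map_det]
  have h1 : (Ideal.Quotient.mk P).mapMatrix (BM G) = 1 := by
    ext a j
    rw [RingHom.mapMatrix_apply, Matrix.map_apply, BM, Matrix.of_apply, ← coeff_map]
    change (rd P (G a)).coeff (mo j) = _
    rw [hred a]
    have h2 : (X 0 ^ a.1 * X 1 ^ a.rev.1 : MvPolynomial (Fin 2) (R ⧸ P)) = monomial (mo a) 1 := by
      rw [X_pow_eq_monomial, X_pow_eq_monomial, monomial_mul, one_mul]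
      rfl
    rw [h2, coeff_monomial, Matrix.one_apply]
    by_cases h : a = j
    · rw [if_pos (by rw [h]), if_pos h]
    · rw [if_neg (fun h' => h (mo_inj h')), if_neg h]
  rw [h1, Matrix.det_one]

lemma det_BM_notMem {P : Ideal R} (hP : P ≠ ⊤) {n : ℕ}
    {G : Fin (n + 1) → MvPolynomial (Fin 2) R}
    (hred : ∀ a : Fin (n + 1), rd P (G a) = X 0 ^ a.1 * X 1 ^ a.rev.1) : (BM G).det ∉ P := by
  intro h
  have h1 := det_BM hred
  rw [Ideal.Quotient.eq_zero_iff_mem.mpr h] at h1
  have : Nontrivial (R ⧸ P) := Ideal.Quotient.nontrivial_iff.mpr hP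
  exact zero_ne_one h1

/-! ### digits -/

/-- the adapted basis of forms of degree `q ^ k - 1` -/
def Gd (F : Fin 2 → MvPolynomial (Fin 2) R) (q : ℕ) : ℕ → ℕ → MvPolynomial (Fin 2) R
  | 0, _ => 1
  | k + 1, a => X 0 ^ (a % q) * X 1 ^ (q - 1 - a % q) * bind₁ F (Gd F q k (a / q))

lemma pow_sub_one {q : ℕ} (hq : 1 ≤ q) (k : ℕ) :
    (q - 1) + q * (q ^ k - 1) = q ^ (k + 1) - 1 := by
  have h1 : 1 ≤ q ^ k := Nat.one_le_pow _ _ hq
  have h2 : q ≤ q * q ^ k := Nat.le_mul_of_pos_right _ h1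
  rw [Nat.mul_sub, pow_succ', mul_one]
  omega

lemma Gd_hom {F : Fin 2 → MvPolynomial (Fin 2) R} {q : ℕ} (hq : 1 ≤ q)
    (hF : ∀ i, (F i).IsHomogeneous q) (k a : ℕ) : (Gd F q k a).IsHomogeneous (q ^ k - 1) := by
  induction k generalizing a with
  | zero => simpa [Gd] using isHomogeneous_one (Fin 2) R
  | succ k ih =>
    rw [Gd, ← pow_sub_one hq]
    have h1 : a % q < q := Nat.mod_lt _ (by omega)
    refine IsHomogeneous.mul ?_ ((ih (a / q)).aeval F hF)
    have h2 := (isHomogeneous_X_pow (R := R) (0 : Fin 2) (a % q)).mul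
      (isHomogeneous_X_pow (R := R) (1 : Fin 2) (q - 1 - a % q))
    have h3 : a % q + (q - 1 - a % q) = q - 1 := by omega
    rwa [h3] at h2

lemma Gd_rd {P : Ideal R} {F : Fin 2 → MvPolynomial (Fin 2) R} {q : ℕ} (hq : 1 ≤ q)
    (hF : ∀ i, rd P (F i) = X i ^ q) (k a : ℕ) (ha : a < q ^ k) :
    rd P (Gd F q k a) = X 0 ^ a * X 1 ^ (q ^ k - 1 - a) := by
  induction k generalizing a with
  | zero =>
    simp only [pow_zero, Nat.lt_one_iff] at ha
    simp [Gd, ha]
  | succ k ih =>
    rw [Gd, map_mul, map_mul, map_pow, map_pow]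
    have h1 : a % q < q := Nat.mod_lt _ (by omega)
    have h2 : a / q < q ^ k := Nat.div_lt_of_lt_mul (by rwa [← pow_succ'])
    have h3 : rd P (bind₁ F (Gd F q k (a / q))) =
        (X 0 ^ q) ^ (a / q) * (X 1 ^ q) ^ (q ^ k - 1 - a / q) := by
      change MvPolynomial.map _ _ = _
      rw [map_bind₁]
      have h4 : (MvPolynomial.map (Ideal.Quotient.mk P)) (Gd F q k (a / q)) =
          X 0 ^ (a / q) * X 1 ^ (q ^ k - 1 - a / q) := ih _ h2
      rw [h4, map_mul, map_pow, map_pow, bind₁_X_right, bind₁_X_right]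
      have h5 : ∀ i, (MvPolynomial.map (Ideal.Quotient.mk P)) (F i) = X i ^ q := hF
      rw [h5, h5]
    rw [h3]
    have h6 : rd P (X 0) = X 0 := map_X _ _
    have h7 : rd P (X 1) = X 1 := map_X _ _
    rw [h6, h7, ← pow_mul, ← pow_mul]
    have h8 : a % q + q * (a / q) = a := Nat.mod_add_div a q
    have h9 : (q - 1 - a % q) + q * (q ^ k - 1 - a / q) = q ^ (k + 1) - 1 - a := by
      have h10 := pow_sub_one hq k
      rw [Nat.mul_sub]
      have h11 : q * (a / q) ≤ q * (q ^ k - 1) := Nat.mul_le_mul_left q (by omega)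
      omega
    rw [mul_mul_mul_comm, ← pow_add, ← pow_add, h8, h9]

lemma aeval_Gd_succ {S : Type*} [CommRing S] [Algebra R S] (F : Fin 2 → MvPolynomial (Fin 2) R)
    (q k a : ℕ) (z : Fin 2 → S) :
    aeval z (Gd F q (k + 1) a) =
      z 0 ^ (a % q) * z 1 ^ (q - 1 - a % q) * aeval (act F z) (Gd F q k (a / q)) := by
  rw [Gd, map_mul, map_mul, map_pow, map_pow, aeval_X, aeval_X, aeval_bind₁]
  rfl

/-- bound for the adapted basis at any place -/
lemma Gd_bound {S : Type*} [CommRing S] [Algebra R S] (f : S →*₀ ℝ) (hf : ∀ x, 0 ≤ f x)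
    (F : Fin 2 → MvPolynomial (Fin 2) R) {q : ℕ} (hq : 1 ≤ q) (k a : ℕ) (z : Fin 2 → S) :
    f (aeval z (Gd F q k a)) ≤
      ∏ l ∈ Finset.range k, max (f ((act F)^[l] z 0)) (f ((act F)^[l] z 1)) ^ (q - 1) := by
  induction k generalizing a z with
  | zero => simp [Gd]
  | succ k ih =>
    rw [aeval_Gd_succ, Finset.prod_range_succ', map_mul, mul_comm]
    have h1 : a % q < q := Nat.mod_lt _ (by omega)
    have h2 : f (z 0 ^ (a % q) * z 1 ^ (q - 1 - a % q)) ≤ max (f (z 0)) (f (z 1)) ^ (q - 1) := by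
      rw [map_mul, map_pow, map_pow]
      have h3 : a % q + (q - 1 - a % q) = q - 1 := by omega
      calc f (z 0) ^ (a % q) * f (z 1) ^ (q - 1 - a % q) ≤
          max (f (z 0)) (f (z 1)) ^ (a % q) * max (f (z 0)) (f (z 1)) ^ (q - 1 - a % q) := by
            apply mul_le_mul
            · exact pow_le_pow_left₀ (hf _) (le_max_left _ _) _
            · exact pow_le_pow_left₀ (hf _) (le_max_right _ _) _
            · exact pow_nonneg (hf _) _
            · exact pow_nonneg (le_max_of_le_left (hf _)) _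
        _ = _ := by rw [← pow_add, h3]
    have h4 := ih (a / q) (act F z)
    simp only [← Function.iterate_succ_apply] at h4
    exact mul_le_mul h4 h2 (hf _) (Finset.prod_nonneg fun l _ =>
      pow_nonneg (le_max_of_le_left (hf _)) _)

/-! ### the Bezout family -/

/-- the forms `X^b Y^(q-1-b) F_i` -/
def Gb (F : Fin 2 → MvPolynomial (Fin 2) R) (q : ℕ) (c : ℕ) : MvPolynomial (Fin 2) R :=
  if c < q then X 0 ^ c * X 1 ^ (q - 1 - c) * F 1
  else X 0 ^ (c - q) * X 1 ^ (2 * q - 1 - c) * F 0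

lemma Gb_hom {F : Fin 2 → MvPolynomial (Fin 2) R} {q : ℕ}
    (hF : ∀ i, (F i).IsHomogeneous q) {c : ℕ} (hc : c < 2 * q) :
    (Gb F q c).IsHomogeneous (2 * q - 1) := by
  unfold Gb
  split_ifs with h
  · have h2 := ((isHomogeneous_X_pow (R := R) (0 : Fin 2) c).mul
      (isHomogeneous_X_pow (R := R) (1 : Fin 2) (q - 1 - c))).mul (hF 1)
    have h3 : c + (q - 1 - c) + q = 2 * q - 1 := by omega
    rwa [h3] at h2
  · have h2 := ((isHomogeneous_X_pow (R := R) (0 : Fin 2) (c - q)).mul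
      (isHomogeneous_X_pow (R := R) (1 : Fin 2) (2 * q - 1 - c))).mul (hF 0)
    have h3 : c - q + (2 * q - 1 - c) + q = 2 * q - 1 := by omega
    rwa [h3] at h2

lemma Gb_rd {P : Ideal R} {F : Fin 2 → MvPolynomial (Fin 2) R} {q : ℕ}
    (hF : ∀ i, rd P (F i) = X i ^ q) {c : ℕ} (hc : c < 2 * q) :
    rd P (Gb F q c) = X 0 ^ c * X 1 ^ (2 * q - 1 - c) := by
  have h6 : rd P (X 0) = X 0 := map_X _ _
  have h7 : rd P (X 1) = X 1 := map_X _ _
  unfold Gb
  split_ifs with h
  · rw [map_mul, map_mul, map_pow, map_pow, hF, h6, h7, mul_assoc, ← pow_add]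
    congr 2
    omega
  · rw [map_mul, map_mul, map_pow, map_pow, hF, h6, h7, mul_right_comm, ← pow_add]
    congr 2
    omega

end

end Pool.Agent.H420R3
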