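import Mathlib
import Pool.Agent.H420R3.Chordal

/-!
Sums over all places; heights of vectors with two coordinates.
-/

set_option autoImplicit false
set_option linter.unusedSectionVars false

namespace Pool.Agent.H420R3

open NumberField Module

noncomputable section

variable {L : Type*} [Field L] [NumberField L]

/-- sup norm at an infinite place -/
def nmi (w : InfinitePlace L) (z : Fin 2 → L) : ℝ := max (w (z 0)) (w (z 1))

/-- sum over all places -/
def GS (a : InfinitePlace L → ℝ) (b : FinitePlace L → ℝ) : ℝ :=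
  ∑ w : InfinitePlace L, (w.mult : ℝ) * a w + ∑ᶠ v : FinitePlace L, b v

lemma sum_mult : ∑ w : InfinitePlace L, (w.mult : ℝ) = finrank ℚ L := by
  exact_mod_cast InfinitePlace.sum_mult_eq (K := L)

lemma GS_le {a a' : InfinitePlace L → ℝ} {b b' : FinitePlace L → ℝ} {c : ℝ}
    (ha : ∀ w, a w ≤ a' w + c) (hb : ∀ v, b v ≤ b' v) (hfb : (Function.support b).Finite)
    (hfb' : (Function.support b').Finite) : GS a b ≤ GS a' b' + finrank ℚ L * c := by
  unfold GS
  have h1 : ∑ w : InfinitePlace L, (w.mult : ℝ) * a w ≤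
      ∑ w : InfinitePlace L, (w.mult : ℝ) * a' w + finrank ℚ L * c := by
    rw [← sum_mult, Finset.sum_mul, ← Finset.sum_add_distrib]
    refine Finset.sum_le_sum fun w _ => ?_
    rw [← mul_add]
    exact mul_le_mul_of_nonneg_left (ha w) (by positivity)
  have h2 : ∑ᶠ v, b v ≤ ∑ᶠ v, b' v := finsum_le_finsum' hfb hfb' hb
  linarith

/-- comparison with a gain at finitely many finite places -/
lemma GS_le_sub {a a' : InfinitePlace L → ℝ} {b b' : FinitePlace L → ℝ} {c : ℝ}
    (ha : ∀ w, a w ≤ a' w + c) (T : Finset (FinitePlace L)) (g : FinitePlace L → ℝ)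
    (hb : ∀ v ∉ T, b v ≤ b' v) (hbT : ∀ v ∈ T, b v ≤ b' v - g v)
    (hfb : (Function.support b).Finite)
    (hfb' : (Function.support b').Finite) :
    GS a b ≤ GS a' b' + finrank ℚ L * c - ∑ v ∈ T, g v := by
  classical
  set g' : FinitePlace L → ℝ := fun v => if v ∈ T then g v else 0 with hg'
  have hfg : (Function.support g').Finite := by
    refine (Finset.finite_toSet T).subset fun v hv => ?_
    rw [Function.mem_support] at hv
    by_contra h
    exact hv (if_neg h)
  have h1 : ∑ᶠ v, g' v = ∑ v ∈ T, g v := by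
    rw [finsum_eq_sum_of_support_subset g' (s := T) (by
      intro v hv
      rw [Function.mem_support] at hv
      by_contra h
      exact hv (if_neg h))]
    exact Finset.sum_congr rfl fun v hv => if_pos hv
  have h2 : ∑ᶠ v, (b' v - g' v) = ∑ᶠ v, b' v - ∑ᶠ v, g' v := finsum_sub_distrib hfb' hfg
  have h3 := GS_le (a := a) (a' := a') (b := b) (b' := fun v => b' v - g' v) (c := c) ha (by
    intro v
    by_cases hv : v ∈ T
    · simp only [hg', if_pos hv]
      exact hbT v hv
    · simp only [hg', if_neg hv, sub_zero]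
      exact hb v hv) hfb (by
      refine (hfb'.union hfg).subset fun v hv => ?_
      rw [Function.mem_support] at hv
      rw [Set.mem_union, Function.mem_support, Function.mem_support]
      by_contra hcon
      push Not at hcon
      rw [hcon.1, hcon.2, sub_zero] at hv
      exact hv rfl)
  unfold GS at h3 ⊢
  rw [h2, h1] at h3
  linarith

lemma finprod_pos' {α : Type*} {f : α → ℝ} (hf : ∀ i, 0 < f i) : 0 < ∏ᶠ i, f i :=
  finprod_induction (fun x : ℝ => 0 < x) one_pos (fun _ _ hx hy => mul_pos hx hy) hf

lemma supp_log_v {x : L} (hx : x ≠ 0) :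
    (Function.support fun v : FinitePlace L => Real.log (v x)).Finite := by
  refine (FinitePlace.hasFiniteMulSupport hx).subset fun v hv => ?_
  rw [Function.mem_support] at hv
  rw [Function.mem_mulSupport]
  intro h
  apply hv
  rw [h, Real.log_one]

lemma supp_log_nm {z : Fin 2 → L} (hz : z ≠ 0) :
    (Function.support fun v : FinitePlace L => Real.log (nm v z)).Finite := by
  have h0 : (Function.support fun v : FinitePlace L => Real.log (nm v z)) ⊆
      {v | (z 0 ≠ 0 ∧ v (z 0) ≠ 1) ∨ (z 1 ≠ 0 ∧ v (z 1) ≠ 1)} := by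
    intro v hv
    rw [Function.mem_support] at hv
    rw [Set.mem_ofPred_eq]
    by_contra hcon
    push Not at hcon
    apply hv
    unfold nm
    by_cases h1 : z 0 = 0
    · have h2 : z 1 ≠ 0 := by
        intro h2
        apply hz
        funext i
        fin_cases i
        · exact h1
        · exact h2
      rw [h1, map_zero, hcon.2 h2]
      simp
    · rw [hcon.1 h1]
      by_cases h2 : z 1 = 0
      · rw [h2, map_zero]
        simp
      · rw [hcon.2 h2]
        simp
  refine Set.Finite.subset ?_ h0
  rw [Set.ofPred_or]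
  refine Set.Finite.union ?_ ?_
  · by_cases h : z 0 = 0
    · simp [h]
    · exact (FinitePlace.hasFiniteMulSupport h).subset fun v hv => hv.2
  · by_cases h : z 1 = 0
    · simp [h]
    · exact (FinitePlace.hasFiniteMulSupport h).subset fun v hv => hv.2

/-- the product formula -/
lemma GS_prod {x : L} (hx : x ≠ 0) :
    GS (fun w => Real.log (w x)) (fun v => Real.log (v x)) = 0 := by
  have h1 := prod_abs_eq_one hx
  have hw : ∀ w : InfinitePlace L, 0 < w x := fun w => InfinitePlace.pos_iff.mpr hx
  have hv : ∀ v : FinitePlace L, 0 < v x := fun v =>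
    lt_of_le_of_ne (v_nonneg v x) (Ne.symm (by simpa using hx))
  have h2 : (0 : ℝ) < ∏ᶠ v : FinitePlace L, v x := finprod_pos' hv
  have h3 := congrArg Real.log h1
  rw [Real.log_mul (Finset.prod_ne_zero_iff.mpr fun w _ => pow_ne_zero _ (hw w).ne') h2.ne',
    Real.log_prod (fun w _ => pow_ne_zero _ (hw w).ne'), Real.log_finprod hv, Real.log_one] at h3
  unfold GS
  rw [← h3]
  congr 1
  refine Finset.sum_congr rfl fun w _ => ?_
  rw [Real.log_pow]

lemma nmi_pos (w : InfinitePlace L) {z : Fin 2 → L} (hz : z ≠ 0) : 0 < nmi w z := by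
  obtain ⟨i, hi⟩ : ∃ i, z i ≠ 0 := Function.ne_iff.mp hz
  have h1 : 0 < w (z i) := InfinitePlace.pos_iff.mpr hi
  refine lt_of_lt_of_le h1 ?_
  unfold nmi
  fin_cases i
  · exact le_max_left _ _
  · exact le_max_right _ _

lemma le_nmi (w : InfinitePlace L) (z : Fin 2 → L) (i : Fin 2) : w (z i) ≤ nmi w z := by
  unfold nmi
  fin_cases i
  · exact le_max_left _ _
  · exact le_max_right _ _

lemma iSup_fin_two (f : Fin 2 → ℝ) : ⨆ i, f i = max (f 0) (f 1) := by
  apply le_antisymm
  · refine ciSup_le fun i => ?_
    fin_cases i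
    · exact le_max_left _ _
    · exact le_max_right _ _
  · exact max_le (le_ciSup (Finite.bddAbove_range f) 0) (le_ciSup (Finite.bddAbove_range f) 1)

lemma GS_height {z : Fin 2 → L} (hz : z ≠ 0) :
    GS (fun w => Real.log (nmi w z)) (fun v => Real.log (nm v z)) = Height.logHeight z := by
  have h1 := NumberField.mulHeight_eq hz
  have hw : ∀ w : InfinitePlace L, (⨆ i, w (z i)) = nmi w z := fun w => iSup_fin_two _
  have hv : ∀ v : FinitePlace L, (⨆ i, v (z i)) = nm v z := fun v => iSup_fin_two _
  simp only [hw, hv] at h1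
  have h2 : (0 : ℝ) < ∏ᶠ v : FinitePlace L, nm v z := finprod_pos' fun v => nm_pos v hz
  rw [Height.logHeight_eq_log_mulHeight, h1,
    Real.log_mul (Finset.prod_ne_zero_iff.mpr fun w _ => pow_ne_zero _ (nmi_pos w hz).ne') h2.ne',
    Real.log_prod (fun w _ => pow_ne_zero _ (nmi_pos w hz).ne'),
    Real.log_finprod fun v => nm_pos v hz]
  unfold GS
  congr 1
  refine Finset.sum_congr rfl fun w _ => ?_
  rw [Real.log_pow]

/-- linearity -/
lemma GS_add_sum {ι : Type*} (s : Finset ι) (c : ι → ℝ) (z : ι → Fin 2 → L)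
    (hz : ∀ i ∈ s, z i ≠ 0) :
    GS (fun w => ∑ i ∈ s, c i * Real.log (nmi w (z i)))
      (fun v => ∑ i ∈ s, c i * Real.log (nm v (z i))) =
      ∑ i ∈ s, c i * Height.logHeight (z i) := by
  classical
  induction s using Finset.induction_on with
  | empty => simp [GS]
  | insert a s ha ih =>
    have h1 := ih fun i hi => hz i (Finset.mem_insert_of_mem hi)
    have h2 := GS_height (hz a (Finset.mem_insert_self a s))
    rw [Finset.sum_insert ha, ← h1, ← h2]
    unfold GS
    simp only [Finset.sum_insert ha]
    rw [finsum_add_distrib, ← mul_finsum]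
    · simp only [mul_add, Finset.sum_add_distrib, Finset.mul_sum]
      have : ∀ w : InfinitePlace L, (w.mult : ℝ) * (c a * Real.log (nmi w (z a))) =
          c a * ((w.mult : ℝ) * Real.log (nmi w (z a))) := fun w => by ring
      simp only [this]
      ring
    · refine (supp_log_nm (hz a (Finset.mem_insert_self a s))).subset fun v hv => ?_
      rw [Function.mem_support] at hv ⊢
      intro h
      rw [h, mul_zero] at hv
      exact hv rfl
    · have h3 : (Function.support fun v : FinitePlace L => ∑ i ∈ s, c i * Real.log (nm v (z i))) ⊆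
          ⋃ i ∈ s, Function.support fun v : FinitePlace L => Real.log (nm v (z i)) := by
        intro v hv
        rw [Function.mem_support] at hv
        obtain ⟨i, hi, hne⟩ := Finset.exists_ne_zero_of_sum_ne_zero hv
        simp only [Set.mem_iUnion]
        exact ⟨i, hi, right_ne_zero_of_mul hne⟩
      refine Set.Finite.subset ?_ h3
      exact Set.Finite.biUnion (Finset.finite_toSet s) fun i hi =>
        supp_log_nm (hz i (Finset.mem_insert_of_mem hi))

lemma supp_sum {ι : Type*} (s : Finset ι) (c : ι → ℝ) (z : ι → Fin 2 → L)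
    (hz : ∀ i ∈ s, z i ≠ 0) :
    (Function.support fun v : FinitePlace L => ∑ i ∈ s, c i * Real.log (nm v (z i))).Finite := by
  have h3 : (Function.support fun v : FinitePlace L => ∑ i ∈ s, c i * Real.log (nm v (z i))) ⊆
      ⋃ i ∈ s, Function.support fun v : FinitePlace L => Real.log (nm v (z i)) := by
    intro v hv
    rw [Function.mem_support] at hv
    obtain ⟨i, hi, hne⟩ := Finset.exists_ne_zero_of_sum_ne_zero hv
    simp only [Set.mem_iUnion]
    exact ⟨i, hi, right_ne_zero_of_mul hne⟩
  refine Set.Finite.subset ?_ h3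
  exact Set.Finite.biUnion (Finset.finite_toSet s) fun i hi => supp_log_nm (hz i hi)

end

end Pool.Agent.H420R3
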