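import Mathlib
import Pool.Agent.H420R3.Forms
import Pool.Agent.H420R3.Hts
import Pool.Agent.H420R3.Depth

/-!
Upper bound for the energy of `q ^ k` points.
-/

set_option autoImplicit false
set_option linter.unusedSectionVars false

namespace Pool.Agent.H420R3

open NumberField Module MvPolynomial IsDedekindDomain

noncomputable section

variable {K : Type*} [Field K] [NumberField K]
variable {M : Type*} [Field M] [NumberField M] [Algebra K M]

lemma perm_prod {N : ℕ} (b : Fin N → ℝ) (σ : Equiv.Perm (Fin N)) :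
    ∏ i, b (σ i) = ∏ i, b i := Equiv.prod_comp σ b

lemma det_le_inf (w : InfinitePlace M) {N : ℕ} (A : Matrix (Fin N) (Fin N) M) (b : Fin N → ℝ)
    (h : ∀ i j, w (A i j) ≤ b i) : w A.det ≤ N.factorial * ∏ i, b i := by
  rw [Matrix.det_apply]
  have h1 : w (∑ σ : Equiv.Perm (Fin N), Equiv.Perm.sign σ • ∏ i, A (σ i) i) ≤
      ∑ σ : Equiv.Perm (Fin N), w (Equiv.Perm.sign σ • ∏ i, A (σ i) i) := by
    rw [← InfinitePlace.norm_embedding_eq, map_sum]
    refine (norm_sum_le _ _).trans (le_of_eq ?_)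
    refine Finset.sum_congr rfl fun σ _ => ?_
    rw [InfinitePlace.norm_embedding_eq]
  refine h1.trans ?_
  have h2 : ∀ σ ∈ (Finset.univ : Finset (Equiv.Perm (Fin N))),
      w (Equiv.Perm.sign σ • ∏ i, A (σ i) i) ≤ ∏ i, b i := by
    intro σ _
    have h3 : w (Equiv.Perm.sign σ • ∏ i, A (σ i) i) = ∏ i, w (A (σ i) i) := by
      rw [Units.smul_def, zsmul_eq_mul, map_mul, map_prod]
      rcases Int.units_eq_one_or (Equiv.Perm.sign σ) with h | h
      · simp [h]
      · rw [h, Units.val_neg, Units.val_one, Int.cast_neg, Int.cast_one]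
        have : w (-1 : M) = 1 := by
          rw [← InfinitePlace.norm_embedding_eq, map_neg, norm_neg, map_one, norm_one]
        rw [this, one_mul]
    rw [h3, ← perm_prod b σ]
    exact Finset.prod_le_prod (fun i _ => by positivity) fun i _ => h (σ i) i
  refine (Finset.sum_le_sum h2).trans (le_of_eq ?_)
  rw [Finset.sum_const, Finset.card_univ, Fintype.card_perm, Fintype.card_fin, nsmul_eq_mul]

lemma det_le_fin (v : FinitePlace M) {N : ℕ} (A : Matrix (Fin N) (Fin N) M) (b : Fin N → ℝ)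
    (h : ∀ i j, v (A i j) ≤ b i) : v A.det ≤ ∏ i, b i := by
  rcases Nat.eq_zero_or_pos N with rfl | hN
  · simp
  have hb : ∀ i, 0 ≤ b i := fun i => (v_nonneg v _).trans (h i ⟨0, hN⟩)
  rw [Matrix.det_apply]
  refine v_sum_le v _ _ (Finset.prod_nonneg fun i _ => hb i) fun σ _ => ?_
  have h3 : v (Equiv.Perm.sign σ • ∏ i, A (σ i) i) = ∏ i, v (A (σ i) i) := by
    rw [Units.smul_def, zsmul_eq_mul, map_mul, map_prod]
    rcases Int.units_eq_one_or (Equiv.Perm.sign σ) with h | h
    · simp [h]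
    · rw [h, Units.val_neg, Units.val_one, Int.cast_neg, Int.cast_one, v_neg, map_one, one_mul]
  rw [h3, ← perm_prod b σ]
  exact Finset.prod_le_prod (fun i _ => v_nonneg v _) fun i _ => h (σ i) i

lemma sum_symm {N : ℕ} (f : Fin N → Fin N → ℝ) (hf : ∀ i j, f i j = f j i) :
    ∑ i, ∑ j ∈ Finset.univ.erase i, f i j = 2 * ∑ i, ∑ j ∈ Finset.Ioi i, f j i := by
  have h1 : ∀ i : Fin N, ∑ j ∈ Finset.univ.erase i, f i j =
      ∑ j ∈ Finset.Ioi i, f j i + ∑ j ∈ Finset.Iio i, f i j := by
    intro i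
    have h2 : (Finset.univ.erase i : Finset (Fin N)) = Finset.Ioi i ∪ Finset.Iio i := by
      ext j
      simp only [Finset.mem_erase, Finset.mem_univ, and_true, Finset.mem_union,
        Finset.mem_Ioi, Finset.mem_Iio]
      constructor
      · intro h
        rcases lt_or_gt_of_ne h with h | h
        · exact Or.inr h
        · exact Or.inl h
      · rintro (h | h)
        · exact ne_of_gt h
        · exact ne_of_lt h
    have h3 : Disjoint (Finset.Ioi i) (Finset.Iio i) := by
      rw [Finset.disjoint_left]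
      intro j hj hj'
      rw [Finset.mem_Ioi] at hj
      rw [Finset.mem_Iio] at hj'
      exact absurd hj (not_lt.mpr hj'.le)
    rw [h2, Finset.sum_union h3]
    congr 1
    exact Finset.sum_congr rfl fun j _ => hf i j
  rw [Finset.sum_congr rfl fun i _ => h1 i, Finset.sum_add_distrib]
  have h4 : ∑ i : Fin N, ∑ j ∈ Finset.Iio i, f i j = ∑ i : Fin N, ∑ j ∈ Finset.Ioi i, f j i := by
    rw [Finset.sum_sigma', Finset.sum_sigma']
    refine Finset.sum_bij' (fun x _ => ⟨x.2, x.1⟩) (fun x _ => ⟨x.2, x.1⟩) ?_ ?_ ?_ ?_ ?_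
    · rintro ⟨i, j⟩ h
      simpa using h
    · rintro ⟨i, j⟩ h
      simpa using h
    · rintro ⟨i, j⟩ _
      rfl
    · rintro ⟨i, j⟩ _
      rfl
    · rintro ⟨i, j⟩ _
      rfl
  rw [h4]
  ring

lemma sum_pair {N : ℕ} (a : Fin N → ℝ) :
    ∑ i, ∑ j ∈ Finset.Ioi i, (a j + a i) = ((N : ℝ) - 1) * ∑ i, a i := by
  have h1 := sum_symm (fun i j => a i + a j) (fun i j => add_comm _ _)
  have h2 : ∑ i : Fin N, ∑ j ∈ Finset.univ.erase i, (a i + a j) = 2 * (((N : ℝ) - 1) * ∑ i, a i) := by
    have h3 : ∀ i : Fin N, ∑ j ∈ Finset.univ.erase i, (a i + a j) =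
        ((N : ℝ) - 2) * a i + ∑ j, a j := by
      intro i
      have h4 := Finset.sum_erase_eq_sub (f := fun j => a i + a j) (Finset.mem_univ i)
      rw [h4, Finset.sum_add_distrib, Finset.sum_const, Finset.card_univ, Fintype.card_fin,
        nsmul_eq_mul]
      ring
    rw [Finset.sum_congr rfl fun i _ => h3 i, Finset.sum_add_distrib, ← Finset.mul_sum,
      Finset.sum_const, Finset.card_univ, Fintype.card_fin, nsmul_eq_mul]
    ring
  linarith

variable {F : Fin 2 → MvPolynomial (Fin 2) (𝓞 K)}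
variable {P : Ideal (𝓞 K)} [hP : P.IsMaximal] {q : ℕ}

lemma Good.two_le (h : Good P F q) (hP0 : P ≠ ⊥) : 2 ≤ q := by
  obtain ⟨k, hk, hq⟩ := h.pow
  have h1 : 1 < P.absNorm := by
    have := HeightOneSpectrum.one_lt_absNorm (⟨P, inferInstance, hP0⟩ : HeightOneSpectrum (𝓞 K))
    exact this
  rw [hq]
  calc 2 ≤ P.absNorm := h1
    _ ≤ P.absNorm ^ k := Nat.le_self_pow (by omega) _

lemma Good.rd_eq (h : Good P F q) (i : Fin 2) : rd P (F i) = X i ^ q := by
  have h1 : rd P (X i ^ q) = X i ^ q := by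
    rw [map_pow]
    congr 1
    exact map_X _ _
  rw [← h1]
  exact rd_eq_iff.mpr (h.red i)

/-- a place above `P` exists in every extension, so the forms have no common zero -/
lemma TP_nonempty (hP0 : P ≠ ⊥) : (TP M P).Nonempty := by
  rw [Finset.nonempty_iff_ne_empty]
  intro h
  have h1 := sum_ew (M := M) hP0
  rw [h, Finset.sum_empty] at h1
  have h2 : (0 : ℝ) < finrank K M := by exact_mod_cast (finrank_pos : 0 < finrank K M)
  have h3 : 1 < P.absNorm := by
    have := HeightOneSpectrum.one_lt_absNorm (⟨P, inferInstance, hP0⟩ : HeightOneSpectrum (𝓞 K))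
    exact this
  have h4 : 0 < Real.log P.absNorm := Real.log_pos (by exact_mod_cast h3)
  have := mul_pos h2 h4
  linarith

lemma Good.act_ne_zero (h : Good P F q) (hP0 : P ≠ ⊥) {z : Fin 2 → M} (hz : z ≠ 0) :
    act F z ≠ 0 := by
  obtain ⟨v, hv⟩ := TP_nonempty (M := M) hP0
  exact (h.red_at hP0 hv).act_ne_zero hz

lemma Good.iter_ne_zero (h : Good P F q) (hP0 : P ≠ ⊥) {z : Fin 2 → M} (hz : z ≠ 0) (n : ℕ) :
    (act F)^[n] z ≠ 0 := by
  induction n with
  | zero => exact hz
  | succ n ih =>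
    rw [Function.iterate_succ_apply']
    exact h.act_ne_zero hP0 ih

lemma nm_iter {v : FinitePlace M} {ρ : ℝ} (hR : Red v F q ρ) {z : Fin 2 → M} (hz : z ≠ 0)
    (n : ℕ) : nm v ((act F)^[n] z) = nm v z ^ (q ^ n) := by
  induction n with
  | zero => simp
  | succ n ih =>
    rw [Function.iterate_succ_apply', hR.nm_act (hR.iter_ne_zero hz n), ih, ← pow_mul, pow_succ]

/-- upper bound for the energy, from a family of forms congruent to the monomials -/
lemma Good.energyG (h : Good P F q) (hP0 : P ≠ ⊥) {n k : ℕ} {e : ℕ → ℕ}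
    (he : ∑ l ∈ Finset.range k, e l * q ^ l = n)
    (G : Fin (n + 1) → MvPolynomial (Fin 2) (𝓞 K)) (hGh : ∀ a, (G a).IsHomogeneous n)
    (hGr : ∀ a : Fin (n + 1), rd P (G a) = X 0 ^ a.1 * X 1 ^ a.rev.1)
    (hGb : ∀ (f : M →*₀ ℝ), (∀ x, 0 ≤ f x) → ∀ a (z : Fin 2 → M), f (aeval z (G a)) ≤
      ∏ l ∈ Finset.range k, max (f ((act F)^[l] z 0)) (f ((act F)^[l] z 1)) ^ (e l))
    (p : Fin (n + 1) → Option M) (hp : Function.Injective p) :
    ∑ v ∈ TP M P, ∑ i, ∑ j ∈ Finset.univ.erase i, dl v (p i) (p j) ≤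
      2 * (finrank ℚ M * Real.log (n + 1).factorial +
        ∑ x ∈ (Finset.univ : Finset (Fin (n + 1))) ×ˢ Finset.range k,
          (e x.2 : ℝ) * Height.logHeight ((act F)^[x.2] (rep (p x.1)))) := by
  classical
  have hdet : (BM G).det ∉ P := det_BM_notMem (Ideal.IsPrime.ne_top inferInstance) hGr
  have hdet0 : (BM G).det ≠ 0 := by
    intro h0
    rw [h0] at hdet
    exact hdet (Submodule.zero_mem _)
  set z : Fin (n + 1) → Fin 2 → M := fun i => rep (p i) with hz
  set A : Matrix (Fin (n + 1)) (Fin (n + 1)) M := Matrix.of fun i a => aeval (z i) (G a) with hA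
  have hAdet := det_eval hGh z
  rw [← hA] at hAdet
  have hw : ∀ i j : Fin (n + 1), z j 0 * z i 1 - z i 0 * z j 1 = wdg (z j) (z i) := by
    intro i j
    unfold wdg
    ring
  simp only [hw] at hAdet
  have hwne : ∀ i, ∀ j ∈ Finset.Ioi i, wdg (z j) (z i) ≠ 0 := by
    intro i j hj h0
    rw [Finset.mem_Ioi] at hj
    have := hp (wdg_rep_eq_zero.mp h0)
    rw [this] at hj
    exact lt_irrefl _ hj
  have hB0 : algebraMap (𝓞 K) M (BM G).det ≠ 0 := by
    rw [Ne, FaithfulSMul.algebraMap_eq_zero_iff]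
    exact hdet0
  have hA0 : A.det ≠ 0 := by
    rw [hAdet]
    refine mul_ne_zero (Finset.prod_ne_zero_iff.mpr fun i _ =>
      Finset.prod_ne_zero_iff.mpr fun j hj => hwne i j hj) hB0
  have hzne : ∀ x : Fin (n + 1) × ℕ, (act F)^[x.2] (z x.1) ≠ 0 := fun x =>
    h.iter_ne_zero hP0 (rep_ne_zero _) _
  -- the local bounds
  set s := (Finset.univ : Finset (Fin (n + 1))) ×ˢ Finset.range k with hs
  set c : Fin (n + 1) × ℕ → ℝ := fun x => (e x.2 : ℝ) with hc
  set zz : Fin (n + 1) × ℕ → Fin 2 → M := fun x => (act F)^[x.2] (z x.1) with hzz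
  have hlogprod : ∀ f : (Fin 2 → M) → ℝ, (∀ x, 0 < f (zz x)) →
      Real.log (∏ i, ∏ l ∈ Finset.range k, f (zz (i, l)) ^ (e l)) =
      ∑ x ∈ s, c x * Real.log (f (zz x)) := by
    intro f hf
    rw [Real.log_prod (fun i _ => Finset.prod_ne_zero_iff.mpr fun l _ =>
      pow_ne_zero _ (hf _).ne'), hs, Finset.sum_product]
    refine Finset.sum_congr rfl fun i _ => ?_
    rw [Real.log_prod (fun l _ => pow_ne_zero _ (hf _).ne')]
    refine Finset.sum_congr rfl fun l _ => ?_
    rw [Real.log_pow]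
  have hinf : ∀ w : InfinitePlace M, Real.log (w A.det) ≤
      ∑ x ∈ s, c x * Real.log (nmi w (zz x)) + Real.log (n + 1).factorial := by
    intro w
    have h1 : w A.det ≤ (n + 1).factorial *
        ∏ i, ∏ l ∈ Finset.range k, nmi w (zz (i, l)) ^ (e l) := by
      apply det_le_inf
      intro i j
      exact hGb (w.1.toMonoidWithZeroHom) (fun x => w.1.nonneg x) j (z i)
    have h2 : 0 < w A.det := InfinitePlace.pos_iff.mpr hA0
    have h3 := Real.log_le_log h2 h1
    have h4 : 0 < ∏ i : Fin (n + 1), ∏ l ∈ Finset.range k, nmi w (zz (i, l)) ^ (e l) :=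
      Finset.prod_pos fun i _ => Finset.prod_pos fun l _ => pow_pos (nmi_pos w (hzne _)) _
    rw [Real.log_mul (by positivity) h4.ne', hlogprod (nmi w) fun x => nmi_pos w (hzne x)] at h3
    linarith
  have hfin : ∀ v : FinitePlace M, Real.log (v A.det) ≤
      ∑ x ∈ s, c x * Real.log (nm v (zz x)) := by
    intro v
    have h1 : v A.det ≤ ∏ i, ∏ l ∈ Finset.range k, nm v (zz (i, l)) ^ (e l) := by
      apply det_le_fin
      intro i j
      exact hGb (v.1.toMonoidWithZeroHom) (fun x => v.1.nonneg x) j (z i)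
    have h2 : 0 < v A.det := lt_of_le_of_ne (v_nonneg v _) (Ne.symm (by simpa using hA0))
    have h3 := Real.log_le_log h2 h1
    rwa [hlogprod (nm v) fun x => nm_pos v (hzne x)] at h3
  have hTP : ∀ v ∈ TP M P, Real.log (v A.det) ≤
      ∑ x ∈ s, c x * Real.log (nm v (zz x)) -
        (∑ i, ∑ j ∈ Finset.univ.erase i, dl v (p i) (p j)) / 2 := by
    intro v hv
    have hR := h.red_at hP0 hv
    have hvne : ∀ {x : M}, x ≠ 0 → v x ≠ 0 := fun hx => by simpa using hx
    rw [hAdet, map_mul, Real.log_mul (hvne (Finset.prod_ne_zero_iff.mpr fun i _ =>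
      Finset.prod_ne_zero_iff.mpr fun j hj => hwne i j hj)) (hvne hB0)]
    have h1 : Real.log (v (algebraMap (𝓞 K) M (BM G).det)) ≤ 0 :=
      Real.log_nonpos (v_nonneg v _) (coeff_le_one v _)
    have h2 : Real.log (v (∏ i : Fin (n + 1), ∏ j ∈ Finset.Ioi i, wdg (z j) (z i))) =
        ∑ i : Fin (n + 1), ∑ j ∈ Finset.Ioi i,
          ((Real.log (nm v (z j)) + Real.log (nm v (z i))) - dl v (p j) (p i)) := by
      rw [map_prod, Real.log_prod (fun i _ => by
        rw [map_prod]
        exact Finset.prod_ne_zero_iff.mpr fun j hj => hvne (hwne i j hj))]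
      refine Finset.sum_congr rfl fun i _ => ?_
      rw [map_prod, Real.log_prod fun j hj => hvne (hwne i j hj)]
      refine Finset.sum_congr rfl fun j hj => ?_
      have h3 := nm_pos v (rep_ne_zero (p j))
      have h4 := nm_pos v (rep_ne_zero (p i))
      have h5 : v (wdg (z j) (z i)) = dv v (p j) (p i) * (nm v (z j) * nm v (z i)) := by
        unfold dv dd
        rw [div_mul_cancel₀ _ (mul_pos h3 h4).ne']
      have h6 : dv v (p j) (p i) ≠ 0 := by
        rw [Ne, dv_eq_zero]
        intro h7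
        rw [Finset.mem_Ioi] at hj
        have := hp h7
        rw [this] at hj
        exact lt_irrefl _ hj
      rw [h5, Real.log_mul h6 (mul_pos h3 h4).ne', Real.log_mul h3.ne' h4.ne']
      unfold dl
      ring
    rw [h2]
    simp only [Finset.sum_sub_distrib]
    rw [sum_pair (fun i => Real.log (nm v (z i))),
      sum_symm (fun i j => dl v (p i) (p j)) fun i j => dl_comm v _ _]
    have h3 : ∑ x ∈ s, c x * Real.log (nm v (zz x)) =
        (((n + 1 : ℕ) : ℝ) - 1) * ∑ i, Real.log (nm v (z i)) := by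
      rw [hs, Finset.sum_product, Finset.mul_sum]
      refine Finset.sum_congr rfl fun i _ => ?_
      have h4 : ∀ l ∈ Finset.range k, c (i, l) * Real.log (nm v (zz (i, l))) =
          ((e l * q ^ l : ℕ) : ℝ) * Real.log (nm v (z i)) := by
        intro l _
        simp only [hc, hzz]
        rw [nm_iter hR (rep_ne_zero _) l, Real.log_pow]
        push_cast
        ring
      rw [Finset.sum_congr rfl h4, ← Finset.sum_mul, ← Nat.cast_sum, he]
      push_cast
      ring
    rw [h3]
    have h4 : ∑ i : Fin (n + 1), ∑ j ∈ Finset.Ioi i, dl v (p j) (p i) =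
        2 * (∑ i : Fin (n + 1), ∑ j ∈ Finset.Ioi i, dl v (p j) (p i)) / 2 := by ring
    linarith
  have h1 := GS_le_sub (a := fun w => Real.log (w A.det))
    (a' := fun w => ∑ x ∈ s, c x * Real.log (nmi w (zz x)))
    (b := fun v => Real.log (v A.det)) (b' := fun v => ∑ x ∈ s, c x * Real.log (nm v (zz x)))
    (c := Real.log (n + 1).factorial) hinf (TP M P)
    (fun v => (∑ i, ∑ j ∈ Finset.univ.erase i, dl v (p i) (p j)) / 2)
    (fun v _ => hfin v) hTP (supp_log_v hA0) (supp_sum s c zz fun x _ => hzne x)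
  rw [GS_prod hA0, GS_add_sum s c zz fun x _ => hzne x, ← Finset.sum_div] at h1
  linarith

/-- upper bound for the energy of `q ^ k` points -/
lemma Good.energyN (h : Good P F q) (hP0 : P ≠ ⊥) {n k : ℕ} (hn : n + 1 = q ^ k)
    (p : Fin (n + 1) → Option M) (hp : Function.Injective p) :
    ∑ v ∈ TP M P, ∑ i, ∑ j ∈ Finset.univ.erase i, dl v (p i) (p j) ≤
      2 * (finrank ℚ M * Real.log (n + 1).factorial +
        ∑ x ∈ (Finset.univ : Finset (Fin (n + 1))) ×ˢ Finset.range k,
          ((q - 1 : ℕ) : ℝ) * Height.logHeight ((act F)^[x.2] (rep (p x.1)))) := by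
  have hq2 := h.two_le hP0
  have hq1 : 1 ≤ q := by omega
  refine h.energyG hP0 (e := fun _ => q - 1) ?_ (fun a => Gd F q k a) ?_ ?_ ?_ p hp
  · have h1 : ∑ l ∈ Finset.range k, (q - 1) * q ^ l + 1 = q ^ k := by
      clear hn hp p
      induction k with
      | zero => simp
      | succ k ih =>
        rw [Finset.sum_range_succ, add_right_comm, ih, pow_succ, Nat.sub_mul]
        have : 1 * q ^ k ≤ q * q ^ k := Nat.mul_le_mul_right _ hq1
        rw [mul_comm (q ^ k) q]
        omega
    omega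
  · intro a
    have := Gd_hom hq1 h.hom k a.1
    rwa [← hn, Nat.add_sub_cancel] at this
  · intro a
    have := Gd_rd hq1 h.rd_eq k a.1 (by rw [← hn]; exact a.2)
    rw [← hn, Nat.add_sub_cancel] at this
    rw [this, Fin.val_rev]
    congr 2
    omega
  · intro f hf a z
    exact Gd_bound f hf F hq1 k a z

/-- upper bound for the energy of a small set of points -/
lemma Good.energyS (h : Good P F q) (hP0 : P ≠ ⊥) {n : ℕ}
    (p : Fin (n + 1) → Option M) (hp : Function.Injective p) :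
    ∑ v ∈ TP M P, ∑ i, ∑ j ∈ Finset.univ.erase i, dl v (p i) (p j) ≤
      2 * (finrank ℚ M * Real.log (n + 1).factorial +
        ∑ x ∈ (Finset.univ : Finset (Fin (n + 1))) ×ˢ Finset.range 1,
          (n : ℝ) * Height.logHeight ((act F)^[x.2] (rep (p x.1)))) := by
  refine h.energyG hP0 (e := fun _ => n) (by simp)
    (fun a => X 0 ^ a.1 * X 1 ^ a.rev.1) ?_ ?_ ?_ p hp
  · intro a
    have h2 := (isHomogeneous_X_pow (R := 𝓞 K) (0 : Fin 2) a.1).mul
      (isHomogeneous_X_pow (R := 𝓞 K) (1 : Fin 2) a.rev.1)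
    have h3 : a.1 + a.rev.1 = n := by
      rw [Fin.val_rev]
      omega
    rwa [h3] at h2
  · intro a
    rw [map_mul, map_pow, map_pow]
    congr 2
    · exact map_X _ _
    · exact map_X _ _
  · intro f hf a z
    simp only [Finset.range_one, Finset.prod_singleton, Function.iterate_zero, id_eq, map_mul,
      map_pow, aeval_X]
    have h3 : a.1 + a.rev.1 = n := by
      rw [Fin.val_rev]
      omega
    calc f (z 0) ^ a.1 * f (z 1) ^ a.rev.1 ≤
        max (f (z 0)) (f (z 1)) ^ a.1 * max (f (z 0)) (f (z 1)) ^ a.rev.1 := by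
          apply mul_le_mul
          · exact pow_le_pow_left₀ (hf _) (le_max_left _ _) _
          · exact pow_le_pow_left₀ (hf _) (le_max_right _ _) _
          · exact pow_nonneg (hf _) _
          · exact pow_nonneg (le_max_of_le_left (hf _)) _
      _ = _ := by rw [← pow_add, h3]

end

end Pool.Agent.H420R3
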