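import Mathlib
import Pool.Agent.H420R3.EnergyN

/-!
Canonical heights.
-/

set_option autoImplicit false
set_option linter.unusedSectionVars false

namespace Pool.Agent.H420R3

open NumberField Module MvPolynomial IsDedekindDomain Filter Topology

noncomputable section

variable {K : Type*} [Field K] [NumberField K]

/-- size of an element of the base ring -/
def sz (a : 𝓞 K) : ℝ := ∑ w : InfinitePlace K, w (a : K)

lemma sz_nonneg (a : 𝓞 K) : 0 ≤ sz a := Finset.sum_nonneg fun w _ => by positivity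

variable {M : Type*} [Field M] [NumberField M] [Algebra K M]

lemma inf_le_sz (w : InfinitePlace M) (a : 𝓞 K) : w (algebraMap (𝓞 K) M a) ≤ sz a := by
  have h1 : w (algebraMap (𝓞 K) M a) = (w.comap (algebraMap K M)) (a : K) := rfl
  rw [h1]
  unfold sz
  exact Finset.single_le_sum (f := fun w' : InfinitePlace K => w' (a : K))
    (fun w' _ => by positivity) (Finset.mem_univ _)

lemma inf_sum_le (w : InfinitePlace M) {ι : Type*} (s : Finset ι) (g : ι → M) :
    w (∑ i ∈ s, g i) ≤ ∑ i ∈ s, w (g i) := by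
  rw [← InfinitePlace.norm_embedding_eq, map_sum]
  refine (norm_sum_le _ _).trans (le_of_eq ?_)
  refine Finset.sum_congr rfl fun σ _ => ?_
  rw [InfinitePlace.norm_embedding_eq]

/-- a form is bounded at the infinite places -/
lemma inf_form_le (w : InfinitePlace M) {n : ℕ} {G : MvPolynomial (Fin 2) (𝓞 K)}
    (hG : G.IsHomogeneous n) (z : Fin 2 → M) :
    w (aeval z G) ≤ (∑ j : Fin (n + 1), sz (G.coeff (mo j))) * nmi w z ^ n := by
  rw [aeval_form hG, Finset.sum_mul]
  refine (inf_sum_le w _ _).trans (Finset.sum_le_sum fun j _ => ?_)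
  rw [map_mul, map_mul, map_pow, map_pow]
  apply mul_le_mul (inf_le_sz w _) _ (by positivity) (sz_nonneg _)
  have h3 : j.1 + j.rev.1 = n := by
    rw [Fin.val_rev]
    omega
  have h0 : 0 ≤ nmi w z := le_trans (by positivity : (0 : ℝ) ≤ w (z 0)) (le_nmi w z 0)
  calc w (z 0) ^ j.1 * w (z 1) ^ j.rev.1 ≤ nmi w z ^ j.1 * nmi w z ^ j.rev.1 := by
        gcongr
        · exact le_nmi w z 0
        · exact le_nmi w z 1
    _ = nmi w z ^ n := by rw [← pow_add, h3]

lemma fin_form_le (v : FinitePlace M) {n : ℕ} {G : MvPolynomial (Fin 2) (𝓞 K)}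
    (hG : G.IsHomogeneous n) (z : Fin 2 → M) : v (aeval z G) ≤ nm v z ^ n := by
  rw [aeval_form hG]
  refine v_sum_le v _ _ (pow_nonneg (nm_nonneg v z) _) fun j _ => ?_
  rw [map_mul, map_mul, map_pow, map_pow]
  have h3 : j.1 + j.rev.1 = n := by
    rw [Fin.val_rev]
    omega
  have h0 := nm_nonneg v z
  calc v (algebraMap (𝓞 K) M (G.coeff (mo j))) * (v (z 0) ^ j.1 * v (z 1) ^ j.rev.1) ≤
      1 * (nm v z ^ j.1 * nm v z ^ j.rev.1) := by
        gcongr
        · exact coeff_le_one v _
        · exact le_nm v z 0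
        · exact le_nm v z 1
    _ = nm v z ^ n := by rw [← pow_add, h3, one_mul]

variable {F : Fin 2 → MvPolynomial (Fin 2) (𝓞 K)}
variable {P : Ideal (𝓞 K)} [hP : P.IsMaximal] {q : ℕ}

/-- upper constant -/
def cup (F : Fin 2 → MvPolynomial (Fin 2) (𝓞 K)) (q : ℕ) : ℝ :=
  1 + ∑ i, ∑ j : Fin (q + 1), sz ((F i).coeff (mo j))

lemma one_le_cup (F : Fin 2 → MvPolynomial (Fin 2) (𝓞 K)) (q : ℕ) : 1 ≤ cup F q := by
  unfold cup
  have : 0 ≤ ∑ i, ∑ j : Fin (q + 1), sz ((F i).coeff (mo j)) :=
    Finset.sum_nonneg fun i _ => Finset.sum_nonneg fun j _ => sz_nonneg _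
  linarith

lemma Good.height_upper (h : Good P F q) (hP0 : P ≠ ⊥) {z : Fin 2 → M} (hz : z ≠ 0) :
    Height.logHeight (act F z) ≤ q * Height.logHeight z + finrank ℚ M * Real.log (cup F q) := by
  have hz' := h.act_ne_zero hP0 hz
  have hcup := one_le_cup F q
  have h1 := GS_le (a := fun w => Real.log (nmi w (act F z)))
    (a' := fun w => ∑ i ∈ {()}, (fun _ => (q : ℝ)) i * Real.log (nmi w ((fun _ => z) i)))
    (b := fun v => Real.log (nm v (act F z)))
    (b' := fun v => ∑ i ∈ {()}, (fun _ => (q : ℝ)) i * Real.log (nm v ((fun _ => z) i)))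
    (c := Real.log (cup F q)) ?_ ?_ (supp_log_nm hz') (supp_sum _ _ _ fun _ _ => hz)
  · rw [GS_height hz', GS_add_sum _ _ _ fun _ _ => hz] at h1
    simpa using h1
  · intro w
    simp only [Finset.sum_singleton]
    have h2 : nmi w (act F z) ≤ cup F q * nmi w z ^ q := by
      have h3 : ∀ i, w (act F z i) ≤ cup F q * nmi w z ^ q := by
        intro i
        refine (inf_form_le w (h.hom i) z).trans ?_
        have h0 := nmi_pos w hz
        gcongr
        unfold cup
        have := Finset.single_le_sum (f := fun i => ∑ j : Fin (q + 1), sz ((F i).coeff (mo j)))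
          (fun i _ => Finset.sum_nonneg fun j _ => sz_nonneg _) (Finset.mem_univ i)
        linarith
      exact max_le (h3 0) (h3 1)
    have h3 := Real.log_le_log (nmi_pos w hz') h2
    have h4 := nmi_pos w hz
    rw [Real.log_mul (by linarith) (by positivity), Real.log_pow] at h3
    linarith
  · intro v
    simp only [Finset.sum_singleton]
    have h2 : nm v (act F z) ≤ nm v z ^ q := nm_le v fun i => fin_form_le v (h.hom i) z
    have h3 := Real.log_le_log (nm_pos v hz') h2
    rwa [Real.log_pow] at h3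

/-- lower constant -/
def clo (F : Fin 2 → MvPolynomial (Fin 2) (𝓞 K)) (q : ℕ) : ℝ :=
  1 + ∑ j : Fin (2 * q - 1 + 1), ∑ a : Fin (2 * q - 1 + 1),
    sz ((BM fun c : Fin (2 * q - 1 + 1) => Gb F q c).adjugate j a)

lemma one_le_clo (F : Fin 2 → MvPolynomial (Fin 2) (𝓞 K)) (q : ℕ) : 1 ≤ clo F q := by
  unfold clo
  have : 0 ≤ ∑ j : Fin (2 * q - 1 + 1), ∑ a : Fin (2 * q - 1 + 1),
      sz ((BM fun c : Fin (2 * q - 1 + 1) => Gb F q c).adjugate j a) :=
    Finset.sum_nonneg fun i _ => Finset.sum_nonneg fun j _ => sz_nonneg _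
  linarith

/-- the Bezout identity -/
lemma Good.bezout (h : Good P F q) (hP0 : P ≠ ⊥) (z : Fin 2 → M)
    (j : Fin (2 * q - 1 + 1)) :
    algebraMap (𝓞 K) M (BM fun c : Fin (2 * q - 1 + 1) => Gb F q c).det *
      (z 0 ^ j.1 * z 1 ^ j.rev.1) =
    ∑ a : Fin (2 * q - 1 + 1), algebraMap (𝓞 K) M
      ((BM fun c : Fin (2 * q - 1 + 1) => Gb F q c).adjugate j a) * aeval z (Gb F q a) := by
  classical
  have hq := h.two_le hP0
  set G : Fin (2 * q - 1 + 1) → MvPolynomial (Fin 2) (𝓞 K) := fun c => Gb F q c with hG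
  have hGh : ∀ a, (G a).IsHomogeneous (2 * q - 1) := fun a => Gb_hom h.hom (by omega)
  set B := (BM G).map (algebraMap (𝓞 K) M) with hB
  set m : Fin (2 * q - 1 + 1) → M := fun j => z 0 ^ j.1 * z 1 ^ j.rev.1 with hm
  have h1 : B.mulVec m = fun a => aeval z (G a) := by
    funext a
    rw [aeval_form (hGh a)]
    rfl
  have h2 : B.adjugate.mulVec (B.mulVec m) = B.det • m := by
    rw [Matrix.mulVec_mulVec, Matrix.adjugate_mul, Matrix.smul_mulVec, Matrix.one_mulVec]
  have h3 := congrFun h2 j
  rw [h1] at h3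
  have h4 : B.det = algebraMap (𝓞 K) M (BM G).det := by
    rw [RingHom.map_det]
    rfl
  have h5 : B.adjugate = (BM G).adjugate.map (algebraMap (𝓞 K) M) := by
    have := RingHom.map_adjugate (algebraMap (𝓞 K) M) (BM G)
    exact this.symm
  rw [h4, h5] at h3
  rw [Pi.smul_apply, smul_eq_mul] at h3
  rw [← h3]
  rfl

lemma Good.det_ne (h : Good P F q) (hP0 : P ≠ ⊥) :
    (BM fun c : Fin (2 * q - 1 + 1) => Gb F q c).det ≠ 0 := by
  have hq := h.two_le hP0
  have h1 : (BM fun c : Fin (2 * q - 1 + 1) => Gb F q c).det ∉ P := by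
    apply det_BM_notMem (Ideal.IsPrime.ne_top inferInstance)
    intro a
    have := Gb_rd h.rd_eq (c := a.1) (by omega)
    rw [this, Fin.val_rev]
    congr 2
    omega
  intro h0
  rw [h0] at h1
  exact h1 (Submodule.zero_mem _)

lemma Gb_bound {S : Type*} [CommRing S] [Algebra (𝓞 K) S] (f : S →*₀ ℝ) (hf : ∀ x, 0 ≤ f x)
    (F : Fin 2 → MvPolynomial (Fin 2) (𝓞 K)) {q : ℕ} (z : Fin 2 → S) {c : ℕ}
    (hc : c < 2 * q) :
    f (aeval z (Gb F q c)) ≤ max (f (z 0)) (f (z 1)) ^ (q - 1) *
      max (f (act F z 0)) (f (act F z 1)) := by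
  unfold Gb
  have h0 : 0 ≤ max (f (z 0)) (f (z 1)) := le_max_of_le_left (hf _)
  split_ifs with h
  · have e1 : aeval z (X 0 ^ c * X 1 ^ (q - 1 - c) * F 1 : MvPolynomial (Fin 2) (𝓞 K)) =
        z 0 ^ c * z 1 ^ (q - 1 - c) * act F z 1 := by simp [act]
    rw [e1, map_mul, map_mul, map_pow, map_pow]
    have h3 : c + (q - 1 - c) = q - 1 := by omega
    apply mul_le_mul _ (le_max_right _ _) (hf _) (pow_nonneg h0 _)
    calc f (z 0) ^ c * f (z 1) ^ (q - 1 - c) ≤
        max (f (z 0)) (f (z 1)) ^ c * max (f (z 0)) (f (z 1)) ^ (q - 1 - c) := by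
          apply mul_le_mul
          · exact pow_le_pow_left₀ (hf _) (le_max_left _ _) _
          · exact pow_le_pow_left₀ (hf _) (le_max_right _ _) _
          · exact pow_nonneg (hf _) _
          · exact pow_nonneg h0 _
      _ = _ := by rw [← pow_add, h3]
  · have e1 : aeval z (X 0 ^ (c - q) * X 1 ^ (2 * q - 1 - c) * F 0 :
        MvPolynomial (Fin 2) (𝓞 K)) = z 0 ^ (c - q) * z 1 ^ (2 * q - 1 - c) * act F z 0 := by
      simp [act]
    rw [e1, map_mul, map_mul, map_pow, map_pow]
    have h3 : c - q + (2 * q - 1 - c) = q - 1 := by omega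
    apply mul_le_mul _ (le_max_left _ _) (hf _) (pow_nonneg h0 _)
    calc f (z 0) ^ (c - q) * f (z 1) ^ (2 * q - 1 - c) ≤
        max (f (z 0)) (f (z 1)) ^ (c - q) * max (f (z 0)) (f (z 1)) ^ (2 * q - 1 - c) := by
          apply mul_le_mul
          · exact pow_le_pow_left₀ (hf _) (le_max_left _ _) _
          · exact pow_le_pow_left₀ (hf _) (le_max_right _ _) _
          · exact pow_nonneg (hf _) _
          · exact pow_nonneg h0 _
      _ = _ := by rw [← pow_add, h3]

lemma Good.height_lower (h : Good P F q) (hP0 : P ≠ ⊥) {z : Fin 2 → M} (hz : z ≠ 0) :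
    q * Height.logHeight z ≤ Height.logHeight (act F z) + finrank ℚ M * Real.log (clo F q) := by
  classical
  have hq := h.two_le hP0
  have hz' := h.act_ne_zero hP0 hz
  have hclo := one_le_clo F q
  set R := (BM fun c : Fin (2 * q - 1 + 1) => Gb F q c).det with hR
  have hR0 : algebraMap (𝓞 K) M R ≠ 0 := by
    rw [Ne, FaithfulSMul.algebraMap_eq_zero_iff]
    exact h.det_ne hP0
  -- exponents of the pure powers
  obtain ⟨jj, hjj⟩ : ∃ jj : Fin 2 → Fin (2 * q - 1 + 1), ∀ i,
      z 0 ^ (jj i).1 * z 1 ^ (jj i).rev.1 = z i ^ (2 * q - 1) := by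
    refine ⟨![Fin.last _, 0], fun i => ?_⟩
    fin_cases i
    · simp
    · simp
  have hsplit : ∀ x : ℝ, x ^ (2 * q - 1) = x ^ q * x ^ (q - 1) := by
    intro x
    rw [← pow_add]
    congr 1
    omega
  have h1 := GS_le (a := fun w => Real.log (w (algebraMap (𝓞 K) M R)) +
      ∑ i ∈ {()}, (fun _ => (q : ℝ)) i * Real.log (nmi w ((fun _ => z) i)))
    (a' := fun w => Real.log (nmi w (act F z)))
    (b := fun v => Real.log (v (algebraMap (𝓞 K) M R)) +
      ∑ i ∈ {()}, (fun _ => (q : ℝ)) i * Real.log (nm v ((fun _ => z) i)))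
    (b' := fun v => Real.log (nm v (act F z)))
    (c := Real.log (clo F q)) ?_ ?_ ?_ (supp_log_nm hz')
  · rw [GS_height hz'] at h1
    have h2 := GS_prod hR0
    have h3 := GS_add_sum (L := M) {()} (fun _ => (q : ℝ)) (fun _ => z) fun _ _ => hz
    have h4 : GS (fun w : InfinitePlace M => Real.log (w (algebraMap (𝓞 K) M R)) +
        ∑ i ∈ {()}, (fun _ => (q : ℝ)) i * Real.log (nmi w ((fun _ => z) i)))
        (fun v => Real.log (v (algebraMap (𝓞 K) M R)) +
        ∑ i ∈ {()}, (fun _ => (q : ℝ)) i * Real.log (nm v ((fun _ => z) i))) =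
        GS (fun w : InfinitePlace M => Real.log (w (algebraMap (𝓞 K) M R)))
          (fun v => Real.log (v (algebraMap (𝓞 K) M R))) +
        GS (fun w : InfinitePlace M =>
            ∑ i ∈ {()}, (fun _ => (q : ℝ)) i * Real.log (nmi w ((fun _ => z) i)))
          (fun v => ∑ i ∈ {()}, (fun _ => (q : ℝ)) i * Real.log (nm v ((fun _ => z) i))) := by
      unfold GS
      rw [finsum_add_distrib (supp_log_v hR0) (supp_sum _ _ _ fun _ _ => hz)]
      simp only [mul_add, Finset.sum_add_distrib]
      ring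
    rw [h4, h2, h3, zero_add] at h1
    simpa using h1
  · intro w
    simp only [Finset.sum_singleton]
    have h2 : w (algebraMap (𝓞 K) M R) * nmi w z ^ (2 * q - 1) ≤
        clo F q * (nmi w z ^ (q - 1) * nmi w (act F z)) := by
      have h3 : ∀ i, w (algebraMap (𝓞 K) M R) * w (z i) ^ (2 * q - 1) ≤
          clo F q * (nmi w z ^ (q - 1) * nmi w (act F z)) := by
        intro i
        rw [← map_pow, ← map_mul, ← hjj, h.bezout hP0 z (jj i)]
        refine (inf_sum_le w _ _).trans ?_
        have h5 : ∀ a : Fin (2 * q - 1 + 1), w (algebraMap (𝓞 K) M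
            ((BM fun c : Fin (2 * q - 1 + 1) => Gb F q c).adjugate (jj i) a) *
              aeval z (Gb F q a)) ≤
            sz ((BM fun c : Fin (2 * q - 1 + 1) => Gb F q c).adjugate (jj i) a) *
              (nmi w z ^ (q - 1) * nmi w (act F z)) := by
          intro a
          rw [map_mul]
          apply mul_le_mul (inf_le_sz w _) _ (by positivity) (sz_nonneg _)
          exact Gb_bound (w.1.toMonoidWithZeroHom) (fun x => w.1.nonneg x) F z (by omega)
        refine (Finset.sum_le_sum fun a _ => h5 a).trans ?_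
        rw [← Finset.sum_mul]
        have h6 := (nmi_pos w hz).le
        have h7 := (nmi_pos w hz').le
        gcongr
        unfold clo
        have := Finset.single_le_sum (f := fun j => ∑ a : Fin (2 * q - 1 + 1),
          sz ((BM fun c : Fin (2 * q - 1 + 1) => Gb F q c).adjugate j a))
          (fun i _ => Finset.sum_nonneg fun j _ => sz_nonneg _) (Finset.mem_univ (jj i))
        linarith
      unfold nmi at h3 ⊢
      rcases le_total (w (z 0)) (w (z 1)) with h4 | h4
      · have := h3 1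
        rwa [max_eq_right h4] at this ⊢
      · have := h3 0
        rwa [max_eq_left h4] at this ⊢
    have h6 := nmi_pos w hz
    have h7 := nmi_pos w hz'
    have h8 : 0 < w (algebraMap (𝓞 K) M R) := InfinitePlace.pos_iff.mpr hR0
    have h9 : w (algebraMap (𝓞 K) M R) * nmi w z ^ q ≤ clo F q * nmi w (act F z) := by
      rw [hsplit] at h2
      refine le_of_mul_le_mul_right ?_ (pow_pos h6 (q - 1))
      calc w (algebraMap (𝓞 K) M R) * nmi w z ^ q * nmi w z ^ (q - 1) =
          w (algebraMap (𝓞 K) M R) * (nmi w z ^ q * nmi w z ^ (q - 1)) := by ring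
        _ ≤ _ := h2
        _ = _ := by ring
    have h10 := Real.log_le_log (by positivity) h9
    rw [Real.log_mul h8.ne' (by positivity), Real.log_mul (by linarith) h7.ne',
      Real.log_pow] at h10
    linarith
  · intro v
    simp only [Finset.sum_singleton]
    have h2 : v (algebraMap (𝓞 K) M R) * nm v z ^ (2 * q - 1) ≤
        nm v z ^ (q - 1) * nm v (act F z) := by
      have h3 : ∀ i, v (algebraMap (𝓞 K) M R) * v (z i) ^ (2 * q - 1) ≤
          nm v z ^ (q - 1) * nm v (act F z) := by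
        intro i
        have h6 := nm_nonneg v z
        have h7 := nm_nonneg v (act F z)
        rw [← map_pow, ← map_mul, ← hjj, h.bezout hP0 z (jj i)]
        refine v_sum_le v _ _ (by positivity) fun a _ => ?_
        rw [map_mul]
        calc _ ≤ 1 * (nm v z ^ (q - 1) * nm v (act F z)) := by
              apply mul_le_mul (coeff_le_one v _) _ (v_nonneg v _) zero_le_one
              exact Gb_bound (v.1.toMonoidWithZeroHom) (fun x => v.1.nonneg x) F z (by omega)
          _ = _ := one_mul _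
      obtain ⟨i, hi⟩ := exists_nm v z
      rw [← hi] at h3 ⊢
      exact h3 i
    have h6 := nm_pos v hz
    have h7 := nm_pos v hz'
    have h8 : 0 < v (algebraMap (𝓞 K) M R) :=
      lt_of_le_of_ne (v_nonneg v _) (Ne.symm (by simpa using hR0))
    have h9 : v (algebraMap (𝓞 K) M R) * nm v z ^ q ≤ nm v (act F z) := by
      rw [hsplit] at h2
      refine le_of_mul_le_mul_right ?_ (pow_pos h6 (q - 1))
      calc v (algebraMap (𝓞 K) M R) * nm v z ^ q * nm v z ^ (q - 1) =
          v (algebraMap (𝓞 K) M R) * (nm v z ^ q * nm v z ^ (q - 1)) := by ring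
        _ ≤ _ := h2
        _ = _ := by ring
    have h10 := Real.log_le_log (by positivity) h9
    rw [Real.log_mul h8.ne' (by positivity), Real.log_pow] at h10
    linarith
  · have h5 := (supp_log_v hR0).union (supp_sum (L := M) {()} (fun _ => (q : ℝ)) (fun _ => z)
      fun _ _ => hz)
    refine h5.subset fun v hv => ?_
    rw [Function.mem_support] at hv
    rw [Set.mem_union, Function.mem_support, Function.mem_support]
    by_contra hcon
    push Not at hcon
    rw [hcon.1, hcon.2, add_zero] at hv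
    exact hv rfl

end

end Pool.Agent.H420R3
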