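import Mathlib
import Pool.Agent.H420R3.Depth

/-!
Cross energies in a stable run, self energies at a drop.
-/

set_option autoImplicit false
set_option linter.unusedSectionVars false

namespace Pool.Agent.H420R3

open NumberField Module MvPolynomial IsDedekindDomain
open scoped Pointwise

noncomputable section

variable {K : Type*} [Field K] [NumberField K]
variable {M : Type*} [Field M] [NumberField M] [Algebra K M]
variable {F : Fin 2 → MvPolynomial (Fin 2) (𝓞 K)}
variable {P : Ideal (𝓞 K)} [hP : P.IsMaximal] {q : ℕ}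

lemma frob_iter {v : FinitePlace M} {ρ : ℝ} (hR : Red v F q ρ) {τ : Gal(M/K)}
    (hτ : τ • mi v = mi v) (hτ' : ∀ p : Option M, dv v (phi F p) (τ • p) < 1) (p : Option M)
    (t : ℕ) : dv v ((phi F)^[t] p) (τ ^ t • p) < 1 := by
  induction t with
  | zero => simp [dv_self]
  | succ t ih =>
    rw [Function.iterate_succ_apply', pow_succ', mul_smul]
    refine dv_lt_one_trans v (hτ' _) ?_
    rw [dv_smul v hτ]
    exact ih

lemma pow_smul_mi {v : FinitePlace M} {τ : Gal(M/K)} (hτ : τ • mi v = mi v) (t : ℕ) :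
    τ ^ t • mi v = mi v := by
  induction t with
  | zero => simp
  | succ t ih => rw [pow_succ, mul_smul, hτ, ih]

variable [IsGalois K M]

open Classical in
/-- cross energy in a stable run -/
lemma Good.cross_lower (h : Good P F q) (hP0 : P ≠ ⊥) {v : FinitePlace M} (hv : v ∈ TP M P)
    {p : Option M} (hp : Wand F p) {N : ℕ} (hN : ∀ t ≤ N, dg K ((phi F)^[t] p) = dg K p)
    {a b : ℕ} (hab : a < b) (hbN : b ≤ N) {z : Option M} (hz : z ∈ orbK K ((phi F)^[b] p)) :
    ew K v * ((a : ℝ) + 1) ≤ ∑ w ∈ orbK K ((phi F)^[a] p), dl v z w := by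
  have hR := h.red_at hP0 hv
  have he := ew_pos (K := K) v
  have hq := hR.two_le
  obtain ⟨m, hm, hm'⟩ := h.exists_depth hP0 hv
  obtain ⟨τ, hτ, hτ'⟩ := h.frob hP0 hv (M := M)
  obtain ⟨u, hu, rfl⟩ := exists_lift F hz
  have hdg : ∀ t ≤ N, ∀ x ∈ orbK K p, dg K ((phi F)^[t] x) = dg K x := by
    intro t ht x hx
    rw [dg_eq_of_mem (phi_iter_mem F hx t), hN t ht, dg_eq_of_mem hx]
  have hbb : ∀ t ≤ N, ∀ x ∈ orbK K p, bb K v ((phi F)^[t] x) = bb K v x := by
    intro t ht x hx
    have h1 := hR.bb_phi x t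
    rw [hdg t ht x hx, mul_comm] at h1
    exact (Nat.eq_of_mul_eq_mul_left (dg_pos x) h1).symm
  obtain ⟨t, rfl⟩ := Nat.exists_eq_add_of_lt hab
  set z := (phi F)^[a + t + 1] u with hzdef
  set za := (phi F)^[a] u with hza
  have hza' : za ∈ orbK K ((phi F)^[a] p) := phi_iter_mem F hu a
  have hz' : z = (phi F)^[t + 1] za := by
    rw [hzdef, hza, ← Function.iterate_add_apply]
    congr 1
    omega
  set w₀ := τ ^ (t + 1) • za with hw₀
  have hw₀' : w₀ ∈ orbK K ((phi F)^[a] p) := smul_mem_orbK _ hza'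
  have hd : dv v z w₀ < 1 := by
    rw [hz']
    exact frob_iter hR hτ hτ' za (t + 1)
  set β := bb K v u with hβ
  have hβ0 : bb K v w₀ = β := by
    rw [hw₀, bb_smul (pow_smul_mi hτ _), hza, hbb a (by omega) u hu]
  have hβ1 : (1 : ℝ) ≤ β := by exact_mod_cast bb_pos u
  -- the disc
  set S := (orbK K ((phi F)^[a] p)).filter fun w => dv v z w < 1 with hS
  have hSc : S.card = β := by
    rw [← hβ0, hS]
    unfold bb
    rw [orbK_eq_of_mem hw₀']
    congr 1
    refine Finset.filter_congr fun w _ => ⟨fun hw => ?_, fun hw => ?_⟩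
    · rw [dv_comm] at hd
      exact dv_lt_one_trans v hd hw
    · exact dv_lt_one_trans v hd hw
  set s := (gq q)^[a] (1 / (β : ℝ)) with hs
  have hterm : ∀ w ∈ S, ew K v * s ≤ dl v z w := by
    intro w hw
    rw [hS, Finset.mem_filter] at hw
    obtain ⟨x, hx, rfl⟩ := exists_lift F hw.1
    have hxw : bb K v x = β := by
      rw [← hbb a (by omega) x hx, ← hβ0]
      apply bb_congr (by rw [orbK_eq_of_mem hw₀']; exact hw.1)
      rw [dv_comm] at hd
      exact dv_lt_one_trans v hd hw.2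
    refine h.dl_lower hP0 hv hm hw.2 ?_ ?_ ?_ ((hp.of_mem hu).iter _) ((hp.of_mem hx).iter _)
    · refine (hp.disj (a := a) (b := a + t + 1) (by omega) hw.1 ?_).symm
      exact phi_iter_mem F hu _
    · refine le_trans ?_ (h.depth_iter hP0 hv hm hm' (hp.of_mem hu) (a + t + 1))
      exact le_gq_iter hq (by positivity) _ _ (by omega)
    · have := h.depth_iter hP0 hv hm hm' (hp.of_mem hx) a
      rwa [hxw] at this
  calc ew K v * ((a : ℝ) + 1) ≤ ew K v * (β * s) := by
        apply mul_le_mul_of_nonneg_left _ he.le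
        exact gq_iter_mul hq hβ1 a
    _ = ∑ w ∈ S, ew K v * s := by
        rw [Finset.sum_const, nsmul_eq_mul, hSc]
        ring
    _ ≤ ∑ w ∈ S, dl v z w := Finset.sum_le_sum hterm
    _ ≤ ∑ w ∈ orbK K ((phi F)^[a] p), dl v z w :=
        Finset.sum_le_sum_of_subset_of_nonneg (Finset.filter_subset _ _)
          fun w _ _ => dl_nonneg v _ _

open Classical in
/-- self energy of a point at a drop -/
lemma Good.self_sum (h : Good P F q) (hP0 : P ≠ ⊥) {v : FinitePlace M} (hv : v ∈ TP M P)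
    {p : Option M} (hp : Wand F p) (j : ℕ) {w : Option M}
    (hw : w ∈ orbK K ((phi F)^[j] p)) :
    ((bb K v w : ℝ) - 1) * (ew K v *
      (gq q)^[j] ((dg K ((phi F)^[j] p) : ℝ) / (dg K p * bb K v w))) ≤
      ∑ w' ∈ orbK K ((phi F)^[j] p), dl v w w' := by
  set s := ew K v * (gq q)^[j] ((dg K ((phi F)^[j] p) : ℝ) / (dg K p * bb K v w)) with hs
  set S := ((orbK K ((phi F)^[j] p)).filter fun w' => dv v w w' < 1) with hS
  have hwS : w ∈ S := by
    rw [hS, Finset.mem_filter, dv_self]
    exact ⟨hw, by norm_num⟩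
  have hSc : S.card = bb K v w := by
    unfold bb
    rw [orbK_eq_of_mem hw]
  have h1 : ((S.erase w).card : ℝ) = (bb K v w : ℝ) - 1 := by
    rw [Finset.card_erase_of_mem hwS, hSc, Nat.cast_sub (bb_pos w)]
    norm_num
  rw [← h1]
  calc ((S.erase w).card : ℝ) * s = ∑ w' ∈ S.erase w, s := by
        rw [Finset.sum_const, nsmul_eq_mul]
    _ ≤ ∑ w' ∈ S.erase w, dl v w w' := by
        refine Finset.sum_le_sum fun w' hw' => ?_
        rw [Finset.mem_erase, hS, Finset.mem_filter] at hw'
        exact h.self_lower hP0 hv hp j hw hw'.2.1 hw'.1.symm hw'.2.2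
    _ ≤ ∑ w' ∈ orbK K ((phi F)^[j] p), dl v w w' := by
        refine Finset.sum_le_sum_of_subset_of_nonneg ?_ fun w _ _ => dl_nonneg v _ _
        exact (Finset.erase_subset _ _).trans (Finset.filter_subset _ _)

open Classical in
/-- at a drop every point has a companion with the same image -/
lemma exists_mate {p : Option M} (j : ℕ)
    (hdrop : dg K ((phi F)^[j + 1] p) < dg K ((phi F)^[j] p)) {w : Option M}
    (hw : w ∈ orbK K ((phi F)^[j] p)) :
    ∃ w' ∈ orbK K ((phi F)^[j] p), w' ≠ w ∧ phi F w' = phi F w := by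
  have h1 := card_fib F ((phi F)^[j] p) 1 (w := phi F w) (by
    have := phi_iter_mem F hw 1
    exact this)
  rw [← Function.iterate_add_apply, add_comm 1 j] at h1
  set S := (orbK K ((phi F)^[j] p)).filter fun u => (phi F)^[1] u = phi F w with hS
  have hwS : w ∈ S := by
    rw [hS, Finset.mem_filter]
    exact ⟨hw, rfl⟩
  have h2 : 1 < S.card := by
    by_contra hcon
    push Not at hcon
    have h3 := dg_pos (K := K) ((phi F)^[j + 1] p)
    nlinarith
  obtain ⟨w', hw', hne⟩ := Finset.exists_mem_ne h2 w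
  rw [hS, Finset.mem_filter] at hw'
  exact ⟨w', hw'.1, hne, hw'.2⟩

end

end Pool.Agent.H420R3
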