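import Mathlib
import Pool.Agent.H420R3.Canon

/-!
Canonical heights: existence and functoriality.
-/

set_option autoImplicit false
set_option linter.unusedSectionVars false

namespace Pool.Agent.H420R3

open NumberField Module MvPolynomial IsDedekindDomain Filter Topology
open scoped Pointwise

noncomputable section

lemma seq_lim {a : ℕ → ℝ} {q C : ℝ} (hq : 2 ≤ q) (h : ∀ n, |a (n + 1) - q * a n| ≤ C) :
    ∃ l, Tendsto (fun n => a n / q ^ n) atTop (𝓝 l) ∧ |l - a 0| ≤ C := by
  have hC : 0 ≤ C := (abs_nonneg _).trans (h 0)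
  have hb : ∀ n, dist (a n / q ^ n) (a (n + 1) / q ^ (n + 1)) ≤ C / 2 * (1 / 2) ^ n := by
    intro n
    rw [dist_comm, Real.dist_eq]
    have h1 : a (n + 1) / q ^ (n + 1) - a n / q ^ n = (a (n + 1) - q * a n) / q ^ (n + 1) := by
      rw [pow_succ]
      field_simp
    rw [h1, abs_div, abs_of_pos (by positivity : (0 : ℝ) < q ^ (n + 1))]
    calc |a (n + 1) - q * a n| / q ^ (n + 1) ≤ C / 2 ^ (n + 1) := by
          gcongr
          exact h n
      _ = C / 2 * (1 / 2) ^ n := by
          rw [pow_succ]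
          field_simp
          rw [mul_assoc, ← mul_pow]
          norm_num
  have h1 : CauchySeq fun n => a n / q ^ n :=
    cauchySeq_of_le_geometric (1 / 2) (C / 2) (by norm_num) hb
  obtain ⟨l, hl⟩ := cauchySeq_tendsto_of_complete h1
  refine ⟨l, hl, ?_⟩
  have h2 := dist_le_of_le_geometric_of_tendsto₀ (1 / 2) (C / 2) (by norm_num) hb hl
  rw [pow_zero, div_one, dist_comm, Real.dist_eq] at h2
  refine h2.trans (le_of_eq ?_)
  ring

variable {K : Type*} [Field K] [NumberField K]
variable {L : Type*} [Field L] [NumberField L] [Algebra K L]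

/-- canonical height of a vector -/
def hh (F : Fin 2 → MvPolynomial (Fin 2) (𝓞 K)) (q : ℕ) (z : Fin 2 → L) : ℝ :=
  limUnder atTop fun n : ℕ => Height.logHeight ((act F)^[n] z) / ((finrank ℚ L : ℝ) * (q : ℝ) ^ n)

/-- the constant comparing the canonical height with the height -/
def ch (F : Fin 2 → MvPolynomial (Fin 2) (𝓞 K)) (q : ℕ) : ℝ :=
  Real.log (cup F q) + Real.log (clo F q)

variable {F : Fin 2 → MvPolynomial (Fin 2) (𝓞 K)}
variable {P : Ideal (𝓞 K)} [hP : P.IsMaximal] {q : ℕ}

lemma ch_nonneg : 0 ≤ ch F q :=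
  add_nonneg (Real.log_nonneg (one_le_cup F q)) (Real.log_nonneg (one_le_clo F q))

variable (L) in
lemma nQ_pos : (0 : ℝ) < finrank ℚ L := by exact_mod_cast (finrank_pos : 0 < finrank ℚ L)

lemma Good.hh_aux (h : Good P F q) (hP0 : P ≠ ⊥) {z : Fin 2 → L} (hz : z ≠ 0) :
    ∃ l, Tendsto (fun n : ℕ => Height.logHeight ((act F)^[n] z) /
      ((finrank ℚ L : ℝ) * (q : ℝ) ^ n)) atTop (𝓝 l) ∧
      |l - Height.logHeight z / finrank ℚ L| ≤ ch F q := by
  have hq : (2 : ℝ) ≤ q := by exact_mod_cast h.two_le hP0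
  have hn := nQ_pos L
  have h1 : ∀ n, |Height.logHeight ((act F)^[n + 1] z) / finrank ℚ L -
      q * (Height.logHeight ((act F)^[n] z) / finrank ℚ L)| ≤ ch F q := by
    intro n
    have hz' := h.iter_ne_zero hP0 hz n
    have h2 := h.height_upper hP0 hz'
    have h3 := h.height_lower hP0 hz'
    rw [← Function.iterate_succ_apply' (act F) n z] at h2 h3
    have h4 := Real.log_nonneg (one_le_cup F q)
    have h5 := Real.log_nonneg (one_le_clo F q)
    have h6 : Height.logHeight ((act F)^[n + 1] z) / finrank ℚ L -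
      q * (Height.logHeight ((act F)^[n] z) / finrank ℚ L) =
      (Height.logHeight ((act F)^[n + 1] z) - q * Height.logHeight ((act F)^[n] z)) /
        finrank ℚ L := by ring
    rw [h6, abs_div, abs_of_pos hn, div_le_iff₀ hn, abs_le]
    unfold ch
    constructor
    · nlinarith
    · nlinarith
  obtain ⟨l, hl, hl'⟩ := seq_lim (a := fun n => Height.logHeight ((act F)^[n] z) / finrank ℚ L)
    hq h1
  refine ⟨l, ?_, hl'⟩
  refine hl.congr fun n => ?_
  rw [div_div]

lemma Good.tendsto_hh (h : Good P F q) (hP0 : P ≠ ⊥) {z : Fin 2 → L} (hz : z ≠ 0) :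
    Tendsto (fun n : ℕ => Height.logHeight ((act F)^[n] z) /
      ((finrank ℚ L : ℝ) * (q : ℝ) ^ n)) atTop (𝓝 (hh F q z)) := by
  obtain ⟨l, hl, -⟩ := h.hh_aux hP0 hz
  exact tendsto_nhds_limUnder ⟨l, hl⟩

lemma Good.hh_near (h : Good P F q) (hP0 : P ≠ ⊥) {z : Fin 2 → L} (hz : z ≠ 0) :
    |hh F q z - Height.logHeight z / finrank ℚ L| ≤ ch F q := by
  obtain ⟨l, hl, hl'⟩ := h.hh_aux hP0 hz
  rwa [tendsto_nhds_unique (h.tendsto_hh hP0 hz) hl]

lemma Good.hh_nonneg (h : Good P F q) (hP0 : P ≠ ⊥) {z : Fin 2 → L} (hz : z ≠ 0) :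
    0 ≤ hh F q z := by
  refine ge_of_tendsto' (h.tendsto_hh hP0 hz) fun n => ?_
  have h1 := Height.logHeight_nonneg ((act F)^[n] z)
  have hn := nQ_pos L
  positivity

lemma Good.hh_act (h : Good P F q) (hP0 : P ≠ ⊥) {z : Fin 2 → L} (hz : z ≠ 0) :
    hh F q (act F z) = q * hh F q z := by
  have hq : (2 : ℝ) ≤ q := by exact_mod_cast h.two_le hP0
  have h1 := h.tendsto_hh hP0 (h.act_ne_zero hP0 hz)
  have h2 := ((h.tendsto_hh hP0 hz).comp (tendsto_add_atTop_nat 1)).const_mul (q : ℝ)
  refine tendsto_nhds_unique h1 (h2.congr fun n => ?_)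
  have hn := nQ_pos L
  simp only [Function.comp_apply, Function.iterate_succ_apply]
  rw [pow_succ]
  field_simp

lemma act_iter_smul {n : ℕ} (hF : ∀ i, (F i).IsHomogeneous q) (c : L) (z : Fin 2 → L) :
    (act F)^[n] (c • z) = c ^ (q ^ n) • (act F)^[n] z := by
  induction n with
  | zero => simp
  | succ n ih =>
    rw [Function.iterate_succ_apply', Function.iterate_succ_apply', ih, act_smul hF, ← pow_mul,
      ← pow_succ]

lemma Good.hh_smul (h : Good P F q) {c : L} (hc : c ≠ 0) (z : Fin 2 → L) :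
    hh F q (c • z) = hh F q z := by
  unfold hh
  congr 1
  funext n
  rw [act_iter_smul h.hom, Height.logHeight_smul_eq_logHeight _ (pow_ne_zero _ hc)]

section Ext

variable {L' : Type*} [Field L'] [NumberField L'] [Algebra K L'] [Algebra L L']
  [IsScalarTower K L L']

lemma act_ext (z : Fin 2 → L) :
    act F (fun i => algebraMap L L' (z i)) = fun i => algebraMap L L' (act F z i) := by
  funext i
  unfold act
  have hst : IsScalarTower (𝓞 K) L L' := IsScalarTower.of_algebraMap_eq fun x => by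
    rw [IsScalarTower.algebraMap_apply (𝓞 K) K L', IsScalarTower.algebraMap_apply (𝓞 K) K L,
      IsScalarTower.algebraMap_apply K L L']
  have := MvPolynomial.aeval_algebraMap_apply L' z (F i)
  exact this

lemma act_iter_ext (z : Fin 2 → L) (n : ℕ) :
    (act F)^[n] (fun i => algebraMap L L' (z i)) =
      fun i => algebraMap L L' ((act F)^[n] z i) := by
  induction n with
  | zero => rfl
  | succ n ih => rw [Function.iterate_succ_apply', ih, act_ext, Function.iterate_succ_apply']

lemma hh_ext (z : Fin 2 → L) : hh F q (fun i => algebraMap L L' (z i)) = hh F q z := by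
  unfold hh
  congr 1
  funext n
  have h1 : (finrank ℚ L' : ℝ) = finrank ℚ L * finrank L L' := by
    exact_mod_cast (finrank_mul_finrank ℚ L L').symm
  have h2 : (0 : ℝ) < finrank L L' := by exact_mod_cast (finrank_pos : 0 < finrank L L')
  have h3 := nQ_pos L
  rw [act_iter_ext, Helper259.HtExt.logHeight_ext, h1, mul_assoc,
    mul_left_comm (finrank ℚ L : ℝ)]
  exact mul_div_mul_left _ _ h2.ne'

end Ext

/-- heights are invariant under automorphisms -/
lemma logHeight_aut (e : L ≃+* L) (z : Fin 2 → L) :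
    Height.logHeight (fun i => e (z i)) = Height.logHeight z := by
  let A : Algebra L L := e.toRingHom.toAlgebra
  have h1 := @Helper259.HtExt.logHeight_ext L L _ _ _ _ A (Fin 2) _ z
  have h2 : @finrank L L _ _ A.toModule = 1 := by
    have h3 : @IsScalarTower ℚ L L _ A.toSMul _ := by
      refine @IsScalarTower.of_algebraMap_eq' ℚ L L _ _ _ _ A _ ?_
      exact Subsingleton.elim _ _
    have h4 := @finrank_mul_finrank ℚ L L _ _ _ _ A.toModule _ h3 _ _ _ _
    have h5 : 0 < finrank ℚ L := finrank_pos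
    exact Nat.eq_of_mul_eq_mul_left h5 (by rw [h4, mul_one])
  rw [h2, Nat.cast_one, one_mul] at h1
  exact h1

lemma hh_aut (g : Gal(L/K)) (z : Fin 2 → L) : hh F q (fun i => g (z i)) = hh F q z := by
  unfold hh
  congr 1
  funext n
  have h1 : (act F)^[n] (fun i => g (z i)) = fun i => g ((act F)^[n] z i) := by
    induction n with
    | zero => rfl
    | succ n ih => rw [Function.iterate_succ_apply', ih, act_map, Function.iterate_succ_apply']
  rw [h1]
  have h2 := logHeight_aut g.toRingEquiv ((act F)^[n] z)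
  exact congrArg (fun x => x / ((finrank ℚ L : ℝ) * (q : ℝ) ^ n)) h2

/-- canonical height of a point -/
def hp (F : Fin 2 → MvPolynomial (Fin 2) (𝓞 K)) (q : ℕ) (p : Option L) : ℝ := hh F q (rep p)

lemma Good.hp_nonneg (h : Good P F q) (hP0 : P ≠ ⊥) (p : Option L) : 0 ≤ hp F q p :=
  h.hh_nonneg hP0 (rep_ne_zero p)

lemma Good.hh_pt (h : Good P F q) {z : Fin 2 → L} (hz : z ≠ 0) : hp F q (pt z) = hh F q z := by
  obtain ⟨c, hc, hc'⟩ := rep_pt hz
  unfold hp
  conv_rhs => rw [hc']
  rw [h.hh_smul hc]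

lemma Good.hp_phi (h : Good P F q) (hP0 : P ≠ ⊥) (p : Option L) :
    hp F q (phi F p) = q * hp F q p := by
  unfold phi
  rw [h.hh_pt (h.act_ne_zero hP0 (rep_ne_zero p)), h.hh_act hP0 (rep_ne_zero p)]
  rfl

lemma Good.hp_iter (h : Good P F q) (hP0 : P ≠ ⊥) (p : Option L) (n : ℕ) :
    hp F q ((phi F)^[n] p) = (q : ℝ) ^ n * hp F q p := by
  induction n with
  | zero => simp
  | succ n ih =>
    rw [Function.iterate_succ_apply', h.hp_phi hP0, ih, pow_succ]
    ring

lemma hp_smul (g : Gal(L/K)) (p : Option L) : hp F q (g • p) = hp F q p := by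
  unfold hp
  rw [rep_smul, hh_aut]

lemma hp_of_mem {p w : Option L} (hw : w ∈ orbK K p) : hp F q w = hp F q p := by
  obtain ⟨g, rfl⟩ := mem_orbK.mp hw
  exact hp_smul g p

lemma Good.log_iter_le (h : Good P F q) (hP0 : P ≠ ⊥) (p : Option L) (l : ℕ) :
    Height.logHeight ((act F)^[l] (rep p)) ≤
      finrank ℚ L * ((q : ℝ) ^ l * hp F q p + ch F q) := by
  have hn := nQ_pos L
  have h1 := h.hh_near hP0 (h.iter_ne_zero hP0 (rep_ne_zero p) l)
  have h2 : hh F q ((act F)^[l] (rep p)) = (q : ℝ) ^ l * hp F q p := by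
    induction l with
    | zero => simp [hp]
    | succ l ih =>
      rw [Function.iterate_succ_apply', h.hh_act hP0 (h.iter_ne_zero hP0 (rep_ne_zero p) l),
        ih (h.hh_near hP0 (h.iter_ne_zero hP0 (rep_ne_zero p) l)), pow_succ]
      ring
  rw [h2] at h1
  have h3 := (abs_le.mp h1).1
  have h4 : Height.logHeight ((act F)^[l] (rep p)) / finrank ℚ L ≤
      (q : ℝ) ^ l * hp F q p + ch F q := by linarith
  rw [div_le_iff₀ hn] at h4
  linarith

end

end Pool.Agent.H420R3
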