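import Mathlib
import Pool.Agent.H420R3.Hhat

/-!
The energy inequality for arbitrary finite sets of points.
-/

set_option autoImplicit false
set_option linter.unusedSectionVars false

namespace Pool.Agent.H420R3

open NumberField Module MvPolynomial IsDedekindDomain Filter Topology

noncomputable section

variable {K : Type*} [Field K] [NumberField K]
variable {M : Type*} [Field M] [NumberField M] [Algebra K M]

/-- total energy of a pair of points at the places above `P` -/
def ee (P : Ideal (𝓞 K)) (p p' : Option M) : ℝ := ∑ v ∈ TP M P, dl v p p'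

/-- energy of a finite set -/
def ES (P : Ideal (𝓞 K)) (S : Finset (Option M)) : ℝ := ∑ p ∈ S, ∑ p' ∈ S, ee P p p'

variable {F : Fin 2 → MvPolynomial (Fin 2) (𝓞 K)}
variable {P : Ideal (𝓞 K)} [hP : P.IsMaximal] {q : ℕ}

lemma ee_nonneg (p p' : Option M) : 0 ≤ ee P p p' := Finset.sum_nonneg fun v _ => dl_nonneg v _ _

lemma ee_comm (p p' : Option M) : ee P p p' = ee P p' p := by
  unfold ee
  exact Finset.sum_congr rfl fun v _ => dl_comm v _ _

lemma ee_self (p : Option M) : ee P p p = 0 := by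
  unfold ee
  exact Finset.sum_eq_zero fun v _ => dl_self v _

lemma exists_enum {S : Finset (Option M)} {n : ℕ} (hS : S.card = n + 1) :
    ∃ p : Fin (n + 1) → Option M, Function.Injective p ∧
      ∀ f : Option M → ℝ, ∑ i, f (p i) = ∑ x ∈ S, f x := by
  let e := S.equivFinOfCardEq hS
  refine ⟨fun i => (e.symm i).1, ?_, fun f => ?_⟩
  · intro i j h
    exact e.symm.injective (Subtype.ext h)
  · rw [← Finset.sum_coe_sort S f]
    exact Fintype.sum_equiv e.symm _ _ fun i => rfl

lemma ES_enum {S : Finset (Option M)} {n : ℕ} {p : Fin (n + 1) → Option M}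
    (hp : ∀ f : Option M → ℝ, ∑ i, f (p i) = ∑ x ∈ S, f x) :
    ∑ v ∈ TP M P, ∑ i, ∑ j ∈ Finset.univ.erase i, dl v (p i) (p j) = ES P S := by
  classical
  unfold ES ee
  have h1 : ∀ v ∈ TP M P, ∑ i, ∑ j ∈ Finset.univ.erase i, dl v (p i) (p j) =
      ∑ x ∈ S, ∑ y ∈ S, dl v x y := by
    intro v _
    rw [← hp fun x => ∑ y ∈ S, dl v x y]
    refine Finset.sum_congr rfl fun i _ => ?_
    rw [Finset.sum_erase (f := fun j => dl v (p i) (p j)) _ (dl_self v (p i)),
      hp fun y => dl v (p i) y]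
  rw [Finset.sum_congr rfl h1, Finset.sum_comm]
  refine Finset.sum_congr rfl fun x _ => ?_
  rw [Finset.sum_comm]

/-- energy of `q ^ k` points -/
lemma Good.ES_pow (h : Good P F q) (hP0 : P ≠ ⊥) {k : ℕ} {S : Finset (Option M)}
    (hS : S.card = q ^ k) :
    ES P S ≤ 2 * finrank ℚ M * ((q : ℝ) ^ k * (k * (Real.log q + q * ch F q)) +
      ((q : ℝ) ^ k - 1) * ∑ p ∈ S, hp F q p) := by
  have hq := h.two_le hP0
  have hq' : (2 : ℝ) ≤ q := by exact_mod_cast hq
  have hqk : 1 ≤ q ^ k := Nat.one_le_pow _ _ (by omega)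
  obtain ⟨n, hn⟩ : ∃ n, n + 1 = q ^ k := ⟨q ^ k - 1, by omega⟩
  obtain ⟨p, hp1, hp2⟩ := exists_enum (hS.trans hn.symm)
  have h1 := h.energyN hP0 hn p hp1
  rw [ES_enum hp2] at h1
  refine h1.trans ?_
  have hM := nQ_pos M
  rw [mul_assoc]
  apply mul_le_mul_of_nonneg_left _ (by norm_num : (0 : ℝ) ≤ 2)
  have h2 : Real.log (n + 1).factorial ≤ (q : ℝ) ^ k * (k * Real.log q) := by
    have h3 : (((n + 1).factorial : ℕ) : ℝ) ≤ ((q : ℝ) ^ k) ^ (q ^ k) := by
      rw [hn]
      exact_mod_cast Nat.factorial_le_pow (q ^ k)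
    have h4 := Real.log_le_log (by exact_mod_cast Nat.factorial_pos _) h3
    rw [Real.log_pow, Real.log_pow] at h4
    push_cast at h4
    exact h4
  have h5 : ∑ x ∈ (Finset.univ : Finset (Fin (n + 1))) ×ˢ Finset.range k,
      ((q - 1 : ℕ) : ℝ) * Height.logHeight ((act F)^[x.2] (rep (p x.1))) ≤
      finrank ℚ M * ((q : ℝ) ^ k * (k * (q * ch F q)) +
        ((q : ℝ) ^ k - 1) * ∑ p ∈ S, hp F q p) := by
    rw [Finset.sum_product]
    have hc := ch_nonneg (F := F) (q := q)
    have h6 : ∀ i : Fin (n + 1), ∑ l ∈ Finset.range k,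
        ((q - 1 : ℕ) : ℝ) * Height.logHeight ((act F)^[l] (rep (p i))) ≤
        finrank ℚ M * (k * (q * ch F q) + ((q : ℝ) ^ k - 1) * hp F q (p i)) := by
      intro i
      have h7 : ∀ l ∈ Finset.range k,
          ((q - 1 : ℕ) : ℝ) * Height.logHeight ((act F)^[l] (rep (p i))) ≤
          finrank ℚ M * ((q : ℝ) ^ l * (q - 1) * hp F q (p i) + q * ch F q) := by
        intro l _
        have h8 := h.log_iter_le hP0 (p i) l
        have h9 : ((q - 1 : ℕ) : ℝ) = (q : ℝ) - 1 := by
          rw [Nat.cast_sub (by omega), Nat.cast_one]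
        rw [h9]
        have h10 : (0 : ℝ) ≤ (q : ℝ) - 1 := by linarith
        calc ((q : ℝ) - 1) * Height.logHeight ((act F)^[l] (rep (p i))) ≤
            ((q : ℝ) - 1) * (finrank ℚ M * ((q : ℝ) ^ l * hp F q (p i) + ch F q)) := by gcongr
          _ = finrank ℚ M * ((q : ℝ) ^ l * (q - 1) * hp F q (p i) + (q - 1) * ch F q) := by ring
          _ ≤ _ := by
            gcongr
            linarith
      refine (Finset.sum_le_sum h7).trans (le_of_eq ?_)
      rw [← Finset.mul_sum, Finset.sum_add_distrib, ← Finset.sum_mul, ← Finset.sum_mul,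
        geom_sum_mul, Finset.sum_const, Finset.card_range, nsmul_eq_mul]
      ring
    refine (Finset.sum_le_sum fun i _ => h6 i).trans (le_of_eq ?_)
    rw [← Finset.mul_sum, Finset.sum_add_distrib, Finset.sum_const, Finset.card_univ,
      Fintype.card_fin, nsmul_eq_mul, ← Finset.mul_sum, hp2 (hp F q), hn]
    push_cast
    ring
  calc (finrank ℚ M : ℝ) * Real.log (n + 1).factorial +
        ∑ x ∈ (Finset.univ : Finset (Fin (n + 1))) ×ˢ Finset.range k,
          ((q - 1 : ℕ) : ℝ) * Height.logHeight ((act F)^[x.2] (rep (p x.1))) ≤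
        finrank ℚ M * ((q : ℝ) ^ k * (k * Real.log q)) +
        finrank ℚ M * ((q : ℝ) ^ k * (k * (q * ch F q)) +
        ((q : ℝ) ^ k - 1) * ∑ p ∈ S, hp F q p) := by
        gcongr
    _ = _ := by ring

/-- energy of a small set -/
lemma Good.ES_small (h : Good P F q) (hP0 : P ≠ ⊥) {S : Finset (Option M)}
    (hS : 1 ≤ S.card) :
    ES P S ≤ 2 * finrank ℚ M * ((S.card : ℝ) * Real.log S.card +
      ((S.card : ℝ) - 1) * (S.card * ch F q + ∑ p ∈ S, hp F q p)) := by
  obtain ⟨n, hn⟩ : ∃ n, S.card = n + 1 := ⟨S.card - 1, by omega⟩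
  obtain ⟨p, hp1, hp2⟩ := exists_enum hn
  have h1 := h.energyS hP0 p hp1
  rw [ES_enum hp2] at h1
  refine h1.trans ?_
  have hM := nQ_pos M
  rw [mul_assoc, hn]
  apply mul_le_mul_of_nonneg_left _ (by norm_num : (0 : ℝ) ≤ 2)
  have h2 : Real.log (n + 1).factorial ≤ ((n + 1 : ℕ) : ℝ) * Real.log ((n + 1 : ℕ) : ℝ) := by
    have h3 : (((n + 1).factorial : ℕ) : ℝ) ≤ ((n + 1 : ℕ) : ℝ) ^ (n + 1) := by
      exact_mod_cast Nat.factorial_le_pow (n + 1)
    have h4 := Real.log_le_log (by exact_mod_cast Nat.factorial_pos _) h3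
    rwa [Real.log_pow] at h4
  have h5 : ∑ x ∈ (Finset.univ : Finset (Fin (n + 1))) ×ˢ Finset.range 1,
      (n : ℝ) * Height.logHeight ((act F)^[x.2] (rep (p x.1))) ≤
      finrank ℚ M * ((((n + 1 : ℕ) : ℝ) - 1) * (((n + 1 : ℕ) : ℝ) * ch F q +
        ∑ p ∈ S, hp F q p)) := by
    rw [Finset.sum_product]
    have h6 : ∀ i : Fin (n + 1), ∑ l ∈ Finset.range 1,
        (n : ℝ) * Height.logHeight ((act F)^[l] (rep (p i))) ≤
        finrank ℚ M * (n * (ch F q + hp F q (p i))) := by
      intro i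
      rw [Finset.range_one, Finset.sum_singleton]
      have h8 := h.log_iter_le hP0 (p i) 0
      calc (n : ℝ) * Height.logHeight ((act F)^[0] (rep (p i))) ≤
          n * (finrank ℚ M * ((q : ℝ) ^ 0 * hp F q (p i) + ch F q)) := by gcongr
        _ = _ := by
            rw [pow_zero]
            ring
    refine (Finset.sum_le_sum fun i _ => h6 i).trans (le_of_eq ?_)
    rw [← Finset.mul_sum, ← Finset.mul_sum, Finset.sum_add_distrib, Finset.sum_const,
      Finset.card_univ, Fintype.card_fin, nsmul_eq_mul, hp2 (hp F q)]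
    push_cast
    ring
  calc (finrank ℚ M : ℝ) * Real.log (n + 1).factorial +
        ∑ x ∈ (Finset.univ : Finset (Fin (n + 1))) ×ˢ Finset.range 1,
          (n : ℝ) * Height.logHeight ((act F)^[x.2] (rep (p x.1))) ≤
        finrank ℚ M * (((n + 1 : ℕ) : ℝ) * Real.log ((n + 1 : ℕ) : ℝ)) +
        finrank ℚ M * ((((n + 1 : ℕ) : ℝ) - 1) * (((n + 1 : ℕ) : ℝ) * ch F q +
        ∑ p ∈ S, hp F q p)) := by
        gcongr
    _ = _ := by ring

open Classical in
lemma ES_erase (S : Finset (Option M)) {w : Option M} (hw : w ∈ S) :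
    ES P (S.erase w) = ES P S - 2 * ∑ p ∈ S, ee P w p := by
  unfold ES
  have h1 : ∀ p, ∑ p' ∈ S.erase w, ee P p p' = ∑ p' ∈ S, ee P p p' - ee P p w := fun p =>
    Finset.sum_erase_eq_sub hw
  rw [Finset.sum_congr rfl fun p _ => h1 p, Finset.sum_erase_eq_sub hw, Finset.sum_sub_distrib,
    ee_self]
  have h2 : ∑ p ∈ S, ee P p w = ∑ p ∈ S, ee P w p := Finset.sum_congr rfl fun p _ => ee_comm _ _
  rw [h2]
  ring

open Classical in
lemma sum_ES_erase (S : Finset (Option M)) :
    ∑ w ∈ S, ES P (S.erase w) = ((S.card : ℝ) - 2) * ES P S := by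
  rw [Finset.sum_congr rfl fun w hw => ES_erase S hw, Finset.sum_sub_distrib, Finset.sum_const,
    nsmul_eq_mul, ← Finset.mul_sum]
  unfold ES
  ring

open Classical in
/-- averaging -/
lemma ES_avg {f : Option M → ℝ} {α β : ℝ} {N : ℕ} (hN : 2 ≤ N)
    (h0 : ∀ S : Finset (Option M), S.card = N →
      ES P S ≤ α * (N * ((N : ℝ) - 1)) + β * ((N : ℝ) - 1) * ∑ p ∈ S, f p)
    {m : ℕ} (hm : N ≤ m) (S : Finset (Option M)) (hS : S.card = m) :
    ES P S ≤ α * (m * ((m : ℝ) - 1)) + β * ((m : ℝ) - 1) * ∑ p ∈ S, f p := by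
  induction m, hm using Nat.le_induction generalizing S with
  | base => exact h0 S hS
  | succ m hm ih =>
    have hm2 : (2 : ℝ) ≤ m := by exact_mod_cast hN.trans hm
    have h1 := sum_ES_erase (P := P) S
    have h2 : ∑ w ∈ S, ES P (S.erase w) ≤ ∑ w ∈ S, (α * (m * ((m : ℝ) - 1)) +
        β * ((m : ℝ) - 1) * (∑ p ∈ S, f p - f w)) := by
      refine Finset.sum_le_sum fun w hw => ?_
      have h3 := ih (S.erase w) (by rw [Finset.card_erase_of_mem hw, hS]; rfl)
      rwa [Finset.sum_erase_eq_sub hw] at h3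
    rw [h1, Finset.sum_add_distrib, Finset.sum_const, ← Finset.mul_sum, Finset.sum_sub_distrib,
      Finset.sum_const, nsmul_eq_mul, nsmul_eq_mul, hS] at h2
    push_cast at h2 ⊢
    set E := ES P S
    set s := ∑ p ∈ S, f p
    have h4 : ((m : ℝ) - 1) * E ≤ ((m : ℝ) - 1) *
        (α * (((m : ℝ) + 1) * ((m : ℝ) + 1 - 1)) + β * ((m : ℝ) + 1 - 1) * s) := by
      calc ((m : ℝ) - 1) * E = ((m : ℝ) + 1 - 2) * E := by ring
        _ ≤ _ := h2
        _ = _ := by ring
    exact le_of_mul_le_mul_left h4 (by linarith)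

/-- the constant in the energy inequality -/
def cE (F : Fin 2 → MvPolynomial (Fin 2) (𝓞 K)) (q : ℕ) : ℝ :=
  8 * q * (Real.log q + q * ch F q) + 2 * (Real.log q + q * ch F q) + 2 * q

/-- the energy inequality -/
lemma Good.ES_le (h : Good P F q) (hP0 : P ≠ ⊥) (S : Finset (Option M)) (hS : 1 ≤ S.card) :
    ES P S ≤ finrank ℚ M * (cE F q * (S.card * (1 + Real.log S.card + ∑ p ∈ S, hp F q p))) := by
  have hq := h.two_le hP0
  have hq' : (2 : ℝ) ≤ q := by exact_mod_cast hq
  have hM := nQ_pos M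
  have hc := ch_nonneg (F := F) (q := q)
  have hlq : 0 < Real.log q := Real.log_pos (by linarith)
  have hS' : (1 : ℝ) ≤ S.card := by exact_mod_cast hS
  have hlS : 0 ≤ Real.log S.card := Real.log_nonneg hS'
  have hsum : 0 ≤ ∑ p ∈ S, hp F q p := Finset.sum_nonneg fun p _ => h.hp_nonneg hP0 p
  set m : ℝ := (S.card : ℝ) with hm
  set s := ∑ p ∈ S, hp F q p with hs
  set c := Real.log q + q * ch F q with hcdef
  have hc0 : 0 < c := by positivity
  by_cases hsm : S.card < q
  · -- small sets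
    refine (h.ES_small hP0 hS).trans ?_
    rw [mul_comm (2 : ℝ) (finrank ℚ M : ℝ), mul_assoc]
    apply mul_le_mul_of_nonneg_left _ hM.le
    have hmq : m ≤ q := by
      rw [hm]
      exact_mod_cast hsm.le
    have h1 : (m - 1) * (m * ch F q + s) ≤ m * (q * ch F q + q * s) := by
      have h2 : (m - 1) * (m * ch F q) ≤ m * (q * ch F q) := by
        nlinarith [mul_nonneg (by linarith : (0 : ℝ) ≤ m) hc]
      have h3 : (m - 1) * s ≤ m * (q * s) := by
        nlinarith [mul_nonneg (by linarith : (0 : ℝ) ≤ m) hsum]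
      linarith
    have hbig : 2 ≤ cE F q := by
      unfold cE
      rw [← hcdef]
      nlinarith
    have hbig2 : 2 * (q * ch F q) ≤ cE F q := by
      unfold cE
      rw [← hcdef]
      nlinarith
    have hbig3 : 2 * (q : ℝ) ≤ cE F q := by
      unfold cE
      rw [← hcdef]
      nlinarith
    have h4 : 2 * (m * Real.log m + m * (q * ch F q + q * s)) ≤
        cE F q * (m * (1 + Real.log m + s)) := by
      have e1 : 2 * (m * Real.log m) ≤ cE F q * (m * Real.log m) := by
        apply mul_le_mul_of_nonneg_right hbig (by positivity)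
      have e2 : 2 * (m * (q * ch F q)) ≤ cE F q * m := by nlinarith
      have e3 : 2 * (m * (q * s)) ≤ cE F q * (m * s) := by
        have : 2 * (m * (q * s)) = (2 * q) * (m * s) := by ring
        rw [this]
        apply mul_le_mul_of_nonneg_right hbig3 (by positivity)
      linarith
    linarith
  · -- large sets
    push Not at hsm
    set k := Nat.log q S.card with hk
    have hk1 : 1 ≤ k := Nat.log_pos (by omega) hsm
    have hkN : q ^ k ≤ S.card := Nat.pow_log_le_self q (by omega)
    have hkN' : S.card < q ^ (k + 1) := Nat.lt_pow_succ_log_self (by omega) _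
    have hN2 : 2 ≤ q ^ k := by
      calc 2 ≤ q := hq
        _ ≤ q ^ k := Nat.le_self_pow (by omega) _
    set N : ℝ := (q : ℝ) ^ k with hN
    have hNr : (2 : ℝ) ≤ N := by
      rw [hN]
      exact_mod_cast hN2
    have hNN : ((q ^ k : ℕ) : ℝ) = N := by push_cast; rfl
    have h1 := ES_avg (P := P) (f := hp F q)
      (α := 2 * finrank ℚ M * (k * c) / (N - 1)) (β := 2 * finrank ℚ M) hN2 (by
        intro T hT
        rw [hNN]
        refine (h.ES_pow hP0 hT).trans (le_of_eq ?_)
        have : N - 1 ≠ 0 := by linarith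
        rw [← hN, ← hcdef]
        field_simp) hkN S rfl
    refine h1.trans ?_
    have h2 : m - 1 ≤ (q + 1) * (N - 1) := by
      have h3 : m + 1 ≤ q * N := by
        have : S.card + 1 ≤ q * q ^ k := by
          rw [← pow_succ']
          exact hkN'
        rw [hm, hN]
        exact_mod_cast this
      have h4 : (q : ℝ) ≤ N := by
        rw [hN]
        exact_mod_cast Nat.le_self_pow (n := k) (by omega) q
      nlinarith
    have h3 : 2 * finrank ℚ M * (k * c) / (N - 1) * (m * (m - 1)) ≤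
        finrank ℚ M * (m * (2 * (q + 1) * (k * c))) := by
      have h4 : 0 < N - 1 := by linarith
      rw [div_mul_eq_mul_div, div_le_iff₀ h4]
      have h5 : 0 ≤ 2 * (finrank ℚ M : ℝ) * (k * c) * m := by positivity
      calc 2 * (finrank ℚ M : ℝ) * (k * c) * (m * (m - 1)) =
          2 * (finrank ℚ M : ℝ) * (k * c) * m * (m - 1) := by ring
        _ ≤ 2 * (finrank ℚ M : ℝ) * (k * c) * m * ((q + 1) * (N - 1)) := by gcongr
        _ = _ := by ring
    have h6 : (k : ℝ) ≤ 2 * Real.log m := by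
      have h7 : (k : ℝ) * Real.log q ≤ Real.log m := by
        rw [← Real.log_pow]
        apply Real.log_le_log (by positivity)
        rw [← hN, ← hNN, hm]
        exact_mod_cast hkN
      have h8 : (1 : ℝ) / 2 ≤ Real.log q := by
        have h9 : Real.log 2 ≤ Real.log q := Real.log_le_log (by norm_num) hq'
        have := Real.log_two_gt_d9
        linarith
      have h9 : (k : ℝ) * (1 / 2) ≤ k * Real.log q := by gcongr
      linarith
    have h10 : 2 * (finrank ℚ M : ℝ) * (m - 1) * s ≤ finrank ℚ M * (m * (2 * s)) := by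
      have : 0 ≤ (finrank ℚ M : ℝ) * s := by positivity
      nlinarith
    have h11 : m * (2 * ((q : ℝ) + 1) * (k * c)) + m * (2 * s) ≤
        cE F q * (m * (1 + Real.log m + s)) := by
      have e1 : 2 * ((q : ℝ) + 1) * (k * c) ≤ cE F q * Real.log m := by
        have e2 : 2 * ((q : ℝ) + 1) * (k * c) ≤ 2 * ((q : ℝ) + 1) * ((2 * Real.log m) * c) := by
          gcongr
        have e3 : 2 * ((q : ℝ) + 1) * ((2 * Real.log m) * c) ≤ cE F q * Real.log m := by
          have e4 : 2 * ((q : ℝ) + 1) * (2 * c) ≤ cE F q := by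
            unfold cE
            rw [← hcdef]
            nlinarith
          calc 2 * ((q : ℝ) + 1) * ((2 * Real.log m) * c) =
              (2 * ((q : ℝ) + 1) * (2 * c)) * Real.log m := by ring
            _ ≤ _ := by gcongr
        linarith
      have e2 : 2 * s ≤ cE F q * s := by
        have : 2 ≤ cE F q := by
          unfold cE
          rw [← hcdef]
          nlinarith
        gcongr
      have e3 : 0 ≤ cE F q := by
        unfold cE
        rw [← hcdef]
        positivity
      calc m * (2 * ((q : ℝ) + 1) * (k * c)) + m * (2 * s) ≤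
          m * (cE F q * Real.log m) + m * (cE F q * s) := by gcongr
        _ ≤ m * (cE F q * Real.log m) + m * (cE F q * s) + cE F q * m := by
            have : 0 ≤ cE F q * m := by positivity
            linarith
        _ = _ := by ring
    calc _ ≤ finrank ℚ M * (m * (2 * (q + 1) * (k * c))) + finrank ℚ M * (m * (2 * s)) := by
          linarith
      _ = finrank ℚ M * (m * (2 * ((q : ℝ) + 1) * (k * c)) + m * (2 * s)) := by ring
      _ ≤ _ := by gcongr

end

end Pool.Agent.H420R3
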