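import Mathlib
import Pool.Agent.H420R3.Drop
import Pool.Agent.H420R3.Assembly

/-!
The lower bound for maps congruent to a power of Frobenius.
-/

set_option autoImplicit false
set_option linter.unusedSectionVars false

namespace Pool.Agent.H420R3

open NumberField Module MvPolynomial IsDedekindDomain Filter Topology
open scoped Pointwise

noncomputable section

variable {K : Type*} [Field K] [NumberField K]
variable {F : Fin 2 → MvPolynomial (Fin 2) (𝓞 K)}
variable {P : Ideal (𝓞 K)} [hP : P.IsMaximal] {q : ℕ}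

/-- final constants -/
def c1 (P : Ideal (𝓞 K)) (F : Fin 2 → MvPolynomial (Fin 2) (𝓞 K)) (q : ℕ) : ℝ :=
  2 * (2 * cA P F q + 3) * Real.log q + 2

/-- final constants -/
def c2 (P : Ideal (𝓞 K)) (F : Fin 2 → MvPolynomial (Fin 2) (𝓞 K)) (q : ℕ) : ℝ :=
  2 * (2 * cA P F q * Real.exp (4 * cA P F q * q) + 1) * (q : ℝ) ^ 3

lemma Good.c1_pos (h : Good P F q) (hP0 : P ≠ ⊥) : 0 < c1 P F q := by
  have hq' : (2 : ℝ) ≤ q := by exact_mod_cast h.two_le hP0
  have hlq : 0 < Real.log q := Real.log_pos (by linarith)
  have := h.cA_pos hP0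
  unfold c1
  positivity

lemma Good.c2_pos (h : Good P F q) (hP0 : P ≠ ⊥) : 0 < c2 P F q := by
  have hq' : (2 : ℝ) ≤ q := by exact_mod_cast h.two_le hP0
  have := h.cA_pos hP0
  unfold c2
  positivity

/-- the lower bound over a Galois extension -/
lemma Good.main_gal (h : Good P F q) (hP0 : P ≠ ⊥) {M : Type*} [Field M] [NumberField M]
    [Algebra K M] [IsGalois K M] {p : Option M} (hpw : Wand F p) :
    Real.exp (-(c1 P F q * Real.sqrt (1 + Real.log (dg K p)))) / c2 P F q ≤
      dg K p * hp F q p := by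
  have hq := h.two_le hP0
  have hq' : (2 : ℝ) ≤ q := by exact_mod_cast hq
  have hA := h.cA_pos hP0
  set A := cA P F q with hAdef
  set B := 2 * A * Real.exp (4 * A * q) with hB
  have hB0 : 0 < B := by positivity
  have hD0 : (0 : ℝ) < dg K p := by exact_mod_cast dg_pos p
  set D : ℕ → ℕ := fun i => dg K ((phi F)^[i] p) with hD
  have hDD0 : D 0 = dg K p := rfl
  set y := (D 0 : ℝ) * hp F q p with hy
  have hy0 : 0 ≤ y := mul_nonneg (by positivity) (h.hp_nonneg hP0 p)
  have hhp : ∀ j, hp F q ((phi F)^[j] p) = (q : ℝ) ^ j * y / D 0 := by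
    intro j
    rw [h.hp_iter hP0, hy]
    rw [hDD0]
    field_simp
  obtain ⟨m, hm1, hm2, hm3⟩ := choose_m hA (n := D 0) (dg_pos p)
  have hDle : ∀ i, D (i + 1) ≤ D i := by
    intro i
    have := dg_phi_le F ((phi F)^[i] p) 1
    rw [← Function.iterate_add_apply, add_comm] at this
    exact this
  have key := combine (D := D) (q := q) (A := A) (B := B) (h := y) hq (fun i => dg_pos _) hDle hA
    hB0.le hy0 (by
      intro j hj hs
      rw [← hhp] at hs ⊢
      exact h.drop hP0 hpw j hj hs) (by
      intro i m hm hst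
      have h1 := h.run hP0 (hpw.iter i) hm (by
        intro t ht
        rw [← Function.iterate_add_apply, add_comm t i]
        exact hst t ht)
      rw [hhp] at h1
      exact h1) hm1 hm2
  set s := Real.sqrt (1 + Real.log (D 0)) with hs
  have hn' : (1 : ℝ) ≤ D 0 := by exact_mod_cast dg_pos p
  have hl : 0 ≤ Real.log (D 0) := Real.log_nonneg hn'
  have hs2 : s ^ 2 = 1 + Real.log (D 0) := Real.sq_sqrt (by linarith)
  have hs0 : 0 ≤ s := Real.sqrt_nonneg _
  refine le_trans ?_ key
  rw [le_div_iff₀ (by positivity)]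
  have hlq : 0 < Real.log q := Real.log_pos (by linarith)
  have h1 : (q : ℝ) ^ (2 * m + 1) ≤
      Real.exp (2 * (2 * A + 3) * Real.log q * s) * (q : ℝ) ^ 3 := by
    have h2 : (q : ℝ) ^ (2 * m + 1) = Real.exp ((2 * m + 1) * Real.log q) := by
      rw [← Real.exp_log (show (0 : ℝ) < (q : ℝ) ^ (2 * m + 1) by positivity), Real.log_pow]
      push_cast
      rfl
    have h3 : (q : ℝ) ^ 3 = Real.exp (3 * Real.log q) := by
      rw [← Real.exp_log (show (0 : ℝ) < (q : ℝ) ^ 3 by positivity), Real.log_pow]
      norm_num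
    rw [h2, h3, ← Real.exp_add, Real.exp_le_exp]
    have h4 : (2 * (m : ℝ) + 1) * Real.log q ≤
        (2 * ((2 * A + 3) * s + 1) + 1) * Real.log q := by gcongr
    linarith
  have h2 : 1 + Real.log (D 0) ≤ Real.exp (2 * s) := by
    rw [← hs2]
    have h3 : s ≤ Real.exp s := by
      have := Real.add_one_le_exp s
      linarith
    calc s ^ 2 ≤ (Real.exp s) ^ 2 := by gcongr
      _ = Real.exp (2 * s) := by
          rw [← Real.exp_nat_mul]
          norm_num
  have h3 : (q : ℝ) ^ (2 * m + 1) * (2 * (B + 1) * (1 + Real.log (D 0))) ≤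
      c2 P F q * Real.exp (c1 P F q * s) := by
    calc (q : ℝ) ^ (2 * m + 1) * (2 * (B + 1) * (1 + Real.log (D 0))) ≤
        (Real.exp (2 * (2 * A + 3) * Real.log q * s) * (q : ℝ) ^ 3) *
          (2 * (B + 1) * Real.exp (2 * s)) := by gcongr
      _ = (2 * (B + 1) * (q : ℝ) ^ 3) *
          (Real.exp (2 * (2 * A + 3) * Real.log q * s) * Real.exp (2 * s)) := by ring
      _ = c2 P F q * Real.exp (c1 P F q * s) := by
          rw [← Real.exp_add, c1, c2, ← hAdef, ← hB]
          congr 2
          ring
  have hc2 := h.c2_pos hP0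
  have hsdg : Real.sqrt (1 + Real.log (dg K p)) = s := rfl
  rw [hsdg]
  calc Real.exp (-(c1 P F q * s)) / c2 P F q *
      ((q : ℝ) ^ (2 * m + 1) * (2 * (B + 1) * (1 + Real.log (D 0)))) ≤
      Real.exp (-(c1 P F q * s)) / c2 P F q * (c2 P F q * Real.exp (c1 P F q * s)) := by gcongr
    _ = 1 := by
        rw [Real.exp_neg]
        have := Real.exp_pos (c1 P F q * s)
        field_simp

/-! ### arbitrary extensions -/

section Ext

variable (K) (L : Type*) [Field L] [NumberField L] [Algebra K L]

/-- the Galois closure -/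
abbrev NC := IntermediateField.normalClosure K L (AlgebraicClosure L)

instance instNFNC : NumberField (NC K L) := NumberField.of_module_finite K (NC K L)

end Ext

section Ext2

variable {L : Type*} [Field L] [NumberField L] [Algebra K L]
variable {L' : Type*} [Field L'] [NumberField L'] [Algebra K L'] [Algebra L L']
  [IsScalarTower K L L']

variable (L') in
/-- base change of a point -/
def bc (p : Option L) : Option L' := p.map (algebraMap L L')

lemma rep_bc (p : Option L) : rep (bc L' p) = fun i => algebraMap L L' (rep p i) := by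
  cases p with
  | none =>
    funext i
    fin_cases i <;> simp [bc, rep]
  | some t =>
    funext i
    fin_cases i <;> simp [bc, rep]

lemma pt_ext (z : Fin 2 → L) : pt (fun i => algebraMap L L' (z i)) = bc L' (pt z) := by
  unfold pt bc
  by_cases h : z 1 = 0
  · simp [h]
  · simp [h]

lemma phi_bc (p : Option L) : phi F (bc L' p) = bc L' (phi F p) := by
  unfold phi
  rw [rep_bc, act_ext, pt_ext]

lemma phi_iter_bc (p : Option L) (n : ℕ) :
    (phi F)^[n] (bc L' p) = bc L' ((phi F)^[n] p) := by
  induction n with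
  | zero => rfl
  | succ n ih => rw [Function.iterate_succ_apply', ih, phi_bc, Function.iterate_succ_apply']

lemma bc_inj : Function.Injective (bc (L := L) L') :=
  Option.map_injective (algebraMap L L').injective

lemma Wand.bc {p : Option L} (h : Wand F p) : Wand F (bc L' p) := by
  intro a b hab
  simp only [phi_iter_bc] at hab
  exact h (bc_inj hab)

lemma hp_bc (p : Option L) : hp F q (bc L' p) = hp F q p := by
  unfold hp
  rw [rep_bc, hh_ext]

lemma dg_bc_le (p : Option L) : dg K (bc L' p) ≤ finrank K L := by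
  classical
  have h1 : orbK K (bc L' p) ⊆
      (Finset.univ : Finset (L →ₐ[K] L')).image fun ψ : L →ₐ[K] L' => p.map ψ := by
    intro w hw
    obtain ⟨g, rfl⟩ := mem_orbK.mp hw
    rw [Finset.mem_image]
    refine ⟨g.toAlgHom.comp (IsScalarTower.toAlgHom K L L'), Finset.mem_univ _, ?_⟩
    cases p with
    | none => rfl
    | some t => rfl
  calc dg K (bc L' p) ≤ ((Finset.univ : Finset (L →ₐ[K] L')).image fun ψ : L →ₐ[K] L' => p.map ψ).card :=
        Finset.card_le_card h1
    _ ≤ (Finset.univ : Finset (L →ₐ[K] L')).card := Finset.card_image_le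
    _ = Fintype.card (L →ₐ[K] L') := Finset.card_univ
    _ ≤ finrank K L := by
        have := card_algHom_le_finrank K L L'
        rwa [Nat.card_eq_fintype_card] at this

end Ext2

/-- the lower bound over any extension -/
lemma Good.main (h : Good P F q) (hP0 : P ≠ ⊥) {L : Type*} [Field L] [NumberField L]
    [Algebra K L] {p : Option L} (hpw : Wand F p) :
    Real.exp (-(c1 P F q * Real.sqrt (1 + Real.log (finrank K L)))) /
      (c2 P F q * finrank K L) ≤ hp F q p := by
  have hw : Wand F (bc (NC K L) p) := hpw.bc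
  have h1 := h.main_gal hP0 hw
  rw [hp_bc] at h1
  have h2 : (dg K (bc (NC K L) p) : ℝ) ≤ finrank K L := by exact_mod_cast dg_bc_le p
  have h3 : (1 : ℝ) ≤ dg K (bc (NC K L) p) := by exact_mod_cast dg_pos (bc (NC K L) p)
  have h4 := h.hp_nonneg hP0 p
  have hc1 := h.c1_pos hP0
  have hc2 := h.c2_pos hP0
  have hn : (0 : ℝ) < finrank K L := by linarith
  set D : ℝ := (dg K (bc (NC K L) p) : ℝ)
  have h5 : Real.exp (-(c1 P F q * Real.sqrt (1 + Real.log (finrank K L)))) / c2 P F q ≤
      finrank K L * hp F q p := by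
    calc Real.exp (-(c1 P F q * Real.sqrt (1 + Real.log (finrank K L)))) / c2 P F q ≤
        Real.exp (-(c1 P F q * Real.sqrt (1 + Real.log D))) / c2 P F q := by
          gcongr
      _ ≤ D * hp F q p := h1
      _ ≤ finrank K L * hp F q p := by gcongr
  rw [← div_div, div_le_iff₀ hn, mul_comm (hp F q p)]
  exact h5

end

end Pool.Agent.H420R3
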