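import Mathlib
import Pool.Agent.H420R3.Main

/-!
Reduction to maps congruent to a power of Frobenius.
-/

set_option autoImplicit false
set_option linter.unusedSectionVars false

namespace Pool.Agent.H420R3

open NumberField Module MvPolynomial IsDedekindDomain Filter Topology

noncomputable section

section Fit

variable {R : Type*} [CommRing R]

/-- iterates of a pair of forms -/
def Fit (F : Fin 2 → MvPolynomial (Fin 2) R) : ℕ → Fin 2 → MvPolynomial (Fin 2) R
  | 0 => X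
  | s + 1 => fun i => bind₁ (Fit F s) (F i)

lemma act_Fit {S : Type*} [CommRing S] [Algebra R S] (F : Fin 2 → MvPolynomial (Fin 2) R)
    (s : ℕ) (z : Fin 2 → S) : act (Fit F s) z = (act F)^[s] z := by
  induction s with
  | zero =>
    funext i
    simp [act, Fit]
  | succ s ih =>
    rw [Function.iterate_succ_apply', ← ih]
    funext i
    simp only [act, Fit]
    rw [aeval_bind₁]
    rfl

lemma sum_one_mat {R : Type*} [CommRing R] (i : Fin 2) (n : ℕ) :
    ∑ l, C ((1 : Matrix (Fin 2) (Fin 2) R) i l) * X l ^ n =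
      (X i ^ n : MvPolynomial (Fin 2) R) := by
  rw [Finset.sum_eq_single i]
  · rw [Matrix.one_apply_eq, C_1, one_mul]
  · intro l _ hl
    rw [Matrix.one_apply_ne hl.symm, C_0, zero_mul]
  · intro h
    exact absurd (Finset.mem_univ i) h

lemma act_Fit_iter {S : Type*} [CommRing S] [Algebra R S] (F : Fin 2 → MvPolynomial (Fin 2) R)
    (s n : ℕ) (z : Fin 2 → S) : (act (Fit F s))^[n] z = (act F)^[s * n] z := by
  induction n with
  | zero => rfl
  | succ n ih =>
    rw [Function.iterate_succ_apply', ih, act_Fit, ← Function.iterate_add_apply, Nat.mul_succ,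
      Nat.add_comm]

lemma Fit_hom {F : Fin 2 → MvPolynomial (Fin 2) R} {q : ℕ} (hF : ∀ i, (F i).IsHomogeneous q)
    (s : ℕ) (i : Fin 2) : (Fit F s i).IsHomogeneous (q ^ s) := by
  induction s generalizing i with
  | zero => simpa [Fit] using isHomogeneous_X R i
  | succ s ih =>
    have := (hF i).aeval (Fit F s) ih
    rw [← pow_succ] at this
    exact this

end Fit

variable {K : Type*} [Field K] [NumberField K]
variable {F : Fin 2 → MvPolynomial (Fin 2) (𝓞 K)}
variable {P : Ideal (𝓞 K)} [hP : P.IsMaximal] {q : ℕ}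

lemma charP_quot {p : ℕ} (hp : p.Prime) (hpP : (p : 𝓞 K) ∈ P) : CharP (𝓞 K ⧸ P) p := by
  have h0 : ((p : ℕ) : 𝓞 K ⧸ P) = 0 := by
    rw [← map_natCast (Ideal.Quotient.mk P) p]
    exact Ideal.Quotient.eq_zero_iff_mem.mpr hpP
  have hnt : Nontrivial (𝓞 K ⧸ P) := Ideal.Quotient.nontrivial_iff.mpr hP.ne_top
  obtain ⟨c, hc⟩ := CharP.exists (𝓞 K ⧸ P)
  have h1 : c ∣ p := (CharP.cast_eq_zero_iff (𝓞 K ⧸ P) c p).mp h0
  rcases (Nat.dvd_prime hp).mp h1 with h2 | h2
  · exfalso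
    exact CharP.char_ne_one (𝓞 K ⧸ P) c h2
  · rwa [h2] at hc

/-- reduction of the iterates -/
lemma rd_Fit {p r : ℕ} (hp : p.Prime) (hpP : (p : 𝓞 K) ∈ P)
    {γ : Matrix (Fin 2) (Fin 2) (𝓞 K ⧸ P)}
    (hF : ∀ i, rd P (F i) = ∑ k, C (γ i k) * X k ^ (p ^ r)) (s : ℕ) (i : Fin 2) :
    rd P (Fit F s i) = ∑ l, C (((fun B : Matrix (Fin 2) (Fin 2) (𝓞 K ⧸ P) =>
      γ * B.map (fun x => x ^ (p ^ r)))^[s] 1) i l) * X l ^ ((p ^ r) ^ s) := by
  have hchar := charP_quot hp hpP
  have : Fact p.Prime := ⟨hp⟩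
  have hexp : ExpChar (MvPolynomial (Fin 2) (𝓞 K ⧸ P)) p := by
    have : CharP (MvPolynomial (Fin 2) (𝓞 K ⧸ P)) p := inferInstance
    exact ExpChar.prime hp
  induction s generalizing i with
  | zero =>
    simp only [Function.iterate_zero, id_eq, pow_zero, pow_one, Fit]
    have h1 : rd P (X i) = X i := map_X _ _
    have h2 := sum_one_mat (R := 𝓞 K ⧸ P) i 1
    rw [pow_one] at h2
    rw [h1, ← h2]
    refine Finset.sum_congr rfl fun l _ => ?_
    rw [pow_one]
  | succ s ih =>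
    rw [Function.iterate_succ_apply']
    set B := (fun B : Matrix (Fin 2) (Fin 2) (𝓞 K ⧸ P) =>
      γ * B.map (fun x => x ^ (p ^ r)))^[s] 1 with hB
    have h1 : rd P (Fit F (s + 1) i) = bind₁ (fun k => rd P (Fit F s k)) (rd P (F i)) :=
      map_bind₁ _ _ _
    rw [h1, hF i, map_sum]
    have h2 : ∀ k, bind₁ (fun k => rd P (Fit F s k)) (C (γ i k) * X k ^ (p ^ r)) =
        ∑ l, C (γ i k * B k l ^ (p ^ r)) * X l ^ ((p ^ r) ^ (s + 1)) := by
      intro k
      rw [map_mul, map_pow, bind₁_X_right, bind₁_C_right, ih k, sum_pow_char_pow, Finset.mul_sum]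
      refine Finset.sum_congr rfl fun l _ => ?_
      rw [mul_pow, ← C_pow, ← pow_mul, ← pow_succ, C_mul, mul_assoc]
    rw [Finset.sum_congr rfl fun k _ => h2 k, Finset.sum_comm]
    refine Finset.sum_congr rfl fun l _ => ?_
    rw [← Finset.sum_mul, Matrix.mul_apply, map_sum]
    rfl

/-- some iterate is congruent to a power of Frobenius -/
lemma exists_good (hP0 : P ≠ ⊥) {p r : ℕ} (hp : p.Prime) (hr : 1 ≤ r) (hpP : (p : 𝓞 K) ∈ P)
    (hhom : ∀ i, (F i).IsHomogeneous (p ^ r))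
    {γ : Matrix (Fin 2) (Fin 2) (𝓞 K ⧸ P)} (hγ : IsUnit γ.det)
    (hF : ∀ i, rd P (F i) = ∑ k, C (γ i k) * X k ^ (p ^ r)) :
    ∃ s, 1 ≤ s ∧ Good P (Fit F s) ((p ^ r) ^ s) := by
  have hchar := charP_quot hp hpP
  have : Fact p.Prime := ⟨hp⟩
  let : Field (𝓞 K ⧸ P) := Ideal.Quotient.field P
  have hfin : Finite (𝓞 K ⧸ P) := Ideal.finiteQuotientOfFreeOfNeBot P hP0
  let : Fintype (𝓞 K ⧸ P) := Fintype.ofFinite _
  have hcard : Ideal.absNorm P = Fintype.card (𝓞 K ⧸ P) := by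
    rw [Ideal.absNorm_apply, Submodule.cardQuot_apply, Nat.card_eq_fintype_card]
  obtain ⟨h, -, hh⟩ := FiniteField.card (𝓞 K ⧸ P) p
  set T : Matrix (Fin 2) (Fin 2) (𝓞 K ⧸ P) → Matrix (Fin 2) (Fin 2) (𝓞 K ⧸ P) := fun B =>
      γ * B.map (fun x => x ^ (p ^ r)) with hT
  have hTinj : Function.Injective T := by
    intro A B hAB
    have h1 : A.map (fun x => x ^ (p ^ r)) = B.map (fun x => x ^ (p ^ r)) := by
      have h2 := congrArg (fun Z => γ⁻¹ * Z) hAB
      simp only [hT] at h2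
      rwa [← Matrix.mul_assoc, ← Matrix.mul_assoc, Matrix.nonsing_inv_mul _ hγ, Matrix.one_mul,
        Matrix.one_mul] at h2
    ext i j
    have h3 : A i j ^ (p ^ r) = B i j ^ (p ^ r) := congrFun (congrFun h1 i) j
    exact iterateFrobenius_inj (𝓞 K ⧸ P) p r (by
      rw [iterateFrobenius_def, iterateFrobenius_def]
      exact h3)
  obtain ⟨a, c, hac, hac'⟩ := Finite.exists_ne_map_eq_of_infinite fun n : ℕ => T^[n] 1
  obtain ⟨t, ht, ht'⟩ : ∃ t, 1 ≤ t ∧ T^[t] 1 = 1 := by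
    wlog hlt : a < c generalizing a c
    · exact this c a hac.symm hac'.symm (by omega)
    refine ⟨c - a, by omega, ?_⟩
    have h3 : T^[a] (T^[c - a] 1) = T^[a] 1 := by
      rw [← Function.iterate_add_apply, Nat.add_sub_cancel' hlt.le]
      exact hac'.symm
    exact (hTinj.iterate a) h3
  refine ⟨t * h, Nat.mul_pos ht h.pos, Fit_hom hhom _, ⟨r * t, Nat.mul_pos hr ht, ?_⟩, ?_⟩
  · rw [hcard, hh, ← pow_mul, ← pow_mul]
    congr 1
    ring
  · intro i
    rw [← rd_eq_iff, rd_Fit hp hpP hF]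
    have h1 : T^[t * h] 1 = 1 := by
      rw [Function.iterate_mul]
      exact Function.iterate_fixed ht' _
    rw [← hT, h1, map_pow]
    have h2 : rd P (X i) = X i := map_X _ _
    rw [h2, sum_one_mat]

/-! ### limits along the full sequence -/

lemma tendsto_of_sub {a : ℕ → ℝ} {q C l : ℝ} {s : ℕ} (hq : 2 ≤ q) (hC : 0 ≤ C) (hs : 1 ≤ s)
    (h0 : ∀ n, 0 ≤ a n) (h : ∀ n, a (n + 1) ≤ q * a n + C)
    (hl : Tendsto (fun n => a (s * n) / q ^ (s * n)) atTop (𝓝 l)) :
    Tendsto (fun n => a n / q ^ n) atTop (𝓝 l) := by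
  set b : ℕ → ℝ := fun n => (a n + C) / q ^ n with hb
  have hanti : Antitone b := by
    apply antitone_nat_of_succ_le
    intro n
    simp only [hb]
    rw [div_le_div_iff₀ (by positivity) (by positivity), pow_succ]
    have h1 := h n
    have h2 : a (n + 1) + C ≤ q * (a n + C) := by nlinarith
    have h3 : (0 : ℝ) < q ^ n := by positivity
    nlinarith
  have hbd : ∀ n, 0 ≤ b n := fun n => by
    have := h0 n
    simp only [hb]
    positivity
  have h1 : Tendsto b atTop (𝓝 (⨅ n, b n)) :=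
    tendsto_atTop_ciInf hanti ⟨0, by rintro _ ⟨n, rfl⟩; exact hbd n⟩
  have h2 : Tendsto (fun n : ℕ => C / q ^ n) atTop (𝓝 0) := by
    have h3 : Tendsto (fun n : ℕ => q ^ n) atTop atTop :=
      tendsto_pow_atTop_atTop_of_one_lt (by linarith)
    exact h3.const_div_atTop C
  have h3 : Tendsto (fun n => a n / q ^ n) atTop (𝓝 (⨅ n, b n)) := by
    have h4 := h1.sub h2
    rw [sub_zero] at h4
    refine h4.congr fun n => ?_
    simp only [hb]
    ring
  have h4 : Tendsto (fun n => a (s * n) / q ^ (s * n)) atTop (𝓝 (⨅ n, b n)) :=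
    h3.comp ((strictMono_mul_left_of_pos (show 0 < s by omega)).tendsto_atTop)
  rw [tendsto_nhds_unique hl h4]
  exact h3

end

end Pool.Agent.H420R3
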