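import Mathlib
import Pool.Agent.H420R3.Iter

/-!
From forms with coefficients in the field to forms with integral coefficients.
-/

set_option autoImplicit false
set_option linter.unusedSectionVars false

namespace Pool.Agent.H420R3

open NumberField Module MvPolynomial IsDedekindDomain Filter Topology

noncomputable section

variable {k : Type*} [Field k] [NumberField k]

lemma v_eq_one_of_notMem (v : FinitePlace k) {b : 𝓞 k} (hb : b ∉ mi v) : v (b : k) = 1 := by
  apply le_antisymm (v_le_one v b)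
  by_contra h
  push Not at h
  exact hb ((v_lt_one_iff v b).mp h)

lemma exists_int_forms (v : FinitePlace k) (G : Fin 2 → MvPolynomial (Fin 2) k)
    (hint : ∀ i m, v ((G i).coeff m) ≤ 1) :
    ∃ (b : 𝓞 k) (Gi : Fin 2 → MvPolynomial (Fin 2) (𝓞 k)), b ∉ mi v ∧
      ∀ i, MvPolynomial.map (algebraMap (𝓞 k) k) (Gi i) = C (b : k) * G i := by
  classical
  choose a c hc hac using fun x : Fin 2 × (Fin 2 →₀ ℕ) => exists_frac v (hint x.1 x.2)
  have hc0 : ∀ x, (c x : k) ≠ 0 := by
    intro x
    rw [RingOfIntegers.coe_ne_zero_iff]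
    intro h
    exact hc x (by rw [h]; exact Submodule.zero_mem _)
  set S : Finset (Fin 2 × (Fin 2 →₀ ℕ)) :=
    (Finset.univ : Finset (Fin 2)) ×ˢ ((G 0).support ∪ (G 1).support) with hS
  set b : 𝓞 k := ∏ x ∈ S, c x with hb
  have hbm : b ∉ mi v := by
    rw [hb, Ideal.IsPrime.prod_mem_iff]
    push Not
    exact fun x _ => hc x
  have hex : ∀ i m, ∃ t : 𝓞 k, (t : k) = (b : k) * (G i).coeff m := by
    intro i m
    by_cases hm : m ∈ (G i).support
    · have hx : (i, m) ∈ S := by
        rw [hS, Finset.mem_product]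
        refine ⟨Finset.mem_univ _, ?_⟩
        rw [Finset.mem_union]
        fin_cases i
        · exact Or.inl hm
        · exact Or.inr hm
      refine ⟨(∏ x ∈ S.erase (i, m), c x) * a (i, m), ?_⟩
      have h1 : b = c (i, m) * ∏ x ∈ S.erase (i, m), c x := (Finset.mul_prod_erase S c hx).symm
      have h2 : (G i).coeff m = (a (i, m) : k) / (c (i, m) : k) := hac (i, m)
      rw [h1, h2]
      push_cast
      have := hc0 (i, m)
      field_simp
    · refine ⟨0, ?_⟩
      rw [notMem_support_iff.mp hm]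
      simp
  choose t ht using hex
  refine ⟨b, fun i => ∑ m ∈ (G i).support, monomial m (t i m), hbm, fun i => ?_⟩
  rw [map_sum]
  conv_rhs => rw [(G i).as_sum, Finset.mul_sum]
  refine Finset.sum_congr rfl fun m _ => ?_
  rw [map_monomial, C_mul_monomial]
  congr 1
  exact ht i m

/-- good purely inseparable reduction at `v` of a pair of forms of degree `q` -/
structure InsepAt (v : FinitePlace k) (q : ℕ) (G : Fin 2 → MvPolynomial (Fin 2) k) : Prop where
  integral : ∀ i m, v ((G i).coeff m) ≤ 1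
  insep : ∀ i m, m ≠ Finsupp.single 0 q → m ≠ Finsupp.single 1 q → v ((G i).coeff m) < 1
  good : v ((G 0).coeff (Finsupp.single 0 q) * (G 1).coeff (Finsupp.single 1 q) -
    (G 0).coeff (Finsupp.single 1 q) * (G 1).coeff (Finsupp.single 0 q)) = 1

lemma single_inj {q : ℕ} (hq : 1 ≤ q) {i j : Fin 2}
    (h : (Finsupp.single i q : Fin 2 →₀ ℕ) = Finsupp.single j q) : i = j := by
  rw [Finsupp.single_eq_single_iff] at h
  rcases h with h | h
  · exact h.1
  · omega

/-- an integral model some iterate of which is congruent to a power of Frobenius -/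
lemma InsepAt.exists_model {v : FinitePlace k} {p r : ℕ} (hp : p.Prime) (hr : 1 ≤ r)
    (hv : v (p : k) < 1) {G : Fin 2 → MvPolynomial (Fin 2) k}
    (hhom : ∀ i, (G i).IsHomogeneous (p ^ r)) (h : InsepAt v (p ^ r) G) :
    ∃ (b : 𝓞 k) (Gi : Fin 2 → MvPolynomial (Fin 2) (𝓞 k)) (s : ℕ), b ≠ 0 ∧
      (∀ i, MvPolynomial.map (algebraMap (𝓞 k) k) (Gi i) = C (b : k) * G i) ∧
      (∀ i, (Gi i).IsHomogeneous (p ^ r)) ∧ 1 ≤ s ∧ Good (mi v) (Fit Gi s) ((p ^ r) ^ s) := by
  classical
  obtain ⟨b, Gi, hb, hGi⟩ := exists_int_forms v G h.integral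
  have hq1 : 1 ≤ p ^ r := Nat.one_le_pow _ _ hp.pos
  have hb0 : b ≠ 0 := by
    rintro rfl
    exact hb (Submodule.zero_mem _)
  have hvb := v_eq_one_of_notMem v hb
  have hinj : Function.Injective (algebraMap (𝓞 k) k) := RingOfIntegers.coe_injective
  have hco : ∀ i m, (((Gi i).coeff m : 𝓞 k) : k) = (b : k) * (G i).coeff m := by
    intro i m
    have := congrArg (fun p => p.coeff m) (hGi i)
    simp only [coeff_map, coeff_C_mul] at this
    exact this
  have hGhom : ∀ i, (Gi i).IsHomogeneous (p ^ r) := by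
    intro i m hm
    apply hhom i
    intro h0
    apply hm
    have := hco i m
    rw [h0, mul_zero] at this
    exact RingOfIntegers.coe_eq_zero_iff.mp this
  have hpP : (p : 𝓞 k) ∈ mi v := by
    rw [← v_lt_one_iff]
    simpa using hv
  set γ : Matrix (Fin 2) (Fin 2) (𝓞 k ⧸ mi v) := Matrix.of fun i l =>
    Ideal.Quotient.mk (mi v) ((Gi i).coeff (Finsupp.single l (p ^ r))) with hγ
  let : Field (𝓞 k ⧸ mi v) := Ideal.Quotient.field (mi v)
  have hdet : IsUnit γ.det := by
    rw [isUnit_iff_ne_zero, Matrix.det_fin_two]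
    simp only [hγ, Matrix.of_apply]
    rw [← map_mul, ← map_mul, ← map_sub, Ne, Ideal.Quotient.eq_zero_iff_mem, ← v_lt_one_iff]
    have h0 : (((Gi 0).coeff (Finsupp.single 0 (p ^ r)) * (Gi 1).coeff (Finsupp.single 1 (p ^ r)) -
        (Gi 0).coeff (Finsupp.single 1 (p ^ r)) * (Gi 1).coeff (Finsupp.single 0 (p ^ r)) :
        𝓞 k) : k) = (((Gi 0).coeff (Finsupp.single 0 (p ^ r)) : 𝓞 k) : k) *
        (((Gi 1).coeff (Finsupp.single 1 (p ^ r)) : 𝓞 k) : k) -
        (((Gi 0).coeff (Finsupp.single 1 (p ^ r)) : 𝓞 k) : k) *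
        (((Gi 1).coeff (Finsupp.single 0 (p ^ r)) : 𝓞 k) : k) := by
      push_cast
      ring
    rw [h0, hco, hco, hco, hco]
    have h1 : (b : k) * (G 0).coeff (Finsupp.single 0 (p ^ r)) *
        ((b : k) * (G 1).coeff (Finsupp.single 1 (p ^ r))) -
        (b : k) * (G 0).coeff (Finsupp.single 1 (p ^ r)) *
        ((b : k) * (G 1).coeff (Finsupp.single 0 (p ^ r))) =
        (b : k) * (b : k) * ((G 0).coeff (Finsupp.single 0 (p ^ r)) *
          (G 1).coeff (Finsupp.single 1 (p ^ r)) -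
        (G 0).coeff (Finsupp.single 1 (p ^ r)) * (G 1).coeff (Finsupp.single 0 (p ^ r))) := by
      ring
    rw [h1, map_mul, map_mul, h.good, hvb]
    norm_num
  have hrd : ∀ i, rd (mi v) (Gi i) = ∑ l, C (γ i l) * X l ^ (p ^ r) := by
    intro i
    ext m
    have h1 : (rd (mi v) (Gi i)).coeff m = Ideal.Quotient.mk (mi v) ((Gi i).coeff m) :=
      coeff_map _ _ _
    rw [h1, coeff_sum]
    simp only [coeff_C_mul, coeff_X_pow]
    by_cases hm0 : Finsupp.single 0 (p ^ r) = m
    · rw [← hm0, Fin.sum_univ_two, if_pos rfl, if_neg, mul_one, mul_zero, add_zero]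
      · rfl
      · intro h2
        exact absurd (single_inj hq1 h2) (by decide)
    · by_cases hm1 : Finsupp.single 1 (p ^ r) = m
      · rw [← hm1, Fin.sum_univ_two, if_neg, if_pos rfl, mul_one, mul_zero, zero_add]
        · rfl
        · intro h2
          exact absurd (single_inj hq1 h2) (by decide)
      · rw [Fin.sum_univ_two, if_neg hm0, if_neg hm1, mul_zero, mul_zero, add_zero,
          Ideal.Quotient.eq_zero_iff_mem, ← v_lt_one_iff, hco, map_mul, hvb, one_mul]
        exact h.insep i m (Ne.symm hm0) (Ne.symm hm1)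
  obtain ⟨s, hs, hgood⟩ := exists_good (mi_ne_bot v) hp hr hpP hGhom hdet hrd
  exact ⟨b, Gi, s, hb0, hGi, hGhom, hs, hgood⟩

end

end Pool.Agent.H420R3
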