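import Mathlib
import Pool.Agent.H420R3.Integral

/-!
Final assembly: maps with potentially good, purely inseparable reduction.
-/

set_option autoImplicit false
set_option linter.unusedSectionVars false

namespace Pool.Agent.H420R3

open NumberField Module MvPolynomial IsDedekindDomain Filter Topology

noncomputable section

section Linear

variable {M : Type*} [Field M]

/-- linear action of a matrix on vectors -/
def lin (A : Matrix (Fin 2) (Fin 2) M) (z : Fin 2 → M) : Fin 2 → M := fun i => ∑ j, A i j * z j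

lemma lin_smul (A : Matrix (Fin 2) (Fin 2) M) (c : M) (z : Fin 2 → M) :
    lin A (c • z) = c • lin A z := by
  funext i
  simp only [lin, Pi.smul_apply, smul_eq_mul, Finset.mul_sum]
  exact Finset.sum_congr rfl fun j _ => by ring

lemma wdg_lin (A : Matrix (Fin 2) (Fin 2) M) (z w : Fin 2 → M) :
    wdg (lin A z) (lin A w) = A.det * wdg z w := by
  simp only [wdg, lin, Fin.sum_univ_two, Matrix.det_fin_two]
  ring

lemma lin_inv {A : Matrix (Fin 2) (Fin 2) M} (hA : A.det ≠ 0) (z : Fin 2 → M) :
    lin A⁻¹ (lin A z) = z := by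
  have h1 : lin A⁻¹ (lin A z) = A⁻¹.mulVec (A.mulVec z) := rfl
  rw [h1, Matrix.mulVec_mulVec, Matrix.nonsing_inv_mul _ (isUnit_iff_ne_zero.mpr hA),
    Matrix.one_mulVec]

lemma lin_ne_zero {A : Matrix (Fin 2) (Fin 2) M} (hA : A.det ≠ 0) {z : Fin 2 → M} (hz : z ≠ 0) :
    lin A z ≠ 0 := by
  intro h
  apply hz
  rw [← lin_inv hA z, h]
  funext i
  simp [lin]

variable [NumberField M]

lemma exists_lin_bound {A : Matrix (Fin 2) (Fin 2) M} (hA : A.det ≠ 0) :
    ∃ C : ℝ, ∀ z : Fin 2 → M, |Height.logHeight (lin A z) - Height.logHeight z| ≤ C := by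
  set C1 : ℝ := Height.totalWeight M * Real.log (Nat.card (Fin 2)) +
    Height.logHeight (fun x : Fin 2 × Fin 2 => A x.1 x.2) with hC1
  set C2 : ℝ := Height.totalWeight M * Real.log (Nat.card (Fin 2)) +
    Height.logHeight (fun x : Fin 2 × Fin 2 => A⁻¹ x.1 x.2) with hC2
  refine ⟨max C1 C2, fun z => ?_⟩
  have h1 : Height.logHeight (lin A z) ≤ C1 + Height.logHeight z :=
    Height.logHeight_linearMap_apply_le (fun x : Fin 2 × Fin 2 => A x.1 x.2) z
  have h2 : Height.logHeight (lin A⁻¹ (lin A z)) ≤ C2 + Height.logHeight (lin A z) :=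
    Height.logHeight_linearMap_apply_le (fun x : Fin 2 × Fin 2 => A⁻¹ x.1 x.2) (lin A z)
  rw [lin_inv hA] at h2
  rw [abs_le]
  constructor
  · linarith [le_max_right C1 C2]
  · linarith [le_max_left C1 C2]

end Linear

section Core

variable {K K' L M : Type*} [Field K] [NumberField K] [Field K'] [NumberField K'] [Field L]
  [NumberField L] [Field M] [NumberField M] [Algebra K K'] [Algebra K L] [Algebra K M]
  [Algebra K' M] [Algebra L M] [IsScalarTower K K' M] [IsScalarTower K L M]

lemma act_base (F : Fin 2 → MvPolynomial (Fin 2) K) (x : Fin 2 → L) :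
    act F (fun i => algebraMap L M (x i)) = fun i => algebraMap L M (act F x i) := by
  funext i
  unfold act
  exact MvPolynomial.aeval_algebraMap_apply M x (F i)

lemma act_iter_base (F : Fin 2 → MvPolynomial (Fin 2) K) (x : Fin 2 → L) (n : ℕ) :
    (act F)^[n] (fun i => algebraMap L M (x i)) = fun i => algebraMap L M ((act F)^[n] x i) := by
  induction n with
  | zero => rfl
  | succ n ih => rw [Function.iterate_succ_apply', ih, act_base, Function.iterate_succ_apply']

/-- conjugation -/
def Conj (A : Matrix (Fin 2) (Fin 2) K') (F : Fin 2 → MvPolynomial (Fin 2) K)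
    (G : Fin 2 → MvPolynomial (Fin 2) K') : Prop :=
  ∀ i, ∑ j, C (A i j) * MvPolynomial.map (algebraMap K K') (F j) =
    bind₁ (fun k => ∑ l, C (A k l) * X l) (G i)

lemma Conj.act {A : Matrix (Fin 2) (Fin 2) K'} {F : Fin 2 → MvPolynomial (Fin 2) K}
    {G : Fin 2 → MvPolynomial (Fin 2) K'} (h : Conj A F G) (z : Fin 2 → M) :
    H420R3.act G (lin (A.map (algebraMap K' M)) z) =
      lin (A.map (algebraMap K' M)) (H420R3.act F z) := by
  funext i
  have h1 := congrArg (aeval z) (h i)
  rw [map_sum, aeval_bind₁] at h1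
  have h2 : (fun k => aeval z (∑ l, C (A k l) * X l : MvPolynomial (Fin 2) K')) =
      lin (A.map (algebraMap K' M)) z := by
    funext k
    rw [map_sum]
    simp only [lin, map_mul, aeval_X, aeval_C, Matrix.map_apply]
  rw [h2] at h1
  change aeval (lin (A.map (algebraMap K' M)) z) (G i) = _
  rw [← h1]
  unfold lin
  refine Finset.sum_congr rfl fun j _ => ?_
  rw [map_mul, aeval_C, aeval_map_algebraMap]
  rfl

lemma Conj.act_iter {A : Matrix (Fin 2) (Fin 2) K'} {F : Fin 2 → MvPolynomial (Fin 2) K}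
    {G : Fin 2 → MvPolynomial (Fin 2) K'} (h : Conj A F G) (z : Fin 2 → M) (n : ℕ) :
    (H420R3.act G)^[n] (lin (A.map (algebraMap K' M)) z) =
      lin (A.map (algebraMap K' M)) ((H420R3.act F)^[n] z) := by
  induction n with
  | zero => rfl
  | succ n ih => rw [Function.iterate_succ_apply', ih, h.act, Function.iterate_succ_apply']

variable {b : 𝓞 K'} {G : Fin 2 → MvPolynomial (Fin 2) K'}
  {Gi : Fin 2 → MvPolynomial (Fin 2) (𝓞 K')}

lemma act_int (hGi : ∀ i, MvPolynomial.map (algebraMap (𝓞 K') K') (Gi i) = C (b : K') * G i)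
    (z : Fin 2 → M) : act Gi z = (algebraMap (𝓞 K') M b) • act G z := by
  funext i
  have h1 := congrArg (aeval z) (hGi i)
  rw [aeval_map_algebraMap, map_mul, aeval_C] at h1
  exact h1

/-- iterates agree up to a nonzero scalar -/
lemma act_int_iter (hb : b ≠ 0)
    (hGi : ∀ i, MvPolynomial.map (algebraMap (𝓞 K') K') (Gi i) = C (b : K') * G i)
    {q : ℕ} (hG : ∀ i, (G i).IsHomogeneous q) (z : Fin 2 → M) (n : ℕ) :
    ∃ c : M, c ≠ 0 ∧ (act Gi)^[n] z = c • (act G)^[n] z := by
  induction n with
  | zero => exact ⟨1, one_ne_zero, (one_smul _ _).symm⟩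
  | succ n ih =>
    obtain ⟨c, hc, hc'⟩ := ih
    refine ⟨algebraMap (𝓞 K') M b * c ^ q, mul_ne_zero ?_ (pow_ne_zero _ hc), ?_⟩
    · rw [Ne, FaithfulSMul.algebraMap_eq_zero_iff]
      exact hb
    · rw [Function.iterate_succ_apply', hc', act_int hGi, act_smul hG, smul_smul,
        Function.iterate_succ_apply']

lemma height_upper' {F : Fin 2 → MvPolynomial (Fin 2) (𝓞 K')} {q : ℕ}
    (hF : ∀ i, (F i).IsHomogeneous q) {z : Fin 2 → M} (hz : z ≠ 0) (hz' : act F z ≠ 0) :
    Height.logHeight (act F z) ≤ q * Height.logHeight z + finrank ℚ M * Real.log (cup F q) := by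
  have hcup := one_le_cup F q
  have h1 := GS_le (a := fun w => Real.log (nmi w (act F z)))
    (a' := fun w => ∑ i ∈ {()}, (fun _ => (q : ℝ)) i * Real.log (nmi w ((fun _ => z) i)))
    (b := fun v => Real.log (nm v (act F z)))
    (b' := fun v => ∑ i ∈ {()}, (fun _ => (q : ℝ)) i * Real.log (nm v ((fun _ => z) i)))
    (c := Real.log (cup F q)) ?_ ?_ (supp_log_nm hz') (supp_sum _ _ _ fun _ _ => hz)
  · rw [GS_height hz', GS_add_sum _ _ _ fun _ _ => hz] at h1
    simpa using h1
  · intro w
    simp only [Finset.sum_singleton]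
    have h2 : nmi w (act F z) ≤ cup F q * nmi w z ^ q := by
      have h3 : ∀ i, w (act F z i) ≤ cup F q * nmi w z ^ q := by
        intro i
        refine (inf_form_le w (hF i) z).trans ?_
        have h0 := nmi_pos w hz
        gcongr
        unfold cup
        have := Finset.single_le_sum (f := fun i => ∑ j : Fin (q + 1), sz ((F i).coeff (mo j)))
          (fun i _ => Finset.sum_nonneg fun j _ => sz_nonneg _) (Finset.mem_univ i)
        linarith
      exact max_le (h3 0) (h3 1)
    have h3 := Real.log_le_log (nmi_pos w hz') h2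
    have h4 := nmi_pos w hz
    rw [Real.log_mul (by linarith) (by positivity), Real.log_pow] at h3
    linarith
  · intro v
    simp only [Finset.sum_singleton]
    have h2 : nm v (act F z) ≤ nm v z ^ q := nm_le v fun i => fin_form_le v (hF i) z
    have h3 := Real.log_le_log (nm_pos v hz') h2
    rwa [Real.log_pow] at h3

lemma wdg_eq_zero {N : Type*} [Field N] {z w : Fin 2 → N} (hz : z ≠ 0) (hw : w ≠ 0)
    (h : wdg z w = 0) : ∃ c : N, c ≠ 0 ∧ z = c • w := by
  have h1 := (pt_eq_iff hz hw).mpr h
  obtain ⟨c, hc, hc'⟩ := rep_pt hz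
  obtain ⟨d, hd, hd'⟩ := rep_pt hw
  refine ⟨c * d⁻¹, mul_ne_zero hc (inv_ne_zero hd), ?_⟩
  rw [hc', h1]
  conv_rhs => rw [hd']
  rw [smul_smul, mul_assoc, inv_mul_cancel₀ hd, mul_one]

variable {F : Fin 2 → MvPolynomial (Fin 2) K} {A : Matrix (Fin 2) (Fin 2) K'}

variable (M) in
/-- the bound over a field containing all the data -/
lemma core_bound (hA : A.det ≠ 0) (hconj : Conj A F G) {q s : ℕ} (hq : 2 ≤ q)
    (hGhom : ∀ i, (G i).IsHomogeneous q) (hb : b ≠ 0)
    (hGi : ∀ i, MvPolynomial.map (algebraMap (𝓞 K') K') (Gi i) = C (b : K') * G i)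
    (hGihom : ∀ i, (Gi i).IsHomogeneous q) (hs : 1 ≤ s) {P : Ideal (𝓞 K')} [P.IsMaximal]
    (hP0 : P ≠ ⊥) (hgood : Good P (Fit Gi s) (q ^ s)) {x : Fin 2 → L} (hx : x ≠ 0)
    (hwand : ¬ ∃ m n : ℕ, m ≠ n ∧ ∃ c : L, c ≠ 0 ∧ (act F)^[n] x = c • (act F)^[m] x) :
    ∃ h : ℝ, Tendsto (fun n : ℕ => Height.logHeight ((act F)^[n] x) /
        ((finrank ℚ L : ℝ) * (q : ℝ) ^ n)) atTop (𝓝 h) ∧
      Real.exp (-(c1 P (Fit Gi s) (q ^ s) * Real.sqrt (1 + Real.log (finrank K' M)))) /
        (c2 P (Fit Gi s) (q ^ s) * finrank K' M) ≤ h := by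
  set AM := A.map (algebraMap K' M) with hAM
  have hAM0 : AM.det ≠ 0 := by
    have h1 : AM.det = algebraMap K' M A.det := by
      rw [RingHom.map_det]
      rfl
    rw [h1, Ne, FaithfulSMul.algebraMap_eq_zero_iff]
    exact hA
  set z : Fin 2 → M := fun i => algebraMap L M (x i) with hz
  have hz0 : z ≠ 0 := by
    intro h
    apply hx
    funext i
    have := congrFun h i
    simp only [hz, Pi.zero_apply, FaithfulSMul.algebraMap_eq_zero_iff] at this
    exact this
  set u := lin AM z with hu
  have hu0 : u ≠ 0 := lin_ne_zero hAM0 hz0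
  -- nonvanishing
  have hact0 : ∀ y : Fin 2 → M, y ≠ 0 → act Gi y ≠ 0 := by
    intro y hy h0
    have h1 := hgood.act_ne_zero hP0 hy
    rw [act_Fit] at h1
    apply h1
    obtain ⟨s', rfl⟩ : ∃ s', s = s' + 1 := ⟨s - 1, by omega⟩
    rw [Function.iterate_succ_apply, h0]
    have h2 : act Gi (0 : Fin 2 → M) = 0 := by
      have := act_smul hGihom (0 : M) (0 : Fin 2 → M)
      rwa [zero_smul, zero_pow (by omega), zero_smul] at this
    clear h1 hs hgood
    induction s' with
    | zero => rfl
    | succ s' ih => rw [Function.iterate_succ_apply', ih, h2]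
  have hiter0 : ∀ n, (act Gi)^[n] u ≠ 0 := by
    intro n
    induction n with
    | zero => exact hu0
    | succ n ih =>
      rw [Function.iterate_succ_apply']
      exact hact0 _ ih
  -- comparison of the orbits
  have hcomp : ∀ n, ∃ c : M, c ≠ 0 ∧ (act Gi)^[n] u =
      c • lin AM (fun i => algebraMap L M ((act F)^[n] x i)) := by
    intro n
    obtain ⟨c, hc, hc'⟩ := act_int_iter hb hGi hGhom u n
    refine ⟨c, hc, ?_⟩
    rw [hc', hu, hconj.act_iter, hz, act_iter_base]
  obtain ⟨CA, hCA⟩ := exists_lin_bound hAM0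
  have hn := nQ_pos L
  have hnM := nQ_pos M
  have hLM : (0 : ℝ) < finrank L M := by exact_mod_cast (finrank_pos : 0 < finrank L M)
  have hQM : (finrank ℚ M : ℝ) = finrank ℚ L * finrank L M := by
    exact_mod_cast (finrank_mul_finrank ℚ L M).symm
  set a : ℕ → ℝ := fun n => Height.logHeight ((act F)^[n] x) / finrank ℚ L with ha
  set a' : ℕ → ℝ := fun n => Height.logHeight ((act Gi)^[n] u) / finrank ℚ M with ha'
  have haa : ∀ n, |a' n - a n| ≤ |CA| / finrank ℚ M := by
    intro n
    obtain ⟨c, hc, hc'⟩ := hcomp n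
    have h1 : a n = Height.logHeight (fun i => algebraMap L M ((act F)^[n] x i)) /
        finrank ℚ M := by
      simp only [ha]
      rw [Helper259.HtExt.logHeight_ext, hQM]
      field_simp
    have h2 : a' n = Height.logHeight (lin AM (fun i => algebraMap L M ((act F)^[n] x i))) /
        finrank ℚ M := by
      simp only [ha']
      rw [hc', Height.logHeight_smul_eq_logHeight _ hc]
    rw [h1, h2, ← sub_div, abs_div, abs_of_pos hnM]
    apply div_le_div_of_nonneg_right _ hnM.le
    exact (hCA _).trans (le_abs_self _)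
  -- limits
  have hq' : (2 : ℝ) ≤ q := by exact_mod_cast hq
  have hcup := one_le_cup Gi q
  have hlim : Tendsto (fun n => a' n / (q : ℝ) ^ n) atTop (𝓝 (hh (Fit Gi s) (q ^ s) u)) := by
    refine tendsto_of_sub (C := Real.log (cup Gi q)) hq' (Real.log_nonneg hcup) hs ?_ ?_ ?_
    · intro n
      exact div_nonneg (Height.logHeight_nonneg _) hnM.le
    · intro n
      have h1 := height_upper' hGihom (hiter0 n) (hact0 _ (hiter0 n))
      rw [← Function.iterate_succ_apply' (act Gi) n u] at h1
      simp only [ha']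
      rw [div_le_iff₀ hnM]
      have h2 : ((q : ℝ) * (Height.logHeight ((act Gi)^[n] u) / finrank ℚ M) +
          Real.log (cup Gi q)) * finrank ℚ M =
          q * Height.logHeight ((act Gi)^[n] u) + finrank ℚ M * Real.log (cup Gi q) := by
        field_simp
      rw [h2]
      exact h1
    · refine (hgood.tendsto_hh hP0 hu0).congr fun n => ?_
      simp only [ha']
      rw [act_Fit_iter, div_div]
      push_cast
      rw [pow_mul]
  have hlim2 : Tendsto (fun n => a n / (q : ℝ) ^ n) atTop (𝓝 (hh (Fit Gi s) (q ^ s) u)) := by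
    have h1 : Tendsto (fun n : ℕ => (|CA| / finrank ℚ M) / (q : ℝ) ^ n) atTop (𝓝 0) := by
      have h3 : Tendsto (fun n : ℕ => (q : ℝ) ^ n) atTop atTop :=
        tendsto_pow_atTop_atTop_of_one_lt (by linarith)
      exact h3.const_div_atTop _
    have h2 : Tendsto (fun n => a' n / (q : ℝ) ^ n - a n / (q : ℝ) ^ n) atTop (𝓝 0) := by
      refine squeeze_zero_norm (fun n => ?_) h1
      rw [← sub_div, Real.norm_eq_abs, abs_div, abs_of_pos (by positivity : (0 : ℝ) < (q : ℝ) ^ n)]
      exact div_le_div_of_nonneg_right (haa n) (by positivity)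
    have h3 := hlim.sub h2
    rw [sub_zero] at h3
    refine h3.congr fun n => ?_
    ring
  refine ⟨hh (Fit Gi s) (q ^ s) u, ?_, ?_⟩
  · refine hlim2.congr fun n => ?_
    simp only [ha]
    rw [div_div]
  · -- the point is wandering
    have hFiter : ∀ n, (act F)^[n] x ≠ 0 := by
      intro n h0
      obtain ⟨c, hc, hc'⟩ := hcomp n
      apply hiter0 n
      rw [hc', h0]
      funext i
      simp [lin]
    have hw : Wand (Fit Gi s) (pt u) := by
      intro a b hab
      by_contra hne
      simp only at hab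
      have hphi : ∀ n, (phi (Fit Gi s))^[n] (pt u) = pt ((act Gi)^[s * n] u) := by
        intro n
        induction n with
        | zero => rfl
        | succ n ih =>
          rw [Function.iterate_succ_apply', ih, phi_pt hgood.hom (hiter0 _), act_Fit,
            ← Function.iterate_add_apply, Nat.mul_succ, Nat.add_comm]
      rw [hphi, hphi, pt_eq_iff (hiter0 _) (hiter0 _)] at hab
      obtain ⟨c, hc, hc'⟩ := hcomp (s * a)
      obtain ⟨d, hd, hd'⟩ := hcomp (s * b)
      rw [hc', hd', wdg_smul_left, wdg_smul_right, wdg_lin] at hab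
      have h1 : wdg (fun i => algebraMap L M ((act F)^[s * a] x i))
          (fun i => algebraMap L M ((act F)^[s * b] x i)) = 0 := by
        rcases mul_eq_zero.mp hab with h | h
        · exact absurd h hc
        · rcases mul_eq_zero.mp h with h | h
          · exact absurd h hd
          · rcases mul_eq_zero.mp h with h | h
            · exact absurd h hAM0
            · exact h
      have h2 : wdg ((act F)^[s * a] x) ((act F)^[s * b] x) = 0 := by
        have h3 : algebraMap L M (wdg ((act F)^[s * a] x) ((act F)^[s * b] x)) = 0 := by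
          rw [← h1]
          simp [wdg]
        exact (FaithfulSMul.algebraMap_eq_zero_iff L M).mp h3
      obtain ⟨e, he, he'⟩ := wdg_eq_zero (hFiter _) (hFiter _) h2
      apply hwand
      refine ⟨s * b, s * a, ?_, e, he, he'⟩
      intro h3
      exact hne (Nat.eq_of_mul_eq_mul_left (by omega) h3).symm
    have h1 := hgood.main hP0 hw
    rwa [hgood.hh_pt hu0] at h1

end Core

end

end Pool.Agent.H420R3
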