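import Mathlib
import Pool.Agent.H420R3.Final

/-!
The theorem for maps with potentially good, purely inseparable reduction.
-/

set_option autoImplicit false
set_option linter.unusedSectionVars false

namespace Pool.Agent.H420R3

open NumberField Module MvPolynomial IsDedekindDomain Filter Topology

noncomputable section

section Compositum

variable (K K' L : Type) [Field K] [NumberField K] [Field K'] [NumberField K'] [Field L]
  [NumberField L] [Algebra K K'] [Algebra K L]

/-- the embedding of `K'` in an algebraic closure of `L` -/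
def embK' : K' →ₐ[K] AlgebraicClosure L := IsAlgClosed.lift

/-- the embedding of `L` in its algebraic closure -/
def embL : L →ₐ[K] AlgebraicClosure L := IsScalarTower.toAlgHom K L (AlgebraicClosure L)

/-- the compositum -/
abbrev CP : IntermediateField K (AlgebraicClosure L) :=
  (embL K L).fieldRange ⊔ (embK' K K' L).fieldRange

instance fd1 : FiniteDimensional K (embL K L).fieldRange :=
  (AlgEquiv.ofInjectiveField (embL K L)).toLinearEquiv.finiteDimensional

instance fd2 : FiniteDimensional K (embK' K K' L).fieldRange :=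
  (AlgEquiv.ofInjectiveField (embK' K K' L)).toLinearEquiv.finiteDimensional

instance fdCP : FiniteDimensional K (CP K K' L) := IntermediateField.finiteDimensional_sup _ _

instance nfCP : NumberField (CP K K' L) := NumberField.of_module_finite K (CP K K' L)

/-- `L` in the compositum -/
def jL : L →ₐ[K] CP K K' L :=
  (IntermediateField.inclusion (le_sup_left : (embL K L).fieldRange ≤ CP K K' L)).comp
    (AlgEquiv.ofInjectiveField (embL K L)).toAlgHom

/-- `K'` in the compositum -/
def jK' : K' →ₐ[K] CP K K' L :=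
  (IntermediateField.inclusion (le_sup_right : (embK' K K' L).fieldRange ≤ CP K K' L)).comp
    (AlgEquiv.ofInjectiveField (embK' K K' L)).toAlgHom

instance algL : Algebra L (CP K K' L) := (jL K K' L).toRingHom.toAlgebra

instance algK' : Algebra K' (CP K K' L) := (jK' K K' L).toRingHom.toAlgebra

instance stL : IsScalarTower K L (CP K K' L) :=
  IsScalarTower.of_algebraMap_eq fun x => ((jL K K' L).commutes x).symm

instance stK' : IsScalarTower K K' (CP K K' L) :=
  IsScalarTower.of_algebraMap_eq fun x => ((jK' K K' L).commutes x).symm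

lemma finrank_CP_le : finrank K' (CP K K' L) ≤ finrank K L := by
  have h1 := IntermediateField.finrank_sup_le (embL K L).fieldRange (embK' K K' L).fieldRange
  have h2 : finrank K (embL K L).fieldRange = finrank K L :=
    (AlgEquiv.ofInjectiveField (embL K L)).toLinearEquiv.finrank_eq.symm
  have h3 : finrank K (embK' K K' L).fieldRange = finrank K K' :=
    (AlgEquiv.ofInjectiveField (embK' K K' L)).toLinearEquiv.finrank_eq.symm
  rw [h2, h3] at h1
  have h4 : finrank K K' * finrank K' (CP K K' L) = finrank K (CP K K' L) :=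
    finrank_mul_finrank K K' (CP K K' L)
  have h5 : 0 < finrank K K' := finrank_pos
  have h6 : finrank K K' * finrank K' (CP K K' L) ≤ finrank K K' * finrank K L := by
    rw [h4, mul_comm (finrank K K')]
    exact h1
  exact Nat.le_of_mul_le_mul_left h6 h5

end Compositum

/-- the final bound -/
theorem top {K : Type} [Field K] [NumberField K] {p r : ℕ} (hp : p.Prime) (hr : 1 ≤ r)
    (F : Fin 2 → MvPolynomial (Fin 2) K)
    (K' : Type) [Field K'] [NumberField K'] [Algebra K K'] (A : Matrix (Fin 2) (Fin 2) K')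
    (hA : A.det ≠ 0) (G : Fin 2 → MvPolynomial (Fin 2) K')
    (hGhom : ∀ i, (G i).IsHomogeneous (p ^ r)) (hconj : Conj A F G) (v : FinitePlace K')
    (hv : v (p : K') < 1) (hred : InsepAt v (p ^ r) G) :
    ∃ C : ℝ, 0 < C ∧ ∀ (L : Type) [Field L] [NumberField L] [Algebra K L] (x : Fin 2 → L),
      x ≠ 0 →
      (¬ ∃ m n : ℕ, m ≠ n ∧ ∃ c : L, c ≠ 0 ∧ (act F)^[n] x = c • (act F)^[m] x) →
      ∃ h : ℝ, Tendsto (fun n : ℕ => Height.logHeight ((act F)^[n] x) /
          ((finrank ℚ L : ℝ) * ((p ^ r : ℕ) : ℝ) ^ n)) atTop (𝓝 h) ∧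
        Real.exp (-(C * Real.sqrt (1 + Real.log (finrank K L)))) / (C * finrank K L) ≤ h := by
  obtain ⟨b, Gi, s, hb, hGi, hGih, hs, hgood⟩ := hred.exists_model hp hr hv hGhom
  have hc1 := hgood.c1_pos (mi_ne_bot v)
  have hc2 := hgood.c2_pos (mi_ne_bot v)
  set γ₁ := c1 (mi v) (Fit Gi s) ((p ^ r) ^ s) with hγ₁
  set γ₂ := c2 (mi v) (Fit Gi s) ((p ^ r) ^ s) with hγ₂
  have hq : 2 ≤ p ^ r := by
    calc 2 ≤ p := hp.two_le
      _ ≤ p ^ r := Nat.le_self_pow (by omega) _
  refine ⟨max γ₁ γ₂, lt_max_of_lt_left hc1, ?_⟩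
  intro L _ _ _ x hx hwand
  obtain ⟨h, h1, h2⟩ := core_bound (M := CP K K' L) (L := L) hA hconj hq hGhom hb hGi hGih hs
    (mi_ne_bot v) hgood hx hwand
  refine ⟨h, h1, le_trans ?_ h2⟩
  have h3 : (finrank K' (CP K K' L) : ℝ) ≤ finrank K L := by
    exact_mod_cast finrank_CP_le K K' L
  have h4 : (1 : ℝ) ≤ finrank K' (CP K K' L) := by
    exact_mod_cast (finrank_pos : 0 < finrank K' (CP K K' L))
  set D' : ℝ := (finrank K' (CP K K' L) : ℝ) with hD'
  set D : ℝ := (finrank K L : ℝ) with hD
  have h5 : γ₁ * Real.sqrt (1 + Real.log D') ≤ max γ₁ γ₂ * Real.sqrt (1 + Real.log D) := by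
    gcongr
    exact le_max_left _ _
  have h6 : γ₂ * D' ≤ max γ₁ γ₂ * D := by
    gcongr
    exact le_max_right _ _
  have h7 : 0 < γ₂ * D' := by positivity
  calc Real.exp (-(max γ₁ γ₂ * Real.sqrt (1 + Real.log D))) / (max γ₁ γ₂ * D) ≤
      Real.exp (-(γ₁ * Real.sqrt (1 + Real.log D'))) / (γ₂ * D') := by
        gcongr
    _ = _ := rfl

end

end Pool.Agent.H420R3
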